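import Pool.Agent.QUE.Defs
import Pool.Agent.QUS.Bas

/-!
# QUE/Fld: bases of subspaces over a field

`exists_isB`: take `S` of minimal cardinality such that `v ∈ L`, `v = 0` on `S` implies `v = 0` (`univ` has this property); for `b ∈ S` there is
`v ∈ L`, `v ≠ 0`, zero on `S \ b`, so `v b ≠ 0`; take `(v b)⁻¹ • v`.
`exists_chain`: among the bases `S` take one with `(S ∩ A).card + (S ∩ B).card` maximal.  If `b ∈ S \ A`, `e ∈ A` and `fv L S b e ≠ 0` then `e ∉ S` (`fv_oth`) and
`pv S b e` is a basis (`piv`; nonzero = unit) with a bigger sum (`e ∈ A ⊆ B`); if `b ∈ S \ B`, `e ∈ B`: the same.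
`isB_adapt`: the same for one set (`A = B`).  `isB_pv`: `piv` and `unit_of_piv`.
-/

set_option autoImplicit false

noncomputable section

open scoped Classical

namespace Pool.Agent.QUE

open Pool.Agent.QUS

variable {K : Type} [Field K] {E : Type} [Fintype E] {L : Submodule K (E → K)} {S A B : Finset E} {b e : E}

omit [Fintype E] in
theorem uz_field (x : K) : UZ x := by
  by_cases h : x = 0
  · exact Or.inl h
  · exact Or.inr (isUnit_iff_ne_zero.2 h)

theorem exists_isB (L : Submodule K (E → K)) : ∃ S, IsB L S := by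
  let P : Finset E → Prop := fun S => ∀ v ∈ L, (∀ s ∈ S, v s = 0) → v = 0
  have hne : ((Finset.univ : Finset (Finset E)).filter P).Nonempty := by
    refine ⟨Finset.univ, ?_⟩
    rw [Finset.mem_filter]
    refine ⟨Finset.mem_univ _, fun v _ h => ?_⟩
    funext s
    exact h s (Finset.mem_univ s)
  obtain ⟨S, hS, hmin⟩ := Finset.exists_min_image _ Finset.card hne
  rw [Finset.mem_filter] at hS
  have hP : P S := hS.2
  refine ⟨S, hP, fun b hb => ?_⟩
  have hnot : ¬ P (S.erase b) := by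
    intro h
    have h1 := hmin (S.erase b) (by rw [Finset.mem_filter]; exact ⟨Finset.mem_univ _, h⟩)
    have h2 := Finset.card_erase_lt_of_mem hb
    omega
  have hnot' : ∃ v ∈ L, (∀ s ∈ S.erase b, v s = 0) ∧ v ≠ 0 := by
    by_contra hcon
    apply hnot
    intro v hv h0
    by_contra hv0
    exact hcon ⟨v, hv, h0, hv0⟩
  obtain ⟨v, hv, h0, hv0⟩ := hnot'
  have hvb : v b ≠ 0 := by
    intro hb0
    apply hv0
    refine hP v hv fun s hs => ?_
    by_cases hsb : s = b
    · rw [hsb, hb0]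
    · exact h0 s (Finset.mem_erase.2 ⟨hsb, hs⟩)
  refine ⟨(v b)⁻¹ • v, Submodule.smul_mem _ _ hv, ?_, fun s hs hsb => ?_⟩
  · rw [Pi.smul_apply, smul_eq_mul, inv_mul_cancel₀ hvb]
  · rw [Pi.smul_apply, smul_eq_mul, h0 s (Finset.mem_erase.2 ⟨hsb, hs⟩), mul_zero]

omit [Fintype E] in
theorem isB_pv (hS : IsB L S) (hb : b ∈ S) (he : e ∉ S) : IsB L (pv S b e) ↔ fv L S b e ≠ 0 :=
  ⟨fun h => (unit_of_piv hS hb he h).ne_zero, fun h => piv hS hb he (isUnit_iff_ne_zero.2 h)⟩

omit [Fintype E] in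
private theorem card_up {C : Finset E} (hbC : b ∉ C) (heC : e ∈ C) (he : e ∉ S) :
    (S ∩ C).card + 1 ≤ (pv S b e ∩ C).card := by
  have h1 : e ∉ S ∩ C := fun h => he (Finset.mem_inter.1 h).1
  rw [← Finset.card_insert_of_notMem h1]
  apply Finset.card_le_card
  intro x hx
  rw [Finset.mem_insert, Finset.mem_inter] at hx
  rw [Finset.mem_inter, mem_pv]
  rcases hx with rfl | ⟨hxS, hxC⟩
  · exact ⟨Or.inl rfl, heC⟩
  · refine ⟨Or.inr ⟨?_, hxS⟩, hxC⟩
    rintro rfl
    exact hbC hxC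

omit [Fintype E] in
private theorem card_keep {C : Finset E} (h : b ∉ C ∨ e ∈ C) (he : e ∉ S) :
    (S ∩ C).card ≤ (pv S b e ∩ C).card := by
  rcases h with hbC | heC
  · apply Finset.card_le_card
    intro x hx
    rw [Finset.mem_inter] at hx
    rw [Finset.mem_inter, mem_pv]
    refine ⟨Or.inr ⟨?_, hx.1⟩, hx.2⟩
    rintro rfl
    exact hbC hx.2
  · have h1 : e ∉ (S ∩ C).erase b := fun h => he (Finset.mem_inter.1 (Finset.mem_of_mem_erase h)).1
    have h2 : (insert e ((S ∩ C).erase b)).card ≤ (pv S b e ∩ C).card := by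
      apply Finset.card_le_card
      intro x hx
      rw [Finset.mem_insert, Finset.mem_erase, Finset.mem_inter] at hx
      rw [Finset.mem_inter, mem_pv]
      rcases hx with rfl | ⟨hxb, hxS, hxC⟩
      · exact ⟨Or.inl rfl, heC⟩
      · exact ⟨Or.inr ⟨hxb, hxS⟩, hxC⟩
    rw [Finset.card_insert_of_notMem h1] at h2
    have h3 : (S ∩ C).card - 1 ≤ ((S ∩ C).erase b).card := Finset.pred_card_le_card_erase
    omega

theorem exists_chain (L : Submodule K (E → K)) (h : A ⊆ B) : ∃ S, IsB L S ∧ (∀ b ∈ S, b ∉ A → ∀ e ∈ A, fv L S b e = 0) ∧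
    ∀ b ∈ S, b ∉ B → ∀ e ∈ B, fv L S b e = 0 := by
  obtain ⟨S0, hS0⟩ := exists_isB L
  have hne : ((Finset.univ : Finset (Finset E)).filter (fun S => IsB L S)).Nonempty :=
    ⟨S0, by rw [Finset.mem_filter]; exact ⟨Finset.mem_univ _, hS0⟩⟩
  obtain ⟨S, hS, hmax⟩ := Finset.exists_max_image _ (fun S => (S ∩ A).card + (S ∩ B).card) hne
  rw [Finset.mem_filter] at hS
  have hS' : IsB L S := hS.2
  refine ⟨S, hS', fun b hb hbA e heA => ?_, fun b hb hbB e heB => ?_⟩
  · by_contra hne0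
    have heb : e ≠ b := by
      rintro rfl
      exact hbA heA
    have heS : e ∉ S := fun heS => hne0 (fv_oth hS' hb heS heb)
    have hp := (isB_pv hS' hb heS).2 hne0
    have h1 := hmax (pv S b e) (by rw [Finset.mem_filter]; exact ⟨Finset.mem_univ _, hp⟩)
    have h2 := card_up hbA heA heS
    have h3 := card_keep (b := b) (S := S) (C := B) (Or.inr (h heA)) heS
    omega
  · by_contra hne0
    have heb : e ≠ b := by
      rintro rfl
      exact hbB heB
    have heS : e ∉ S := fun heS => hne0 (fv_oth hS' hb heS heb)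
    have hp := (isB_pv hS' hb heS).2 hne0
    have h1 := hmax (pv S b e) (by rw [Finset.mem_filter]; exact ⟨Finset.mem_univ _, hp⟩)
    have h2 := card_up hbB heB heS
    have h3 := card_keep (b := b) (e := e) (S := S) (C := A) (Or.inl (fun hbA => hbB (h hbA))) heS
    omega

theorem isB_adapt (L : Submodule K (E → K)) (A : Finset E) :
    ∃ S, IsB L S ∧ ∀ b ∈ S, b ∉ A → ∀ e ∈ A, fv L S b e = 0 := by
  obtain ⟨S, h1, h2, -⟩ := exists_chain L (Finset.Subset.refl A)
  exact ⟨S, h1, h2⟩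

omit [Fintype E] in
/-- a vector is zero on `A` if it is zero on the part of an adapted basis in `A` -/
theorem zero_of_adapt (hS : IsB L S) (h : ∀ b ∈ S, b ∉ A → ∀ e ∈ A, fv L S b e = 0) {v : E → K} (hv : v ∈ L)
    (h0 : ∀ b ∈ S, b ∈ A → v b = 0) : ∀ e ∈ A, v e = 0 := by
  intro e he
  rw [expand hS hv, Finset.sum_apply]
  refine Finset.sum_eq_zero fun b hb => ?_
  rw [Pi.smul_apply, smul_eq_mul]
  by_cases hA : b ∈ A
  · rw [h0 b hb hA, zero_mul]
  · rw [h b hb hA e he, mul_zero]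

end Pool.Agent.QUE
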