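import Pool.Agent.QUE.Rl
import Pool.Agent.QUE.Fld

/-!
# QUE/Dt: determinants and bases over a field

`M = (A (f k) (g l))`, `f k ∈ R`, `g l ∉ R`, `S = (R \ im f) ∪ im g`, `L = rowL A R`.  If `f` or `g` is not injective `M` has two equal rows or columns (`Matrix.det_zero_of_row_eq`, `Matrix.det_zero_of_column_eq`).  Let both be injective.
If `det M = 0` there is `c : Fin m → K`, `c ≠ 0`, with `c ᵥ* M = 0` (`Matrix.exists_vecMul_eq_zero_iff`); the vector `v = ∑ k, c k • fv L R (f k)` is `0` on `R \ im f` and on `im g` and not `0`: `S` is no basis.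
If `det M ≠ 0`: `v ∈ L` zero on `S`: `v = ∑ k, v (f k) • fv L R (f k)`, zero on `im g`: `(v ∘ f) ᵥ* M = 0`, so `v = 0`.  Fundamental vectors: for a right hand side `d : Fin m → K` solve `c ᵥ* M = d` (`c = d ᵥ* M⁻¹`) to get for `b = g l ∈ S` the vector
`∑ c k • fv (f k)`, and for `b ∈ R \ im f` the vector `fv b + ∑ c k • fv (f k)` with `d l = - fv b (g l)`.
-/

set_option autoImplicit false

noncomputable section

open scoped Classical

namespace Pool.Agent.QUE

open Pool.Agent.QUS

variable {K : Type} [Field K] {E : Type} [Fintype E] {R : Finset E}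

/-- the vector with given coordinates in `R` -/
private def Dt_ext (A : E → E → K) (R : Finset E) (p : E → K) : E → K := fun j =>
  if j ∈ R then p j else ∑ i ∈ R, p i * A i j

omit [Fintype E] in
private theorem Dt_in (A : E → E → K) {p : E → K} {j : E} (h : j ∈ R) : Dt_ext A R p j = p j := if_pos h

omit [Fintype E] in
private theorem Dt_out (A : E → E → K) {p : E → K} {j : E} (h : j ∉ R) : Dt_ext A R p j = ∑ i ∈ R, p i * A i j := if_neg h

omit [Fintype E] in
private theorem Dt_mem (A : E → E → K) (p : E → K) : Dt_ext A R p ∈ rowL A R := by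
  intro j hj
  rw [Dt_out A hj]
  exact Finset.sum_congr rfl fun i hi => by rw [Dt_in A hi]

omit [Fintype E] in
private theorem Dt_sum {m : ℕ} {f : Fin m → E} (hf : ∀ k, f k ∈ R) (hi : Function.Injective f) (q : E → K) :
    ∑ i ∈ R, q i = ∑ i ∈ R \ Finset.univ.image f, q i + ∑ k, q (f k) := by
  have h1 : Finset.univ.image f ⊆ R := by
    intro x hx
    obtain ⟨k, -, rfl⟩ := Finset.mem_image.1 hx
    exact hf k
  rw [← Finset.sum_sdiff h1, Finset.sum_image fun a _ b _ h => hi h]

omit [Fintype E] in
private theorem Dt_memS {m : ℕ} {f g : Fin m → E} {x : E} :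
    x ∈ (R \ Finset.univ.image f) ∪ Finset.univ.image g ↔ (x ∈ R ∧ ∀ k, f k ≠ x) ∨ ∃ l, g l = x := by
  simp

omit [Fintype E] in
private theorem Dt_isB (A : E → E → K) {m : ℕ} {f g : Fin m → E} (hf : ∀ k, f k ∈ R) (hg : ∀ k, g k ∉ R)
    (fi : Function.Injective f) (hd : (Matrix.of fun k l => A (f k) (g l)).det ≠ 0) :
    IsB (rowL A R) ((R \ Finset.univ.image f) ∪ Finset.univ.image g) := by
  constructor
  · intro v hv h0
    have z1 : ∀ i ∈ R \ Finset.univ.image f, v i = 0 := fun i hi => h0 i (Finset.mem_union_left _ hi)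
    have h1 : (v ∘ f) = 0 := by
      refine Matrix.eq_zero_of_vecMul_eq_zero hd ?_
      funext l
      have h2 := hv (g l) (hg l)
      rw [h0 (g l) (Finset.mem_union_right _ (Finset.mem_image_of_mem g (Finset.mem_univ l))),
        Dt_sum hf fi (fun i => v i * A i (g l)),
        Finset.sum_eq_zero (s := R \ Finset.univ.image f) fun i hi => by rw [z1 i hi, zero_mul], zero_add] at h2
      exact h2.symm
    have h3 : ∀ i ∈ R, v i = 0 := by
      intro i hi
      by_cases h : i ∈ Finset.univ.image f
      · obtain ⟨k, -, rfl⟩ := Finset.mem_image.1 h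
        exact congrFun h1 k
      · exact z1 i (Finset.mem_sdiff.2 ⟨hi, h⟩)
    funext j
    by_cases hj : j ∈ R
    · exact h3 j hj
    · rw [hv j hj]
      exact Finset.sum_eq_zero fun i hi => by rw [h3 i hi, zero_mul]
  · intro b hb
    let t : E → K := fun e => if e = b then 1 else 0
    let d : Fin m → K := fun l => t (g l) - ∑ i ∈ R \ Finset.univ.image f, t i * A i (g l)
    let M : Matrix (Fin m) (Fin m) K := Matrix.of fun k l => A (f k) (g l)
    let c : Fin m → K := Matrix.vecMul d M⁻¹
    have hc : Matrix.vecMul c M = d := by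
      show Matrix.vecMul (Matrix.vecMul d M⁻¹) M = d
      rw [Matrix.vecMul_vecMul, Matrix.nonsing_inv_mul M (isUnit_iff_ne_zero.2 hd), Matrix.vecMul_one]
    let p : E → K := Function.extend f c t
    have p1 : ∀ k, p (f k) = c k := fun k => fi.extend_apply c t k
    have p2 : ∀ i, (∀ k, f k ≠ i) → p i = t i := fun i hi => Function.extend_apply' c t i fun ⟨k, hk⟩ => hi k hk
    have key : ∀ s ∈ (R \ Finset.univ.image f) ∪ Finset.univ.image g, Dt_ext A R p s = t s := by
      intro s hs
      rcases Dt_memS.1 hs with ⟨h1, h2⟩ | ⟨l, rfl⟩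
      · rw [Dt_in A h1, p2 s h2]
      · rw [Dt_out A (hg l), Dt_sum hf fi (fun i => p i * A i (g l))]
        have e1 : ∑ i ∈ R \ Finset.univ.image f, p i * A i (g l) = ∑ i ∈ R \ Finset.univ.image f, t i * A i (g l) := by
          refine Finset.sum_congr rfl fun i hi => ?_
          rw [p2 i fun k hk => (Finset.mem_sdiff.1 hi).2 (hk ▸ Finset.mem_image_of_mem f (Finset.mem_univ k))]
        have e2 : ∑ k, p (f k) * A (f k) (g l) = d l := by
          rw [← hc]
          exact Finset.sum_congr rfl fun k _ => by rw [p1 k]; rfl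
        rw [e1, e2]
        exact add_sub_cancel _ _
    refine ⟨Dt_ext A R p, Dt_mem A p, ?_, ?_⟩
    · rw [key b hb]
      exact if_pos rfl
    · intro s hs hsb
      rw [key s hs]
      exact if_neg hsb

omit [Fintype E] in
private theorem Dt_det (A : E → E → K) {m : ℕ} {f g : Fin m → E} (hf : ∀ k, f k ∈ R) (hg : ∀ k, g k ∉ R)
    (fi : Function.Injective f) (hB : IsB (rowL A R) ((R \ Finset.univ.image f) ∪ Finset.univ.image g)) :
    (Matrix.of fun k l => A (f k) (g l)).det ≠ 0 := by
  intro h0
  obtain ⟨c, hc0, hc⟩ := Matrix.exists_vecMul_eq_zero_iff.2 h0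
  let p : E → K := Function.extend f c 0
  have p1 : ∀ k, p (f k) = c k := fun k => fi.extend_apply c 0 k
  have p2 : ∀ i, (∀ k, f k ≠ i) → p i = 0 := fun i hi => Function.extend_apply' c (0 : E → K) i fun ⟨k, hk⟩ => hi k hk
  have key : Dt_ext A R p = 0 := by
    refine hB.1 _ (Dt_mem A p) ?_
    intro s hs
    rcases Dt_memS.1 hs with ⟨h1, h2⟩ | ⟨l, rfl⟩
    · rw [Dt_in A h1, p2 s h2]
    · rw [Dt_out A (hg l), Dt_sum hf fi (fun i => p i * A i (g l)), Finset.sum_eq_zero, zero_add]
      · have h3 : ∑ k, p (f k) * A (f k) (g l) = Matrix.vecMul c (Matrix.of fun k l => A (f k) (g l)) l :=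
          Finset.sum_congr rfl fun k _ => by rw [p1 k]; rfl
        rw [h3, hc]
        rfl
      · intro i hi
        rw [p2 i fun k hk => (Finset.mem_sdiff.1 hi).2 (hk ▸ Finset.mem_image_of_mem f (Finset.mem_univ k)), zero_mul]
  refine hc0 ?_
  funext k
  have e := congrFun key (f k)
  rw [Dt_in A (hf k), p1 k] at e
  exact e

theorem det_ne_iff (A : E → E → K) {m : ℕ} {f g : Fin m → E} (hf : ∀ k, f k ∈ R) (hg : ∀ k, g k ∉ R) :
    (Matrix.of fun k l => A (f k) (g l)).det ≠ 0 ↔ Function.Injective f ∧ Function.Injective g ∧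
      IsB (rowL A R) ((R \ Finset.univ.image f) ∪ Finset.univ.image g) := by
  constructor
  · intro hd
    have fi : Function.Injective f := by
      intro k l h
      by_contra hkl
      refine hd (Matrix.det_zero_of_row_eq hkl ?_)
      funext j
      show A (f k) (g j) = A (f l) (g j)
      rw [h]
    have gi : Function.Injective g := by
      intro k l h
      by_contra hkl
      refine hd (Matrix.det_zero_of_column_eq hkl ?_)
      intro j
      show A (f j) (g k) = A (f j) (g l)
      rw [h]
    exact ⟨fi, gi, Dt_isB A hf hg fi hd⟩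
  · rintro ⟨fi, -, hB⟩
    exact Dt_det A hf hg fi hB

end Pool.Agent.QUE
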