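import Pool.Agent.QUE.Fc
import Pool.Agent.QUL.LDefs

/-!
# QUE/Rc: rich boxes contain blocks

The basis `S` is adapted to both sides of the box (`exists_chain`); it has two or three elements in the ground set
of the minor, the entries and the subdeterminants of the block do not vanish since vectors of the row space which
vanish on too many elements vanish on the whole box.
-/

set_option autoImplicit false

noncomputable section

open scoped Classical

namespace Pool.Agent.QUE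

open Pool.Agent.FRM Pool.Agent.QUS
open Pool.Agent.QU (Fm EqD Itv Rich)

variable {E : Type} [Fintype E] {L : Submodule F4 (E → F4)}

private theorem Rc_eqD {q : Itv E} {S P N : Finset E} (hS : IsB L S)
    (hA : ∀ b ∈ S, b ∉ q.1 → ∀ e ∈ q.1, fv L S b e = 0)
    (hB : ∀ b ∈ S, b ∉ q.2 → ∀ e ∈ q.2, fv L S b e = 0)
    (hP : ∀ x ∈ P, x ∉ q.1) (hN : ∀ x ∈ N, x ∈ q.2) (T : Fm F4 E)
    (hT : EqD L (WW L) q T 0) : EqD L (WW L) (S \ P, S ∪ N) T 0 := by
  obtain ⟨l, hl⟩ := hT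
  refine ⟨l, fun c hc d hd => hl c ⟨hc.1, ?_⟩ d ⟨hd.1, ?_⟩⟩
  · exact zero_of_adapt hS hA hc.1 fun b hb hbA =>
      hc.2 b (Finset.mem_sdiff.2 ⟨hb, fun h => hP b h hbA⟩)
  · intro x hx
    rw [fc_expand hS hd.1, Finset.sum_apply]
    refine Finset.sum_eq_zero fun e he => ?_
    have heS : e ∉ S := Finset.mem_compl.1 he
    rw [Pi.smul_apply, smul_eq_mul]
    by_cases hN' : e ∈ N
    · have hxe : x ≠ e := by
        rintro rfl
        exact hx (hN x hN')
      by_cases hxS : x ∈ S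
      · rw [fc_in heS hxS, hB x hxS hx e (hN e hN'), zero_pow two_ne_zero, mul_zero]
      · rw [fc_out hxS hxe, mul_zero]
    · have h1 : d e = 0 := hd.2 e fun h => by
        rcases Finset.mem_union.1 h with h | h
        · exact heS h
        · exact hN' h
      rw [h1, zero_mul]

omit [Fintype E] in
private theorem Rc_det {S : Finset E} (hS : IsB L S) {a b x y : E} (ha : a ∈ S) (hb : b ∈ S)
    (hab : a ≠ b) {Z : Finset E} (haZ : ∀ z ∈ Z, fv L S a z = 0) (hbZ : ∀ z ∈ Z, fv L S b z = 0)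
    (hv : ∀ v ∈ L, (∀ z ∈ Z, v z = 0) → v x = 0 → v y = 0 → v a = 0) (hbx : fv L S b x ≠ 0) :
    fv L S a x * fv L S b y ≠ fv L S a y * fv L S b x := by
  intro h
  have h1 := hv (fv L S a x • fv L S b - fv L S b x • fv L S a)
    (L.sub_mem (L.smul_mem _ (fv_mem hS hb)) (L.smul_mem _ (fv_mem hS ha)))
    (fun z hz => by
      rw [Pi.sub_apply, Pi.smul_apply, Pi.smul_apply, haZ z hz, hbZ z hz, smul_zero, smul_zero,
        sub_zero])
    (by
      rw [Pi.sub_apply, Pi.smul_apply, Pi.smul_apply, smul_eq_mul, smul_eq_mul, mul_comm, sub_self])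
    (by
      rw [Pi.sub_apply, Pi.smul_apply, Pi.smul_apply, smul_eq_mul, smul_eq_mul, h, mul_comm,
        sub_self])
  rw [Pi.sub_apply, Pi.smul_apply, Pi.smul_apply, smul_eq_mul, smul_eq_mul, fv_oth hS hb ha hab,
    fv_self hS ha, mul_zero, mul_one, zero_sub, neg_eq_zero] at h1
  exact hbx h1

theorem block_of_rich {q : Itv E} (h : Rich (rk L) q) : ∃ S, IsB L S ∧
    ((∃ a ∈ S, ∃ b ∈ S, a ≠ b ∧ ∃ c, c ∉ S ∧ ∃ e, e ∉ S ∧ ∃ f, f ∉ S ∧
        fv L S a c ≠ 0 ∧ fv L S a e ≠ 0 ∧ fv L S a f ≠ 0 ∧ fv L S b c ≠ 0 ∧ fv L S b e ≠ 0 ∧ fv L S b f ≠ 0 ∧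
        fv L S a c * fv L S b e ≠ fv L S a e * fv L S b c ∧ fv L S a c * fv L S b f ≠ fv L S a f * fv L S b c ∧
        fv L S a e * fv L S b f ≠ fv L S a f * fv L S b e ∧
        ∀ T : Fm F4 E, EqD L (WW L) q T 0 → EqD L (WW L) (S \ {a, b}, S ∪ {c, e, f}) T 0) ∨
      ∃ a ∈ S, ∃ b ∈ S, ∃ c ∈ S, a ≠ b ∧ a ≠ c ∧ b ≠ c ∧ ∃ e, e ∉ S ∧ ∃ f, f ∉ S ∧
        fv L S a e ≠ 0 ∧ fv L S b e ≠ 0 ∧ fv L S c e ≠ 0 ∧ fv L S a f ≠ 0 ∧ fv L S b f ≠ 0 ∧ fv L S c f ≠ 0 ∧
        fv L S a e * fv L S b f ≠ fv L S a f * fv L S b e ∧ fv L S a e * fv L S c f ≠ fv L S a f * fv L S c e ∧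
        fv L S b e * fv L S c f ≠ fv L S b f * fv L S c e ∧
        ∀ T : Fm F4 E, EqD L (WW L) q T 0 → EqD L (WW L) (S \ {a, b, c}, S ∪ {e, f}) T 0) := by
  obtain ⟨h12, hcard, hr⟩ := h
  obtain ⟨S, hS, hA, hB⟩ := exists_chain L h12
  have e1 := rk_eq hS hA
  have e2 := rk_eq hS hB
  have e3 : (S ∩ QUB.gs q).card + (S ∩ q.1).card = (S ∩ q.2).card := by
    rw [← Finset.card_sdiff_add_card_eq_card (Finset.inter_subset_inter (Finset.Subset.refl S) h12)]
    congr 2
    ext x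
    simp only [QUB.gs, Finset.mem_inter, Finset.mem_sdiff]
    tauto
  have e4 := Finset.card_sdiff_add_card_inter (QUB.gs q) S
  rw [Finset.inter_comm] at e4
  have e5 : (QUB.gs q).card = 5 := hcard
  have hgs : ∀ x, x ∈ QUB.gs q ↔ x ∈ q.2 ∧ x ∉ q.1 := fun x => Finset.mem_sdiff
  refine ⟨S, hS, ?_⟩
  rcases hr with ⟨hr, hr'⟩ | ⟨hr, hr'⟩
  · left
    have c1 : (S ∩ QUB.gs q).card = 2 := by omega
    have c2 : (QUB.gs q \ S).card = 3 := by omega
    obtain ⟨a, b, hab, hPe⟩ := Finset.card_eq_two.1 c1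
    obtain ⟨c, e, f, hce, hcf, hef, hNe⟩ := Finset.card_eq_three.1 c2
    have hP : ∀ x, x = a ∨ x = b ↔ x ∈ S ∧ x ∈ QUB.gs q := fun x => by
      rw [← Finset.mem_inter, hPe, Finset.mem_insert, Finset.mem_singleton]
    have hN : ∀ x, x = c ∨ x = e ∨ x = f ↔ x ∈ QUB.gs q ∧ x ∉ S := fun x => by
      rw [← Finset.mem_sdiff, hNe, Finset.mem_insert, Finset.mem_insert, Finset.mem_singleton]
    obtain ⟨haS, hag⟩ := (hP a).1 (Or.inl rfl)
    obtain ⟨hbS, hbg⟩ := (hP b).1 (Or.inr rfl)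
    obtain ⟨hcg, hcS⟩ := (hN c).1 (Or.inl rfl)
    obtain ⟨heg, heS⟩ := (hN e).1 (Or.inr (Or.inl rfl))
    obtain ⟨hfg, hfS⟩ := (hN f).1 (Or.inr (Or.inr rfl))
    have hvan : ∀ i ∈ QUB.gs q, ∀ j ∈ QUB.gs q, i ≠ j → ∀ v ∈ L, (∀ z ∈ q.1, v z = 0) → v i = 0 →
        v j = 0 → ∀ x ∈ q.2, v x = 0 := by
      intro i hi j hj hij v hv h0 h1 h2
      refine van_of_rk (A := q.1 ∪ {i, j}) (B := q.2) ?_ ?_ hv ?_
      · intro z hz
        rcases Finset.mem_union.1 hz with hz | hz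
        · exact h12 hz
        · rcases Finset.mem_insert.1 hz with rfl | hz
          · exact ((hgs _).1 hi).1
          · rw [Finset.mem_singleton.1 hz]
            exact ((hgs _).1 hj).1
      · rw [hr' i hi j hj hij, hr]
      · intro z hz
        rcases Finset.mem_union.1 hz with hz | hz
        · exact h0 z hz
        · rcases Finset.mem_insert.1 hz with rfl | hz
          · exact h1
          · rw [Finset.mem_singleton.1 hz]
            exact h2
    have fa : ∀ z ∈ q.1, fv L S a z = 0 := hA a haS ((hgs a).1 hag).2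
    have fb : ∀ z ∈ q.1, fv L S b z = 0 := hA b hbS ((hgs b).1 hbg).2
    have na : ∀ x ∈ QUB.gs q, x ∉ S → fv L S a x ≠ 0 := by
      intro x hx hxS h0
      have h1 := hvan b hbg x hx (fun h => hxS (h ▸ hbS)) _ (fv_mem hS haS) fa
        (fv_oth hS haS hbS hab.symm) h0 a ((hgs a).1 hag).1
      rw [fv_self hS haS] at h1
      exact one_ne_zero h1
    have nb : ∀ x ∈ QUB.gs q, x ∉ S → fv L S b x ≠ 0 := by
      intro x hx hxS h0
      have h1 := hvan a hag x hx (fun h => hxS (h ▸ haS)) _ (fv_mem hS hbS) fb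
        (fv_oth hS hbS haS hab) h0 b ((hgs b).1 hbg).1
      rw [fv_self hS hbS] at h1
      exact one_ne_zero h1
    have hdet : ∀ x ∈ QUB.gs q, x ∉ S → ∀ y ∈ QUB.gs q, x ≠ y →
        fv L S a x * fv L S b y ≠ fv L S a y * fv L S b x := by
      intro x hx hxS y hy hxy
      exact Rc_det hS haS hbS hab fa fb
        (fun v hv h0 h1 h2 => hvan x hx y hy hxy v hv h0 h1 h2 a ((hgs a).1 hag).1) (nb x hx hxS)
    refine ⟨a, haS, b, hbS, hab, c, hcS, e, heS, f, hfS, na c hcg hcS, na e heg heS, na f hfg hfS,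
      nb c hcg hcS, nb e heg heS, nb f hfg hfS, hdet c hcg hcS e heg hce, hdet c hcg hcS f hfg hcf,
      hdet e heg heS f hfg hef, fun T hT => Rc_eqD hS hA hB ?_ ?_ T hT⟩
    · intro x hx
      rw [Finset.mem_insert, Finset.mem_singleton] at hx
      exact ((hgs x).1 ((hP x).1 hx).2).2
    · intro x hx
      rw [Finset.mem_insert, Finset.mem_insert, Finset.mem_singleton] at hx
      exact ((hgs x).1 ((hN x).1 hx).1).1
  · right
    have c1 : (S ∩ QUB.gs q).card = 3 := by omega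
    have c2 : (QUB.gs q \ S).card = 2 := by omega
    obtain ⟨a, b, c, hab, hac, hbc, hPe⟩ := Finset.card_eq_three.1 c1
    obtain ⟨e, f, hef, hNe⟩ := Finset.card_eq_two.1 c2
    have hP : ∀ x, x = a ∨ x = b ∨ x = c ↔ x ∈ S ∧ x ∈ QUB.gs q := fun x => by
      rw [← Finset.mem_inter, hPe, Finset.mem_insert, Finset.mem_insert, Finset.mem_singleton]
    have hN : ∀ x, x = e ∨ x = f ↔ x ∈ QUB.gs q ∧ x ∉ S := fun x => by
      rw [← Finset.mem_sdiff, hNe, Finset.mem_insert, Finset.mem_singleton]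
    obtain ⟨haS, hag⟩ := (hP a).1 (Or.inl rfl)
    obtain ⟨hbS, hbg⟩ := (hP b).1 (Or.inr (Or.inl rfl))
    obtain ⟨hcS, hcg⟩ := (hP c).1 (Or.inr (Or.inr rfl))
    obtain ⟨heg, heS⟩ := (hN e).1 (Or.inl rfl)
    obtain ⟨hfg, hfS⟩ := (hN f).1 (Or.inr rfl)
    have hvan : ∀ i ∈ QUB.gs q, ∀ j ∈ QUB.gs q, ∀ k ∈ QUB.gs q, i ≠ j → i ≠ k → j ≠ k → ∀ v ∈ L,
        (∀ z ∈ q.1, v z = 0) → v i = 0 → v j = 0 → v k = 0 → ∀ x ∈ q.2, v x = 0 := by
      intro i hi j hj k hk hij hik hjk v hv h0 h1 h2 h3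
      refine van_of_rk (A := q.1 ∪ {i, j, k}) (B := q.2) ?_ ?_ hv ?_
      · intro z hz
        rcases Finset.mem_union.1 hz with hz | hz
        · exact h12 hz
        · rcases Finset.mem_insert.1 hz with rfl | hz
          · exact ((hgs _).1 hi).1
          · rcases Finset.mem_insert.1 hz with rfl | hz
            · exact ((hgs _).1 hj).1
            · rw [Finset.mem_singleton.1 hz]
              exact ((hgs _).1 hk).1
      · rw [hr' i hi j hj k hk hij hik hjk, hr]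
      · intro z hz
        rcases Finset.mem_union.1 hz with hz | hz
        · exact h0 z hz
        · rcases Finset.mem_insert.1 hz with rfl | hz
          · exact h1
          · rcases Finset.mem_insert.1 hz with rfl | hz
            · exact h2
            · rw [Finset.mem_singleton.1 hz]
              exact h3
    have fz : ∀ s ∈ S, s ∈ QUB.gs q → ∀ z ∈ q.1, fv L S s z = 0 :=
      fun s hs hsg => hA s hs ((hgs s).1 hsg).2
    have nz : ∀ s ∈ S, s ∈ QUB.gs q → ∀ i ∈ S, i ∈ QUB.gs q → ∀ j ∈ S, j ∈ QUB.gs q → i ≠ s →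
        j ≠ s → i ≠ j → ∀ x ∈ QUB.gs q, x ∉ S → fv L S s x ≠ 0 := by
      intro s hs hsg i hi hig j hj hjg his hjs hij x hx hxS h0
      have h1 := hvan i hig j hjg x hx hij (fun h => hxS (h ▸ hi)) (fun h => hxS (h ▸ hj)) _
        (fv_mem hS hs) (fz s hs hsg) (fv_oth hS hs hi his) (fv_oth hS hs hj hjs) h0 s
        ((hgs s).1 hsg).1
      rw [fv_self hS hs] at h1
      exact one_ne_zero h1
    have na := nz a haS hag b hbS hbg c hcS hcg hab.symm hac.symm hbc
    have nb := nz b hbS hbg a haS hag c hcS hcg hab hbc.symm hac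
    have nc := nz c hcS hcg a haS hag b hbS hbg hac hbc hab
    have hdet : ∀ s ∈ S, s ∈ QUB.gs q → ∀ t ∈ S, t ∈ QUB.gs q → ∀ k ∈ S, k ∈ QUB.gs q → s ≠ t →
        k ≠ s → k ≠ t → fv L S t e ≠ 0 → fv L S s e * fv L S t f ≠ fv L S s f * fv L S t e := by
      intro s hs hsg t ht htg k hk hkg hst hks hkt hte
      refine Rc_det hS hs ht hst (Z := insert k q.1) ?_ ?_ ?_ hte
      · intro z hz
        rcases Finset.mem_insert.1 hz with rfl | hz
        · exact fv_oth hS hs hk hks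
        · exact fz s hs hsg z hz
      · intro z hz
        rcases Finset.mem_insert.1 hz with rfl | hz
        · exact fv_oth hS ht hk hkt
        · exact fz t ht htg z hz
      · intro v hv h0 h1 h2
        exact hvan k hkg e heg f hfg (fun h => heS (h ▸ hk)) (fun h => hfS (h ▸ hk)) hef v hv
          (fun z hz => h0 z (Finset.mem_insert_of_mem hz)) (h0 k (Finset.mem_insert_self _ _)) h1 h2
          s ((hgs s).1 hsg).1
    refine ⟨a, haS, b, hbS, c, hcS, hab, hac, hbc, e, heS, f, hfS, na e heg heS, nb e heg heS,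
      nc e heg heS, na f hfg hfS, nb f hfg hfS, nc f hfg hfS,
      hdet a haS hag b hbS hbg c hcS hcg hab hac.symm hbc.symm (nb e heg heS),
      hdet a haS hag c hcS hcg b hbS hbg hac hab.symm hbc (nc e heg heS), ?_,
      fun T hT => Rc_eqD hS hA hB ?_ ?_ T hT⟩
    · exact hdet b hbS hbg c hcS hcg a haS hag hbc hab hac (nc e heg heS)
    · intro x hx
      rw [Finset.mem_insert, Finset.mem_insert, Finset.mem_singleton] at hx
      exact ((hgs x).1 ((hP x).1 hx).2).2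
    · intro x hx
      rw [Finset.mem_insert, Finset.mem_singleton] at hx
      exact ((hgs x).1 ((hN x).1 hx).1).1

end Pool.Agent.QUE
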