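import Pool.Agent.QUE.Fc
import Pool.Agent.QUL.LDefs

/-!
# QUE/Rb: blocks are rich boxes

`S` a basis, `p = S \ {a, b}`, `G = S ∪ {c, e, f}`: `gs` = `{a, b, c, e, f}` (`c, e, f` are different because of `h7`-`h9`).  `rk L G = S.card` (`rk_le` for `S ⊆ G`, and `finrank_eq`: `rk L G ≤ finrank`), `rk L (S \ {a, b}) = S.card - 2` (`rk_sub_basis`).
For two elements `i, j` of `gs` the set `(S \ {a, b}) ∪ {i, j}` is a basis, so has rank `S.card`: `{a, b}`: `S`; `{a, x}`: `pv S b x`; `{b, x}`: `pv S a x`; `{x, y}`: `pv (pv S a x) b y`, where `fv L (pv S a x) b y = sc L S a b x y`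
(`piv_old_apply`) and this is `fv b y - fv b x * (fv a x)⁻¹ * fv a y`, nonzero by hypothesis (`Ring.inverse` = `⁻¹` in a field: `Ring.inverse_eq_inv'`).
`rich_row`: the same with triples of `{a, b, c, e, f}`: `{a, b, c}`: `S`; two of `a, b, c` and one of `e, f`: one pivot; one of `a, b, c` and `e, f`: two pivots.
-/

set_option autoImplicit false

noncomputable section

open scoped Classical

namespace Pool.Agent.QUE

open Pool.Agent.FRM Pool.Agent.QUS
open Pool.Agent.QU (Rich)

variable {E : Type} [Fintype E] {L : Submodule F4 (E → F4)} {S : Finset E} {a b c e f : E}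

private theorem rb_x (hS : IsB L S) (ha : a ∈ S) (hb : b ∈ S) (hab : a ≠ b) {x : E} (hx : x ∉ S)
    (h : fv L S b x ≠ 0) : IsB L ((S \ {a, b}) ∪ {a, x}) := by
  have h1 : (S \ {a, b}) ∪ {a, x} = pv S b x := by
    ext z
    rw [mem_pv]
    simp only [Finset.mem_union, Finset.mem_sdiff, Finset.mem_insert, Finset.mem_singleton]
    by_cases hz : z = a
    · have hzS : z ∈ S := hz ▸ ha
      have hzb : z ≠ b := hz ▸ hab
      tauto
    · tauto
  rw [h1]
  exact piv hS hb hx (isUnit_iff_ne_zero.2 h)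

private theorem rb_xy (hS : IsB L S) (ha : a ∈ S) (hb : b ∈ S) (hab : a ≠ b) {x y : E} (hx : x ∉ S) (hy : y ∉ S)
    (h1 : fv L S a x ≠ 0) (h : fv L S a x * fv L S b y ≠ fv L S a y * fv L S b x) :
    IsB L ((S \ {a, b}) ∪ {x, y}) := by
  have hxy : x ≠ y := by
    rintro rfl
    exact h rfl
  have hax : a ≠ x := fun h => hx (h ▸ ha)
  have hay : a ≠ y := fun h => hy (h ▸ ha)
  have hbx : b ≠ x := fun h => hx (h ▸ hb)
  have hby : b ≠ y := fun h => hy (h ▸ hb)
  have h2 : (S \ {a, b}) ∪ {x, y} = pv (pv S a x) b y := by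
    ext z
    rw [mem_pv, mem_pv]
    simp only [Finset.mem_union, Finset.mem_sdiff, Finset.mem_insert, Finset.mem_singleton]
    by_cases hz : z = x
    · have hzb : z ≠ b := fun h' => hbx (h'.symm.trans hz)
      tauto
    · tauto
  have hu := isUnit_iff_ne_zero.2 h1
  have hS1 := piv hS ha hx hu
  have hb1 : b ∈ pv S a x := mem_pv.2 (Or.inr ⟨hab.symm, hb⟩)
  have hy1 : y ∉ pv S a x := by
    rw [mem_pv]
    rintro (h3 | h3)
    · exact hxy h3.symm
    · exact hy h3.2
  rw [h2]
  refine piv hS1 hb1 hy1 (isUnit_iff_ne_zero.2 ?_)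
  rw [piv_old_apply hS ha hx hu hb hab.symm, sc, Ring.inverse_eq_inv']
  intro h3
  apply h
  have h4 := sub_eq_zero.1 h3
  rw [h4]
  field_simp

private theorem rb_top (hS : IsB L S) {G : Finset E} (h : S ⊆ G) : rk L G = S.card := by
  rw [rk_eq hS fun x hx hxG => absurd (h hx) hxG, Finset.inter_eq_left.2 h]

private theorem rb_rk2 (hS : IsB L S) {i j : E} (hij : i ≠ j) (hi : i ∉ S \ {a, b}) (hj : j ∉ S \ {a, b})
    (hB : IsB L ((S \ {a, b}) ∪ {i, j})) : rk L ((S \ {a, b}) ∪ {i, j}) = rk L (S \ {a, b}) + 2 := by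
  rw [rk_sub_basis hB (Finset.Subset.refl _), rk_sub_basis hS Finset.sdiff_subset]
  have h1 : ((S \ {a, b}) ∪ {i, j}).card = (S \ {a, b}).card + 2 := by
    rw [Finset.card_union_of_disjoint, Finset.card_pair hij]
    rw [Finset.disjoint_left]
    intro z hz hz'
    rw [Finset.mem_insert, Finset.mem_singleton] at hz'
    rcases hz' with rfl | rfl
    · exact hi hz
    · exact hj hz
  rw [h1]
  push_cast
  ring

private theorem rb_rk3 (hS : IsB L S) {i j k : E} (hij : i ≠ j) (hik : i ≠ k) (hjk : j ≠ k)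
    (hi : i ∉ S \ {a, b, c}) (hj : j ∉ S \ {a, b, c}) (hk : k ∉ S \ {a, b, c})
    (hB : IsB L ((S \ {a, b, c}) ∪ {i, j, k})) :
    rk L ((S \ {a, b, c}) ∪ {i, j, k}) = rk L (S \ {a, b, c}) + 3 := by
  rw [rk_sub_basis hB (Finset.Subset.refl _), rk_sub_basis hS Finset.sdiff_subset]
  have h1 : ((S \ {a, b, c}) ∪ {i, j, k}).card = (S \ {a, b, c}).card + 3 := by
    rw [Finset.card_union_of_disjoint, Finset.card_eq_three.2 ⟨i, j, k, hij, hik, hjk, rfl⟩]
    rw [Finset.disjoint_left]
    intro z hz hz'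
    simp only [Finset.mem_insert, Finset.mem_singleton] at hz'
    rcases hz' with rfl | rfl | rfl
    · exact hi hz
    · exact hj hz
    · exact hk hz
  rw [h1]
  push_cast
  ring

private theorem rb_card5 {a b c e f : E} (h1 : a ≠ b) (h2 : a ≠ c) (h3 : a ≠ e) (h4 : a ≠ f) (h5 : b ≠ c)
    (h6 : b ≠ e) (h7 : b ≠ f) (h8 : c ≠ e) (h9 : c ≠ f) (h10 : e ≠ f) : ({a, b, c, e, f} : Finset E).card = 5 := by
  rw [Finset.card_insert_of_notMem (by simp [h1, h2, h3, h4]), Finset.card_insert_of_notMem (by simp [h5, h6, h7]),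
    Finset.card_insert_of_notMem (by simp [h8, h9]), Finset.card_pair h10]

private theorem rb_s12 {T : Finset E} {i j k : E} (h : IsB L (T ∪ {i, j, k})) : IsB L (T ∪ {j, i, k}) := by
  rwa [Finset.insert_comm]

private theorem rb_s23 {T : Finset E} {i j k : E} (h : IsB L (T ∪ {i, j, k})) : IsB L (T ∪ {i, k, j}) := by
  rwa [Finset.pair_comm]

theorem rich_col (hS : IsB L S) (ha : a ∈ S) (hb : b ∈ S) (hab : a ≠ b) (hc : c ∉ S) (he : e ∉ S) (hf : f ∉ S)
    (h1 : fv L S a c ≠ 0) (h2 : fv L S a e ≠ 0) (h3 : fv L S a f ≠ 0) (h4 : fv L S b c ≠ 0) (h5 : fv L S b e ≠ 0)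
    (h6 : fv L S b f ≠ 0) (h7 : fv L S a c * fv L S b e ≠ fv L S a e * fv L S b c)
    (h8 : fv L S a c * fv L S b f ≠ fv L S a f * fv L S b c) (h9 : fv L S a e * fv L S b f ≠ fv L S a f * fv L S b e) :
    Rich (rk L) (S \ {a, b}, S ∪ {c, e, f}) := by
  have hce : c ≠ e := by
    rintro rfl
    exact h7 rfl
  have hcf : c ≠ f := by
    rintro rfl
    exact h8 rfl
  have hef : e ≠ f := by
    rintro rfl
    exact h9 rfl
  have hac : a ≠ c := fun h => hc (h ▸ ha)
  have hae : a ≠ e := fun h => he (h ▸ ha)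
  have haf : a ≠ f := fun h => hf (h ▸ ha)
  have hbc : b ≠ c := fun h => hc (h ▸ hb)
  have hbe : b ≠ e := fun h => he (h ▸ hb)
  have hbf : b ≠ f := fun h => hf (h ▸ hb)
  have hgs : QUB.gs (S \ {a, b}, S ∪ {c, e, f}) = {a, b, c, e, f} := by
    ext z
    simp only [QUB.gs, Finset.mem_union, Finset.mem_sdiff, Finset.mem_insert, Finset.mem_singleton]
    by_cases hzS : z ∈ S
    · have e1 : z ≠ c := fun h => hc (h ▸ hzS)
      have e2 : z ≠ e := fun h => he (h ▸ hzS)
      have e3 : z ≠ f := fun h => hf (h ▸ hzS)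
      tauto
    · have e1 : z ≠ a := fun h => hzS (h ▸ ha)
      have e2 : z ≠ b := fun h => hzS (h ▸ hb)
      tauto
  have hab' : ({a, b} : Finset E) ⊆ S := by
    intro z hz
    rw [Finset.mem_insert, Finset.mem_singleton] at hz
    rcases hz with rfl | rfl
    · exact ha
    · exact hb
  have hcard : (S \ {a, b}).card + 2 = S.card := by
    have h := Finset.card_sdiff_add_card_eq_card hab'
    rwa [Finset.card_pair hab] at h
  have BAB : IsB L ((S \ {a, b}) ∪ {a, b}) := by
    rw [Finset.sdiff_union_of_subset hab']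
    exact hS
  have BAC := rb_x hS ha hb hab hc h4
  have BAE := rb_x hS ha hb hab he h5
  have BAF := rb_x hS ha hb hab hf h6
  have hba : ({b, a} : Finset E) = {a, b} := Finset.pair_comm b a
  have BBC := rb_x hS hb ha hab.symm hc h1
  have BBE := rb_x hS hb ha hab.symm he h2
  have BBF := rb_x hS hb ha hab.symm hf h3
  rw [hba] at BBC BBE BBF
  have BCE := rb_xy hS ha hb hab hc he h1 h7
  have BCF := rb_xy hS ha hb hab hc hf h1 h8
  have BEF := rb_xy hS ha hb hab he hf h2 h9
  have hsw : ∀ {i j : E}, IsB L ((S \ {a, b}) ∪ {i, j}) → IsB L ((S \ {a, b}) ∪ {j, i}) := by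
    intro i j h
    rwa [Finset.pair_comm i j] at h
  refine ⟨fun z hz => Finset.mem_union_left _ (Finset.mem_sdiff.1 hz).1, ?_, Or.inl ⟨?_, ?_⟩⟩
  · rw [hgs]
    exact rb_card5 hab hac hae haf hbc hbe hbf hce hcf hef
  · show rk L (S ∪ {c, e, f}) = rk L (S \ {a, b}) + 2
    rw [rb_top hS Finset.subset_union_left, rk_sub_basis hS Finset.sdiff_subset, ← hcard]
    push_cast
    ring
  · intro i hi j hj hij
    have hi' : i ∉ S \ {a, b} := (Finset.mem_sdiff.1 hi).2
    have hj' : j ∉ S \ {a, b} := (Finset.mem_sdiff.1 hj).2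
    refine rb_rk2 hS hij hi' hj' ?_
    rw [hgs] at hi hj
    simp only [Finset.mem_insert, Finset.mem_singleton] at hi hj
    clear hi' hj'
    rcases hi with hi | hi | hi | hi | hi <;> rcases hj with hj | hj | hj | hj | hj
    · exact absurd (hi.trans hj.symm) hij
    · rw [hi, hj]; exact BAB
    · rw [hi, hj]; exact BAC
    · rw [hi, hj]; exact BAE
    · rw [hi, hj]; exact BAF
    · rw [hi, hj]; exact hsw BAB
    · exact absurd (hi.trans hj.symm) hij
    · rw [hi, hj]; exact BBC
    · rw [hi, hj]; exact BBE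
    · rw [hi, hj]; exact BBF
    · rw [hi, hj]; exact hsw BAC
    · rw [hi, hj]; exact hsw BBC
    · exact absurd (hi.trans hj.symm) hij
    · rw [hi, hj]; exact BCE
    · rw [hi, hj]; exact BCF
    · rw [hi, hj]; exact hsw BAE
    · rw [hi, hj]; exact hsw BBE
    · rw [hi, hj]; exact hsw BCE
    · exact absurd (hi.trans hj.symm) hij
    · rw [hi, hj]; exact BEF
    · rw [hi, hj]; exact hsw BAF
    · rw [hi, hj]; exact hsw BBF
    · rw [hi, hj]; exact hsw BCF
    · rw [hi, hj]; exact hsw BEF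
    · exact absurd (hi.trans hj.symm) hij

theorem rich_row (hS : IsB L S) (ha : a ∈ S) (hb : b ∈ S) (hc : c ∈ S) (hab : a ≠ b) (hac : a ≠ c) (hbc : b ≠ c)
    (he : e ∉ S) (hf : f ∉ S) (h1 : fv L S a e ≠ 0) (h2 : fv L S b e ≠ 0) (h3 : fv L S c e ≠ 0) (h4 : fv L S a f ≠ 0)
    (h5 : fv L S b f ≠ 0) (h6 : fv L S c f ≠ 0) (h7 : fv L S a e * fv L S b f ≠ fv L S a f * fv L S b e)
    (h8 : fv L S a e * fv L S c f ≠ fv L S a f * fv L S c e) (h9 : fv L S b e * fv L S c f ≠ fv L S b f * fv L S c e) :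
    Rich (rk L) (S \ {a, b, c}, S ∪ {e, f}) := by
  have hef : e ≠ f := by
    rintro rfl
    exact h7 rfl
  have hae : a ≠ e := fun h => he (h ▸ ha)
  have haf : a ≠ f := fun h => hf (h ▸ ha)
  have hbe : b ≠ e := fun h => he (h ▸ hb)
  have hbf : b ≠ f := fun h => hf (h ▸ hb)
  have hce : c ≠ e := fun h => he (h ▸ hc)
  have hcf : c ≠ f := fun h => hf (h ▸ hc)
  have hgs : QUB.gs (S \ {a, b, c}, S ∪ {e, f}) = {a, b, c, e, f} := by
    ext z
    simp only [QUB.gs, Finset.mem_union, Finset.mem_sdiff, Finset.mem_insert, Finset.mem_singleton]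
    by_cases hzS : z ∈ S
    · have e2 : z ≠ e := fun h => he (h ▸ hzS)
      have e3 : z ≠ f := fun h => hf (h ▸ hzS)
      tauto
    · have e1 : z ≠ a := fun h => hzS (h ▸ ha)
      have e2 : z ≠ b := fun h => hzS (h ▸ hb)
      have e3 : z ≠ c := fun h => hzS (h ▸ hc)
      tauto
  have hsub : ({a, b, c} : Finset E) ⊆ S := by
    intro z hz
    simp only [Finset.mem_insert, Finset.mem_singleton] at hz
    rcases hz with rfl | rfl | rfl
    · exact ha
    · exact hb
    · exact hc
  have hcard : (S \ {a, b, c}).card + 3 = S.card := by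
    have h := Finset.card_sdiff_add_card_eq_card hsub
    rwa [Finset.card_eq_three.2 ⟨a, b, c, hab, hac, hbc, rfl⟩] at h
  have hone : ∀ {x y z w : E}, x ∈ S → y ∈ S → z ∈ S → x ≠ y → x ≠ z → y ≠ z → ({x, y, z} : Finset E) = {a, b, c} →
      w ∉ S → fv L S z w ≠ 0 → IsB L ((S \ {a, b, c}) ∪ {x, y, w}) := by
    intro x y z w hx hy hz hxy hxz hyz hset hw h0
    have h := rb_x hS hx hz hxz hw h0
    have e1 : (S \ {a, b, c}) ∪ {x, y, w} = (S \ {x, z}) ∪ {x, w} := by
      rw [← hset]
      ext t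
      simp only [Finset.mem_union, Finset.mem_sdiff, Finset.mem_insert, Finset.mem_singleton]
      by_cases ht : t = y
      · have e4 : t ∈ S := ht ▸ hy
        have e5 : t ≠ x := fun h' => hxy (h'.symm.trans ht)
        have e6 : t ≠ z := fun h' => hyz (ht.symm.trans h')
        tauto
      · tauto
    rw [e1]
    exact h
  have htwo : ∀ {x y z : E}, x ∈ S → y ∈ S → z ∈ S → x ≠ y → x ≠ z → y ≠ z → ({x, y, z} : Finset E) = {a, b, c} →
      fv L S y e ≠ 0 → fv L S y e * fv L S z f ≠ fv L S y f * fv L S z e →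
      IsB L ((S \ {a, b, c}) ∪ {x, e, f}) := by
    intro x y z hx hy hz hxy hxz hyz hset h0 h00
    have h := rb_xy hS hy hz hyz he hf h0 h00
    have e1 : (S \ {a, b, c}) ∪ {x, e, f} = (S \ {y, z}) ∪ {e, f} := by
      rw [← hset]
      ext t
      simp only [Finset.mem_union, Finset.mem_sdiff, Finset.mem_insert, Finset.mem_singleton]
      by_cases ht : t = x
      · have e4 : t ∈ S := ht ▸ hx
        have e5 : t ≠ y := fun h' => hxy (ht.symm.trans h')
        have e6 : t ≠ z := fun h' => hxz (ht.symm.trans h')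
        tauto
      · tauto
    rw [e1]
    exact h
  have sACB : ({a, c, b} : Finset E) = {a, b, c} := by rw [Finset.pair_comm]
  have sBCA : ({b, c, a} : Finset E) = {a, b, c} := by rw [Finset.pair_comm c a, Finset.insert_comm]
  have sBAC : ({b, a, c} : Finset E) = {a, b, c} := Finset.insert_comm _ _ _
  have sCAB : ({c, a, b} : Finset E) = {a, b, c} := by rw [Finset.insert_comm, Finset.pair_comm c b]
  have BABC : IsB L ((S \ {a, b, c}) ∪ {a, b, c}) := by
    rw [Finset.sdiff_union_of_subset hsub]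
    exact hS
  have BABE := hone ha hb hc hab hac hbc rfl he h3
  have BABF := hone ha hb hc hab hac hbc rfl hf h6
  have BACE := hone ha hc hb hac hab hbc.symm sACB he h2
  have BACF := hone ha hc hb hac hab hbc.symm sACB hf h5
  have BBCE := hone hb hc ha hbc hab.symm hac.symm sBCA he h1
  have BBCF := hone hb hc ha hbc hab.symm hac.symm sBCA hf h4
  have BAEF := htwo ha hb hc hab hac hbc rfl h2 h9
  have BBEF := htwo hb ha hc hab.symm hbc hac sBAC h1 h8
  have BCEF := htwo hc ha hb hac.symm hbc.symm hab sCAB h1 h7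
  refine ⟨fun z hz => Finset.mem_union_left _ (Finset.mem_sdiff.1 hz).1, ?_, Or.inr ⟨?_, ?_⟩⟩
  · rw [hgs]
    exact rb_card5 hab hac hae haf hbc hbe hbf hce hcf hef
  · show rk L (S ∪ {e, f}) = rk L (S \ {a, b, c}) + 3
    rw [rb_top hS Finset.subset_union_left, rk_sub_basis hS Finset.sdiff_subset, ← hcard]
    push_cast
    ring
  · intro i hi j hj k hk hij hik hjk
    have hi' : i ∉ S \ {a, b, c} := (Finset.mem_sdiff.1 hi).2
    have hj' : j ∉ S \ {a, b, c} := (Finset.mem_sdiff.1 hj).2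
    have hk' : k ∉ S \ {a, b, c} := (Finset.mem_sdiff.1 hk).2
    refine rb_rk3 hS hij hik hjk hi' hj' hk' ?_
    rw [hgs] at hi hj hk
    simp only [Finset.mem_insert, Finset.mem_singleton] at hi hj hk
    clear hi' hj' hk'
    rcases hi with hi | hi | hi | hi | hi <;> rcases hj with hj | hj | hj | hj | hj
    · exact absurd (hi.trans hj.symm) hij
    · rcases hk with hk | hk | hk | hk | hk
      · exact absurd (hi.trans hk.symm) hik
      · exact absurd (hj.trans hk.symm) hjk
      · rw [hi, hj, hk]; exact BABC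
      · rw [hi, hj, hk]; exact BABE
      · rw [hi, hj, hk]; exact BABF
    · rcases hk with hk | hk | hk | hk | hk
      · exact absurd (hi.trans hk.symm) hik
      · rw [hi, hj, hk]; exact rb_s23 BABC
      · exact absurd (hj.trans hk.symm) hjk
      · rw [hi, hj, hk]; exact BACE
      · rw [hi, hj, hk]; exact BACF
    · rcases hk with hk | hk | hk | hk | hk
      · exact absurd (hi.trans hk.symm) hik
      · rw [hi, hj, hk]; exact rb_s23 BABE
      · rw [hi, hj, hk]; exact rb_s23 BACE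
      · exact absurd (hj.trans hk.symm) hjk
      · rw [hi, hj, hk]; exact BAEF
    · rcases hk with hk | hk | hk | hk | hk
      · exact absurd (hi.trans hk.symm) hik
      · rw [hi, hj, hk]; exact rb_s23 BABF
      · rw [hi, hj, hk]; exact rb_s23 BACF
      · rw [hi, hj, hk]; exact rb_s23 BAEF
      · exact absurd (hj.trans hk.symm) hjk
    · rcases hk with hk | hk | hk | hk | hk
      · exact absurd (hj.trans hk.symm) hjk
      · exact absurd (hi.trans hk.symm) hik
      · rw [hi, hj, hk]; exact rb_s12 BABC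
      · rw [hi, hj, hk]; exact rb_s12 BABE
      · rw [hi, hj, hk]; exact rb_s12 BABF
    · exact absurd (hi.trans hj.symm) hij
    · rcases hk with hk | hk | hk | hk | hk
      · rw [hi, hj, hk]; exact rb_s23 (rb_s12 BABC)
      · exact absurd (hi.trans hk.symm) hik
      · exact absurd (hj.trans hk.symm) hjk
      · rw [hi, hj, hk]; exact BBCE
      · rw [hi, hj, hk]; exact BBCF
    · rcases hk with hk | hk | hk | hk | hk
      · rw [hi, hj, hk]; exact rb_s23 (rb_s12 BABE)
      · exact absurd (hi.trans hk.symm) hik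
      · rw [hi, hj, hk]; exact rb_s23 BBCE
      · exact absurd (hj.trans hk.symm) hjk
      · rw [hi, hj, hk]; exact BBEF
    · rcases hk with hk | hk | hk | hk | hk
      · rw [hi, hj, hk]; exact rb_s23 (rb_s12 BABF)
      · exact absurd (hi.trans hk.symm) hik
      · rw [hi, hj, hk]; exact rb_s23 BBCF
      · rw [hi, hj, hk]; exact rb_s23 BBEF
      · exact absurd (hj.trans hk.symm) hjk
    · rcases hk with hk | hk | hk | hk | hk
      · exact absurd (hj.trans hk.symm) hjk
      · rw [hi, hj, hk]; exact rb_s12 (rb_s23 BABC)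
      · exact absurd (hi.trans hk.symm) hik
      · rw [hi, hj, hk]; exact rb_s12 BACE
      · rw [hi, hj, hk]; exact rb_s12 BACF
    · rcases hk with hk | hk | hk | hk | hk
      · rw [hi, hj, hk]; exact rb_s12 (rb_s23 (rb_s12 BABC))
      · exact absurd (hj.trans hk.symm) hjk
      · exact absurd (hi.trans hk.symm) hik
      · rw [hi, hj, hk]; exact rb_s12 BBCE
      · rw [hi, hj, hk]; exact rb_s12 BBCF
    · exact absurd (hi.trans hj.symm) hij
    · rcases hk with hk | hk | hk | hk | hk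
      · rw [hi, hj, hk]; exact rb_s23 (rb_s12 BACE)
      · rw [hi, hj, hk]; exact rb_s23 (rb_s12 BBCE)
      · exact absurd (hi.trans hk.symm) hik
      · exact absurd (hj.trans hk.symm) hjk
      · rw [hi, hj, hk]; exact BCEF
    · rcases hk with hk | hk | hk | hk | hk
      · rw [hi, hj, hk]; exact rb_s23 (rb_s12 BACF)
      · rw [hi, hj, hk]; exact rb_s23 (rb_s12 BBCF)
      · exact absurd (hi.trans hk.symm) hik
      · rw [hi, hj, hk]; exact rb_s23 BCEF
      · exact absurd (hj.trans hk.symm) hjk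
    · rcases hk with hk | hk | hk | hk | hk
      · exact absurd (hj.trans hk.symm) hjk
      · rw [hi, hj, hk]; exact rb_s12 (rb_s23 BABE)
      · rw [hi, hj, hk]; exact rb_s12 (rb_s23 BACE)
      · exact absurd (hi.trans hk.symm) hik
      · rw [hi, hj, hk]; exact rb_s12 BAEF
    · rcases hk with hk | hk | hk | hk | hk
      · rw [hi, hj, hk]; exact rb_s12 (rb_s23 (rb_s12 BABE))
      · exact absurd (hj.trans hk.symm) hjk
      · rw [hi, hj, hk]; exact rb_s12 (rb_s23 BBCE)
      · exact absurd (hi.trans hk.symm) hik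
      · rw [hi, hj, hk]; exact rb_s12 BBEF
    · rcases hk with hk | hk | hk | hk | hk
      · rw [hi, hj, hk]; exact rb_s12 (rb_s23 (rb_s12 BACE))
      · rw [hi, hj, hk]; exact rb_s12 (rb_s23 (rb_s12 BBCE))
      · exact absurd (hj.trans hk.symm) hjk
      · exact absurd (hi.trans hk.symm) hik
      · rw [hi, hj, hk]; exact rb_s12 BCEF
    · exact absurd (hi.trans hj.symm) hij
    · rcases hk with hk | hk | hk | hk | hk
      · rw [hi, hj, hk]; exact rb_s23 (rb_s12 BAEF)
      · rw [hi, hj, hk]; exact rb_s23 (rb_s12 BBEF)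
      · rw [hi, hj, hk]; exact rb_s23 (rb_s12 BCEF)
      · exact absurd (hi.trans hk.symm) hik
      · exact absurd (hj.trans hk.symm) hjk
    · rcases hk with hk | hk | hk | hk | hk
      · exact absurd (hj.trans hk.symm) hjk
      · rw [hi, hj, hk]; exact rb_s12 (rb_s23 BABF)
      · rw [hi, hj, hk]; exact rb_s12 (rb_s23 BACF)
      · rw [hi, hj, hk]; exact rb_s12 (rb_s23 BAEF)
      · exact absurd (hi.trans hk.symm) hik
    · rcases hk with hk | hk | hk | hk | hk
      · rw [hi, hj, hk]; exact rb_s12 (rb_s23 (rb_s12 BABF))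
      · exact absurd (hj.trans hk.symm) hjk
      · rw [hi, hj, hk]; exact rb_s12 (rb_s23 BBCF)
      · rw [hi, hj, hk]; exact rb_s12 (rb_s23 BBEF)
      · exact absurd (hi.trans hk.symm) hik
    · rcases hk with hk | hk | hk | hk | hk
      · rw [hi, hj, hk]; exact rb_s12 (rb_s23 (rb_s12 BACF))
      · rw [hi, hj, hk]; exact rb_s12 (rb_s23 (rb_s12 BBCF))
      · exact absurd (hj.trans hk.symm) hjk
      · rw [hi, hj, hk]; exact rb_s12 (rb_s23 BCEF)
      · exact absurd (hi.trans hk.symm) hik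
    · rcases hk with hk | hk | hk | hk | hk
      · rw [hi, hj, hk]; exact rb_s12 (rb_s23 (rb_s12 BAEF))
      · rw [hi, hj, hk]; exact rb_s12 (rb_s23 (rb_s12 BBEF))
      · rw [hi, hj, hk]; exact rb_s12 (rb_s23 (rb_s12 BCEF))
      · exact absurd (hj.trans hk.symm) hjk
      · exact absurd (hi.trans hk.symm) hik
    · exact absurd (hi.trans hj.symm) hij

end Pool.Agent.QUE
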