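import Pool.Agent.QUE.Dc

/-!
# QUE/Bd: bordering

A subdeterminant with the rows `f k ∈ R` and the columns `g l ∉ R` of the standard matrix of the basis `R` is a maximal minor:
the elements `q ∈ R` which are no rows are added one by one as a row and a column, the column has one nonzero entry `1`.
-/

set_option autoImplicit false

noncomputable section

open scoped Classical

namespace Pool.Agent.QUE

open Pool.Agent.FRM Pool.Agent.QUS

variable {E : Type}

private theorem Bd_img {r : ℕ} (q : E) (σ : Fin r → E) :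
    Finset.univ.image (Fin.cons q σ : Fin (r + 1) → E) = insert q (Finset.univ.image σ) := by
  ext x
  simp only [Finset.mem_image, Finset.mem_univ, true_and, Finset.mem_insert]
  constructor
  · rintro ⟨k, hk⟩
    refine Fin.cases ?_ (fun k hk => ?_) k hk
    · intro h
      rw [Fin.cons_zero] at h
      exact Or.inl h.symm
    · rw [Fin.cons_succ] at hk
      exact Or.inr ⟨k, hk⟩
  · rintro (h | ⟨k, hk⟩)
    · exact ⟨0, by rw [Fin.cons_zero]; exact h.symm⟩
    · exact ⟨k.succ, by rw [Fin.cons_succ]; exact hk⟩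

private theorem Bd_step {Λ : Submodule Hz (E → Hz)} {R : Finset E} (hR : IsB Λ R) {r : ℕ} {σ τ : Fin r → E}
    (hσ : ∀ k, σ k ∈ R) {q : E} (hq : q ∈ R) (hqσ : ∀ k, σ k ≠ q) :
    dC (mm Λ R (Fin.cons q σ : Fin (r + 1) → E) (Fin.cons q τ : Fin (r + 1) → E)) = dC (mm Λ R σ τ) := by
  have h0 : ∀ i' : Fin (r + 1), i' ≠ 0 →
      mm Λ R (Fin.cons q σ : Fin (r + 1) → E) (Fin.cons q τ : Fin (r + 1) → E) i' 0 = 0 := by
    intro i'
    refine Fin.cases (fun h => absurd rfl h) (fun k _ => ?_) i'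
    show emb (fv Λ R ((Fin.cons q σ : Fin (r + 1) → E) k.succ) ((Fin.cons q τ : Fin (r + 1) → E) 0)) = 0
    rw [Fin.cons_succ, Fin.cons_zero, fv_oth hR (hσ k) hq (hqσ k).symm, map_zero]
  rw [dC_col _ 0 0 h0]
  have h1 : mm Λ R (Fin.cons q σ : Fin (r + 1) → E) (Fin.cons q τ : Fin (r + 1) → E) 0 0 = 1 := by
    show emb (fv Λ R ((Fin.cons q σ : Fin (r + 1) → E) 0) ((Fin.cons q τ : Fin (r + 1) → E) 0)) = 1
    rw [Fin.cons_zero, Fin.cons_zero, fv_self hR hq, map_one]
  have h2 : (mm Λ R (Fin.cons q σ : Fin (r + 1) → E) (Fin.cons q τ : Fin (r + 1) → E)).submatrix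
      (0 : Fin (r + 1)).succAbove (0 : Fin (r + 1)).succAbove = mm Λ R σ τ := by
    ext1 k l
    show emb (fv Λ R ((Fin.cons q σ : Fin (r + 1) → E) ((0 : Fin (r + 1)).succAbove k))
      ((Fin.cons q τ : Fin (r + 1) → E) ((0 : Fin (r + 1)).succAbove l))) = emb (fv Λ R (σ k) (τ l))
    rw [Fin.succAbove_zero, Fin.cons_succ, Fin.cons_succ]
  rw [h1, h2, map_one]
  simp

private theorem Bd_gen {Λ : Submodule Hz (E → Hz)} {R : Finset E} (hR : IsB Λ R) {m : ℕ} {f g : Fin m → E}
    (hf : ∀ k, f k ∈ R) (hg : ∀ k, g k ∉ R) (hfi : Function.Injective f) (hgi : Function.Injective g) (Q : Finset E) :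
    (Q ⊆ R \ Finset.univ.image f) → ∃ (r : ℕ) (σ τ : Fin r → E), Function.Injective σ ∧
      Finset.univ.image σ = Q ∪ Finset.univ.image f ∧ Function.Injective τ ∧
      Finset.univ.image τ = Q ∪ Finset.univ.image g ∧
      dC (Matrix.of fun k l => emb (fv Λ R (f k) (g l))) = dC (mm Λ R σ τ) := by
  induction Q using Finset.induction_on with
  | empty =>
    intro _
    exact ⟨m, f, g, hfi, by rw [Finset.empty_union], hgi, by rw [Finset.empty_union], rfl⟩
  | insert q Q hqQ ih =>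
    intro hQ
    obtain ⟨r, σ, τ, h1, h2, h3, h4, h5⟩ := ih ((Finset.subset_insert q Q).trans hQ)
    have hq := hQ (Finset.mem_insert_self q Q)
    rw [Finset.mem_sdiff] at hq
    have hσR : ∀ k, σ k ∈ R := by
      intro k
      have hk : σ k ∈ Q ∪ Finset.univ.image f := h2 ▸ Finset.mem_image_of_mem _ (Finset.mem_univ k)
      rcases Finset.mem_union.1 hk with h | h
      · exact (Finset.mem_sdiff.1 (hQ (Finset.mem_insert_of_mem h))).1
      · obtain ⟨l, -, hl⟩ := Finset.mem_image.1 h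
        rw [← hl]
        exact hf l
    have hqσ : ∀ k, σ k ≠ q := by
      intro k hk
      have hk' : σ k ∈ Q ∪ Finset.univ.image f := h2 ▸ Finset.mem_image_of_mem _ (Finset.mem_univ k)
      rw [hk] at hk'
      rcases Finset.mem_union.1 hk' with h | h
      · exact hqQ h
      · exact hq.2 h
    have hqτ : ∀ k, τ k ≠ q := by
      intro k hk
      have hk' : τ k ∈ Q ∪ Finset.univ.image g := h4 ▸ Finset.mem_image_of_mem _ (Finset.mem_univ k)
      rw [hk] at hk'
      rcases Finset.mem_union.1 hk' with h | h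
      · exact hqQ h
      · obtain ⟨l, -, hl⟩ := Finset.mem_image.1 h
        exact hg l (hl ▸ hq.1)
    refine ⟨r + 1, Fin.cons q σ, Fin.cons q τ, ?_, ?_, ?_, ?_, ?_⟩
    · rw [Fin.cons_injective_iff]
      exact ⟨fun ⟨k, hk⟩ => hqσ k hk, h1⟩
    · rw [Bd_img, h2, Finset.insert_union]
    · rw [Fin.cons_injective_iff]
      exact ⟨fun ⟨k, hk⟩ => hqτ k hk, h3⟩
    · rw [Bd_img, h4, Finset.insert_union]
    · rw [h5, Bd_step hR hσR hq.1 hqσ]

theorem border {Λ : Submodule Hz (E → Hz)} {R : Finset E} (hR : IsB Λ R) {m : ℕ} {f g : Fin m → E}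
    (hf : ∀ k, f k ∈ R) (hg : ∀ k, g k ∉ R) (hfi : Function.Injective f) (hgi : Function.Injective g) :
    ∃ (r : ℕ) (σ τ : Fin r → E), Function.Injective σ ∧ Finset.univ.image σ = R ∧ Function.Injective τ ∧
      Finset.univ.image τ = (R \ Finset.univ.image f) ∪ Finset.univ.image g ∧
      dC (Matrix.of fun k l => emb (fv Λ R (f k) (g l))) = dC (mm Λ R σ τ) := by
  obtain ⟨r, σ, τ, h1, h2, h3, h4, h5⟩ := Bd_gen hR hf hg hfi hgi (R \ Finset.univ.image f) (Finset.Subset.refl _)
  refine ⟨r, σ, τ, h1, ?_, h3, h4, h5⟩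
  rw [h2]
  refine Finset.sdiff_union_of_subset fun x hx => ?_
  obtain ⟨l, -, hl⟩ := Finset.mem_image.1 hx
  rw [← hl]
  exact hf l

end Pool.Agent.QUE
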