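import Pool.Agent.QUE.Gb

/-!
# QUE/Bo: diagonal forms on a box in coordinates

`(dg l) (fv L S a) (fc L S x) = l a * fv L S a x ^ 2 + l x * fv L S a x` (`a ∈ S`, `x ∉ S`; the only elements where both vectors are nonzero are `a` and `x`).
The box `(S \ A, S ∪ X)`: `van L (S \ A)` consists of the combinations `∑ a ∈ A, c a • fv L S a` (`expand`), `spt (WW L) (S ∪ X)` of `∑ x ∈ X, d x • fc L S x` (`fc_expand`).
-/

set_option autoImplicit false

noncomputable section

open scoped Classical

namespace Pool.Agent.QUE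

open Pool.Agent.FRM Pool.Agent.QUS
open Pool.Agent.QU (Fm dg EqD van spt)

variable {E : Type} [Fintype E] {L : Submodule F4 (E → F4)} {T : Fm F4 E} {S : Finset E} {a x : E}

theorem dg_fv_fc (hS : IsB L S) (l : E → F4) (ha : a ∈ S) (hx : x ∉ S) :
    (dg l : Fm F4 E) (fv L S a) (fc L S x) = l a * fv L S a x ^ 2 + l x * fv L S a x := by
  have hax : a ≠ x := by
    rintro rfl
    exact hx ha
  rw [Pool.Agent.QU.dg_apply]
  have h1 : ∑ y, l y * (fv L S a y * fc L S x y) = ∑ y ∈ {a, x}, l y * (fv L S a y * fc L S x y) := by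
    symm
    refine Finset.sum_subset (Finset.subset_univ _) fun y _ hy => ?_
    rw [Finset.mem_insert, Finset.mem_singleton, not_or] at hy
    by_cases hyS : y ∈ S
    · rw [fv_oth hS ha hyS hy.1, zero_mul, mul_zero]
    · rw [fc_out hyS hy.2, mul_zero, mul_zero]
  rw [h1, Finset.sum_pair hax, fv_self hS ha, fc_in hx ha, fc_self, one_mul, mul_one]

theorem eqD_box (hS : IsB L S) {A X : Finset E} (hA : A ⊆ S) (hX : Disjoint X S) :
    EqD L (WW L) (S \ A, S ∪ X) T 0 ↔
      ∃ l : E → F4, ∀ a ∈ A, ∀ x ∈ X, T (fv L S a) (fc L S x) = l a * fv L S a x ^ 2 + l x * fv L S a x := by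
  constructor
  · rintro ⟨l, hl⟩
    refine ⟨l, fun a ha x hx => ?_⟩
    have hxS : x ∉ S := fun h => Finset.disjoint_left.1 hX hx h
    have h1 : fv L S a ∈ van L (S \ A) := by
      refine ⟨fv_mem hS (hA ha), fun y hy => ?_⟩
      obtain ⟨hyS, hyA⟩ := Finset.mem_sdiff.1 hy
      refine fv_oth hS (hA ha) hyS ?_
      rintro rfl
      exact hyA ha
    have h2 : fc L S x ∈ spt (WW L) (S ∪ X) := by
      refine ⟨fc_mem hS hxS, fun y hy => ?_⟩
      rw [Finset.mem_union, not_or] at hy
      refine fc_out hy.1 ?_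
      rintro rfl
      exact hy.2 hx
    have h3 := hl _ h1 _ h2
    rw [zero_add] at h3
    rw [h3]
    exact dg_fv_fc hS l (hA ha) hxS
  · rintro ⟨l, hl⟩
    refine ⟨l, ?_⟩
    rintro c ⟨hc, hc0⟩ d ⟨hd, hd0⟩
    rw [zero_add]
    have key : ∀ U : Fm F4 E, U c d = ∑ s ∈ S, ∑ e ∈ Sᶜ, c s * (d e * U (fv L S s) (fc L S e)) := by
      intro U
      have hcs : U c = ∑ s ∈ S, c s • U (fv L S s) := by
        conv_lhs => rw [expand hS hc]
        rw [map_sum]
        exact Finset.sum_congr rfl fun s _ => map_smul _ _ _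
      rw [hcs, LinearMap.sum_apply]
      refine Finset.sum_congr rfl fun s _ => ?_
      rw [LinearMap.smul_apply, smul_eq_mul]
      have hds : U (fv L S s) d = ∑ e ∈ Sᶜ, d e * U (fv L S s) (fc L S e) := by
        conv_lhs => rw [fc_expand hS hd]
        rw [map_sum]
        exact Finset.sum_congr rfl fun e _ => by rw [map_smul, smul_eq_mul]
      rw [hds, Finset.mul_sum]
    rw [key T, key (dg l)]
    refine Finset.sum_congr rfl fun s hs => Finset.sum_congr rfl fun e he => ?_
    have heS : e ∉ S := Finset.mem_compl.1 he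
    by_cases hsA : s ∈ A
    · by_cases heX : e ∈ X
      · rw [hl s hsA e heX, dg_fv_fc hS l hs heS]
      · have h0 : d e = 0 := by
          apply hd0
          rw [Finset.mem_union, not_or]
          exact ⟨heS, heX⟩
        rw [h0, zero_mul, zero_mul]
    · rw [hc0 s (Finset.mem_sdiff.2 ⟨hs, hsA⟩), zero_mul, zero_mul]

end Pool.Agent.QUE
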