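import Pool.Agent.QUE.Fc
import Pool.Agent.QUS.Rd

/-!
# QUE/Gb: the bases of `Gm L T`

`x ∈ Gm L T` iff its `a`-part `v` is in `L` and `∑ (x e).b * d e = T v d` for all `d ∈ W = WW L`.
`gm_of`: the ambient form: `y e = T v (Pi.single e 1)` has `∑ y e * d e = T v d` for all `d` (`pi_eq_sum_univ`).  `ww_perp`: a vector orthogonal to `W` is in `fro L` (over a basis `S` of `L`: subtract `∑ u s • (squares of fv L S s)`, the
difference vanishes on `S`; pair with `fc L S e`).
`isB_gm` (<-): injective: `x` zero on `S` has `a`-part zero, so the `b`-part is orthogonal to `W`, in `fro L`, zero on `S`, so zero.  Surjective: `v = fv L S b`, `y` from `gm_of`, subtract the element of `fro L` with the same coordinates in `S`.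
(->) for `v ∈ L` zero on `S`: the vector `v ^ 2 ε` (`a`-part 0, `b`-part the squares of `v`) is in `Gm L T`, zero on `S`; existence: take the `a`-part.
`fv_gm_a`: `fv_uniq` for the `a`-part.  `fv_gm_b`: the `b`-part of `fv (Gm L T) S b` is zero on `S`, so `∑ x, _ * fc L S e x` = its value at `e`.
`res_gm`: `UZ`: if `fv L S b e = 0` (`e ∉ S`) then `fv L S b` and `fc L S e` have disjoint supports, so the `b`-part is zero as well; units of `Rq`: `rq_unit`.  `sup_gm`: for `e ∉ G` the vector `Pi.single e 1` is in `W`.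
-/

set_option autoImplicit false

noncomputable section

open scoped Classical

namespace Pool.Agent.QUE

open Pool.Agent.FRM Pool.Agent.QUS
open Pool.Agent.QU (Fm InV EqOn)

variable {E : Type} [Fintype E] {L : Submodule F4 (E → F4)} {T T' : Fm F4 E} {S G : Finset E} {b e : E}

private theorem gb_pair {z : E → F4} (h : ∀ x ∈ S, z x = 0) : ∑ x, z x * fc L S e x = z e := by
  rw [Finset.sum_eq_single e]
  · rw [fc_self, mul_one]
  · intro x _ hx
    by_cases hxS : x ∈ S
    · rw [h x hxS, zero_mul]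
    · rw [fc_out hxS hx, mul_zero]
  · intro h'
    exact absurd (Finset.mem_univ _) h'

omit [Fintype E] in
private theorem gb_sq {v : E → F4} (hv : v ∈ L) : (fun e => v e ^ 2) ∈ fro L := ⟨v, hv, fun _ => rfl⟩

private theorem gb_sum (hS : IsB L S) (y : E → F4) :
    ∃ z ∈ fro L, ∀ x ∈ S, z x = y x := by
  refine ⟨∑ s ∈ S, y s • fun e => fv L S s e ^ 2, ?_, ?_⟩
  · exact Submodule.sum_mem _ fun s hs => Submodule.smul_mem _ _ (gb_sq (fv_mem hS hs))
  · intro x hx
    rw [Finset.sum_apply, Finset.sum_eq_single x]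
    · show y x * fv L S x x ^ 2 = y x
      rw [fv_self hS hx, one_pow, mul_one]
    · intro s hs hsx
      show y s * fv L S s x ^ 2 = 0
      rw [fv_oth hS hs hx (fun h => hsx h.symm), zero_pow two_ne_zero, mul_zero]
    · intro h
      exact absurd hx h

private theorem gb_zero {z : E → F4} (hz : z ∈ fro L) : (fun e => (⟨0, z e⟩ : Rq)) ∈ Gm L T := by
  rw [mem_gm]
  refine ⟨L.zero_mem, fun d hd => ?_⟩
  show ∑ e, z e * d e = T 0 d
  rw [map_zero, LinearMap.zero_apply]
  exact hd z hz

theorem gm_of {v : E → F4} (hv : v ∈ L) : (fun e => (⟨v e, T v (Pi.single e 1)⟩ : Rq)) ∈ Gm L T := by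
  rw [mem_gm]
  refine ⟨hv, fun d _ => ?_⟩
  show ∑ e, T v (Pi.single e 1) * d e = T v d
  have hd : d = ∑ e, d e • (Pi.single e (1 : F4) : E → F4) := by
    funext x
    rw [Finset.sum_apply, Finset.sum_eq_single x]
    · rw [Pi.smul_apply, Pi.single_eq_same, smul_eq_mul, mul_one]
    · intro e _ he
      rw [Pi.smul_apply, Pi.single_eq_of_ne (fun h => he h.symm), smul_zero]
    · intro h
      exact absurd (Finset.mem_univ _) h
  have h1 : T v d = ∑ e, d e • T v (Pi.single e 1) := by
    conv_lhs => rw [hd]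
    rw [map_sum]
    exact Finset.sum_congr rfl fun e _ => by rw [map_smul]
  rw [h1]
  exact Finset.sum_congr rfl fun e _ => by rw [smul_eq_mul, mul_comm]

theorem ww_perp {u : E → F4} (h : ∀ d ∈ WW L, ∑ e, u e * d e = 0) : u ∈ fro L := by
  obtain ⟨S, hS⟩ := exists_isB L
  obtain ⟨z, hz, hz'⟩ := gb_sum hS u
  have h1 : u = z := by
    funext e
    by_cases he : e ∈ S
    · exact (hz' e he).symm
    · have h2 := h _ (fc_mem hS he)
      have h3 : ∑ x, z x * fc L S e x = 0 := fc_mem hS he z hz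
      have h4 : ∑ x, (u x - z x) * fc L S e x = u e - z e :=
        gb_pair (z := fun x => u x - z x) fun x hx => by rw [hz' x hx, sub_self]
      have h5 : ∑ x, (u x - z x) * fc L S e x = 0 := by
        have h6 : ∑ x, (u x - z x) * fc L S e x = ∑ x, u x * fc L S e x - ∑ x, z x * fc L S e x := by
          rw [← Finset.sum_sub_distrib]
          exact Finset.sum_congr rfl fun x _ => by rw [sub_mul]
        rw [h6, h2, h3, sub_zero]
      exact sub_eq_zero.1 (h4.symm.trans h5)
  rw [h1]
  exact hz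

theorem isB_gm : IsB (Gm L T) S ↔ IsB L S := by
  constructor
  · intro hS
    refine ⟨fun v hv h0 => ?_, fun b hb => ?_⟩
    · have h1 := hS.1 _ (gb_zero (T := T) (gb_sq hv)) fun s hs => by
        show (⟨0, v s ^ 2⟩ : Rq) = 0
        rw [h0 s hs, zero_pow two_ne_zero]
        rfl
      funext e
      have h2 := congrArg Rq.b (congrFun h1 e)
      have h3 : v e ^ 2 = 0 := h2
      exact pow_eq_zero_iff two_ne_zero |>.1 h3
    · obtain ⟨x, hx, h1, h0⟩ := hS.2 b hb
      refine ⟨fun e => (x e).a, (mem_gm.1 hx).1, ?_, fun s hs hsb => ?_⟩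
      · show (x b).a = 1
        rw [h1]
        rfl
      · show (x s).a = 0
        rw [h0 s hs hsb]
        rfl
  · intro hS
    refine ⟨fun x hx h0 => ?_, fun b hb => ?_⟩
    · obtain ⟨h1, h2⟩ := mem_gm.1 hx
      have h3 : (fun e => (x e).a) = 0 := hS.1 _ h1 fun s hs => by
        show (x s).a = 0
        rw [h0 s hs]
        rfl
      have h4 : (fun e => (x e).b) ∈ fro L := by
        refine ww_perp fun d hd => ?_
        have h5 := h2 d hd
        rw [h3, map_zero, LinearMap.zero_apply] at h5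
        exact h5
      obtain ⟨v, hv, hv'⟩ := h4
      have h5 : v = 0 := hS.1 v hv fun s hs => by
        have h6 : (x s).b = v s ^ 2 := hv' s
        rw [h0 s hs] at h6
        exact pow_eq_zero_iff two_ne_zero |>.1 h6.symm
      funext e
      have h6 : (x e).b = v e ^ 2 := hv' e
      have h7 : (x e).a = 0 := congrFun h3 e
      rw [h5, Pi.zero_apply, zero_pow two_ne_zero] at h6
      show x e = 0
      exact Rq.ext h7 h6
    · have h1 := gm_of (T := T) (fv_mem hS hb)
      obtain ⟨z, hz, hz'⟩ := gb_sum hS fun e => T (fv L S b) (Pi.single e 1)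
      refine ⟨_, (Gm L T).sub_mem h1 (gb_zero hz), ?_, fun s hs hsb => ?_⟩
      · rw [Pi.sub_apply, hz' b hb, fv_self hS hb]
        refine Rq.ext ?_ ?_
        · show (1 : F4) + -0 = 1
          rw [neg_zero, add_zero]
        · show T (fv L S b) (Pi.single b 1) + -T (fv L S b) (Pi.single b 1) = 0
          rw [add_neg_cancel]
      · rw [Pi.sub_apply, hz' s hs, fv_oth hS hb hs hsb]
        refine Rq.ext ?_ ?_
        · show (0 : F4) + -0 = 0
          rw [neg_zero, add_zero]
        · show T (fv L S b) (Pi.single s 1) + -T (fv L S b) (Pi.single s 1) = 0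
          rw [add_neg_cancel]

theorem fv_gm_a (hS : IsB L S) (hb : b ∈ S) (e : E) : (fv (Gm L T) S b e).a = fv L S b e := by
  have hG : IsB (Gm L T) S := isB_gm.2 hS
  have h1 := fv_uniq hS hb (x := fun e => (fv (Gm L T) S b e).a) (mem_gm.1 (fv_mem hG hb)).1
    (by
      show (fv (Gm L T) S b b).a = 1
      rw [fv_self hG hb]
      rfl)
    (fun s hs hsb => by
      show (fv (Gm L T) S b s).a = 0
      rw [fv_oth hG hb hs hsb]
      rfl)
  exact (congrFun h1 e).symm

theorem fv_gm_b (hS : IsB L S) (hb : b ∈ S) (he : e ∉ S) : (fv (Gm L T) S b e).b = T (fv L S b) (fc L S e) := by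
  have hG : IsB (Gm L T) S := isB_gm.2 hS
  have h1 := (mem_gm.1 (fv_mem hG hb)).2 _ (fc_mem hS he)
  have h2 : (fun e => (fv (Gm L T) S b e).a) = fv L S b := funext fun e => fv_gm_a hS hb e
  rw [h2] at h1
  rw [← h1]
  refine (gb_pair (z := fun x => (fv (Gm L T) S b x).b) fun s hs => ?_).symm
  show (fv (Gm L T) S b s).b = 0
  by_cases hsb : s = b
  · rw [hsb, fv_self hG hb]
    rfl
  · rw [fv_oth hG hb hs hsb]
    rfl

theorem res_gm (h : InV L (WW L) (∅, Finset.univ) T) : Res (Gm L T) L := by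
  intro S hS
  have hG : IsB (Gm L T) S := isB_gm.2 hS
  refine ⟨hG, fun b hb e => ⟨?_, fv_gm_a hS hb e⟩⟩
  by_cases ha : (fv (Gm L T) S b e).a = 0
  · left
    have ha' : fv L S b e = 0 := by
      rw [← fv_gm_a (T := T) hS hb e]
      exact ha
    by_cases he : e ∈ S
    · refine fv_oth hG hb he ?_
      rintro rfl
      rw [fv_self hS hb] at ha'
      exact one_ne_zero ha'
    · refine Rq.ext ha ?_
      rw [fv_gm_b hS hb he]
      refine h _ ⟨fv_mem hS hb, fun x hx => absurd hx (Finset.notMem_empty x)⟩ _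
        ⟨fc_mem hS he, fun x hx => absurd (Finset.mem_univ x) hx⟩ fun x => ?_
      by_cases hxe : x = e
      · rw [hxe, ha', zero_mul]
      · by_cases hxS : x ∈ S
        · by_cases hxb : x = b
          · rw [hxb, fc_in he hb, ha', zero_pow two_ne_zero, mul_zero]
          · rw [fv_oth hS hb hxS hxb, zero_mul]
        · rw [fc_out hxS hxe, mul_zero]
  · right
    exact rq_unit.2 ha

theorem sup_gm (h : InV L (WW L) (∅, Finset.univ) T) (hG : Sup L G) : Sup (Gm L T) G := by
  intro x hx e he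
  obtain ⟨h1, h2⟩ := mem_gm.1 hx
  have hs : ∀ u : E → F4, ∑ y, u y * (Pi.single e (1 : F4) : E → F4) y = u e := by
    intro u
    rw [Finset.sum_eq_single e]
    · rw [Pi.single_eq_same, mul_one]
    · intro y _ hy
      rw [Pi.single_eq_of_ne hy, mul_zero]
    · intro h'
      exact absurd (Finset.mem_univ _) h'
  have hd : (Pi.single e (1 : F4) : E → F4) ∈ WW L := by
    rintro u ⟨v, hv, hv'⟩
    rw [hs u, hv' e, hG v hv e he, zero_pow two_ne_zero]
  have ha : (x e).a = 0 := hG _ h1 e he
  refine Rq.ext ha ?_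
  have h3 := h2 _ hd
  have h4 : ∑ y, (x y).b * (Pi.single e (1 : F4) : E → F4) y = (x e).b := hs fun y => (x y).b
  rw [h4] at h3
  rw [h3]
  refine h _ ⟨h1, fun y hy => absurd hy (Finset.notMem_empty y)⟩ _
    ⟨hd, fun y hy => absurd (Finset.mem_univ y) hy⟩ fun y => ?_
  by_cases hy : y = e
  · rw [hy, ha, zero_mul]
  · rw [Pi.single_eq_of_ne hy, mul_zero]

theorem gm_congr (h : EqOn L (WW L) (∅, Finset.univ) T T') : Gm L T = Gm L T' := by
  have h1 : ∀ v ∈ L, ∀ d ∈ WW L, T v d = T' v d := fun v hv d hd =>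
    h v ⟨hv, fun x hx => absurd hx (Finset.notMem_empty x)⟩ d ⟨hd, fun x hx => absurd (Finset.mem_univ x) hx⟩
  ext x
  rw [mem_gm, mem_gm]
  constructor
  · rintro ⟨hx, hx'⟩
    exact ⟨hx, fun d hd => by rw [hx' d hd, h1 _ hx d hd]⟩
  · rintro ⟨hx, hx'⟩
    exact ⟨hx, fun d hd => by rw [hx' d hd, h1 _ hx d hd]⟩

end Pool.Agent.QUE
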