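import Pool.Agent.QUE.Dt
import Pool.Agent.QUE.Gb

/-!
# QUE/Chr: characteristic zero

`Φ = rowL A R`.  A basis `S` of `Φ` or of `L = rowL D R` has `S.card = R.card`, so it is `(R \ im f) ∪ im g` with injective `f, g : Fin m → E`, and
`det_ne_iff` for `A` and for `D` applies.  The bases of `Gm L T` are the bases of `L` (`isB_gm`).
-/

set_option autoImplicit false

noncomputable section

open scoped Classical

namespace Pool.Agent.QUE

open Pool.Agent.FRM Pool.Agent.QUS
open Pool.Agent.QU (Fm)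

variable {E : Type} [Fintype E] {D : E → E → F4} {R : Finset E}

omit [Fintype E] in
private theorem Chr_img {A : Finset E} {m : ℕ} (u : {x // x ∈ A} ≃ Fin m) :
    Finset.univ.image (fun k => ((u.symm k : {x // x ∈ A}) : E)) = A := by
  ext x
  rw [Finset.mem_image]
  constructor
  · rintro ⟨k, -, rfl⟩
    exact (u.symm k).2
  · intro hx
    exact ⟨u ⟨x, hx⟩, Finset.mem_univ _, by rw [Equiv.symm_apply_apply]⟩

private theorem Chr_iff {K K' : Type} [Field K] [Field K'] {A : E → E → K} {B : E → E → K'}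
    (hdet : ∀ (m : ℕ) (f g : Fin m → E), (∀ k, f k ∈ R) → (∀ k, g k ∉ R) →
      ((Matrix.of fun k l => B (f k) (g l)).det = 0 → (Matrix.of fun k l => A (f k) (g l)).det = 0))
    {S : Finset E} (h : IsB (rowL A R) S) : IsB (rowL B R) S := by
  have hc : S.card = R.card := card_eq (fun _ _ _ _ _ => uz_field _) h (isB_rowL A R)
  have h1 : (S \ R).card = (R \ S).card := Finset.card_sdiff_comm hc
  obtain ⟨u, -⟩ : ∃ u : {x // x ∈ R \ S} ≃ Fin (R \ S).card, u = u := ⟨Finset.equivFinOfCardEq rfl, rfl⟩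
  obtain ⟨v, -⟩ : ∃ v : {x // x ∈ S \ R} ≃ Fin (R \ S).card, v = v := ⟨Finset.equivFinOfCardEq h1, rfl⟩
  have hu := Chr_img u
  have hv := Chr_img v
  have hf : ∀ k, ((u.symm k : {x // x ∈ R \ S}) : E) ∈ R := fun k => (Finset.mem_sdiff.1 (u.symm k).2).1
  have hg : ∀ k, ((v.symm k : {x // x ∈ S \ R}) : E) ∉ R := fun k => (Finset.mem_sdiff.1 (v.symm k).2).2
  have hS : (R \ Finset.univ.image (fun k => ((u.symm k : {x // x ∈ R \ S}) : E))) ∪
      Finset.univ.image (fun k => ((v.symm k : {x // x ∈ S \ R}) : E)) = S := by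
    rw [hu, hv]
    ext x
    rw [Finset.mem_union, Finset.mem_sdiff, Finset.mem_sdiff, Finset.mem_sdiff]
    tauto
  have hfi : Function.Injective fun k => ((u.symm k : {x // x ∈ R \ S}) : E) :=
    Subtype.val_injective.comp u.symm.injective
  have hgi : Function.Injective fun k => ((v.symm k : {x // x ∈ S \ R}) : E) :=
    Subtype.val_injective.comp v.symm.injective
  have h2 := (det_ne_iff A hf hg).2 ⟨hfi, hgi, by rw [hS]; exact h⟩
  have h3 := ((det_ne_iff B hf hg).1 fun h0 => h2 (hdet _ _ _ hf hg h0)).2.2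
  rwa [hS] at h3

theorem ch_of_chM (h : ChM D R) (T : Fm F4 E) : Ch (Gm (rowL D R) T) := by
  obtain ⟨K, _, _, A, hA⟩ := h
  refine ⟨K, inferInstance, inferInstance, rowL A R, fun S => ?_⟩
  rw [isB_gm]
  exact ⟨Chr_iff fun m f g hf hg => (hA m f g hf hg).2, Chr_iff fun m f g hf hg => (hA m f g hf hg).1⟩

end Pool.Agent.QUE
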