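import Pool.Agent.QUE.Defs
import Pool.Agent.QUS.Rd

/-!
# QUE/Com: commuting cross ratios in `Rq`

A unit is `⟨a, a z⟩`, its inverse is its star.  The cross ratios are `⟨x, x ξ⟩` and `⟨y, y η⟩` (`Com_cross`); they commute if and only if
`η (1 + x) = ξ (1 + y)`, i.e. the vector of the `z (pi) + z (qi)` is linearly dependent on `(pi)` and `(qi)`; this is also the condition for the
linear system of `la, lb, ..` to be solvable.  `com_row` is `com_col` for the images under `star`.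
-/

set_option autoImplicit false

noncomputable section

open scoped Classical

namespace Pool.Agent.QUE

open Pool.Agent.FRM Pool.Agent.QUS

private theorem Com_two : (2 : F4) = 0 := by decide

private theorem Com_inv {x : Rq} (h : x.a ≠ 0) : Ring.inverse x = star x := by
  have h1 : x * star x = 1 := by
    ext
    · rw [Rq.mul_a, Rq.star_a, Rq.one_a]
      linear_combination F4.pow3 h
    · rw [Rq.mul_b, Rq.star_a, Rq.star_b, Rq.one_b]
      linear_combination x.b * F4.pow4 x.a + x.a * x.b * Com_two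
  have h2 : star x * x = 1 := by
    ext
    · rw [Rq.mul_a, Rq.star_a, Rq.one_a]
      linear_combination F4.pow3 h
    · rw [Rq.mul_b, Rq.star_a, Rq.star_b, Rq.one_b]
      linear_combination x.a ^ 2 * x.b * Com_two
  exact Ring.inverse_unit ⟨x, star x, h1, h2⟩

private theorem Com_cross (a b c d x y z t : F4) :
    star (⟨a, a * x⟩ : Rq) * ⟨b, b * y⟩ * star (⟨c, c * z⟩ : Rq) * ⟨d, d * t⟩ =
      ⟨a ^ 2 * b * c ^ 2 * d, a ^ 2 * b * c ^ 2 * d * (x * (a ^ 2 * b * c ^ 2 * d) + (y + z) * (c ^ 2 * d) + t)⟩ := by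
  ext
  · rfl
  · simp only [Rq.mul_a, Rq.mul_b, Rq.star_a, Rq.star_b]
    linear_combination - (b ^ 2 * c ^ 4 * d ^ 2 * x) * F4.pow4 a - (a ^ 2 * b * d ^ 2 * z) * F4.pow4 c

private theorem Com_commute {x y ξ η : F4} (hx : x ≠ 0) (hy : y ≠ 0) :
    Commute (⟨x, x * ξ⟩ : Rq) ⟨y, y * η⟩ ↔ η * (1 + x) + ξ * (1 + y) = 0 := by
  have h1 : Commute (⟨x, x * ξ⟩ : Rq) ⟨y, y * η⟩ ↔
      x * (y * η) + x * ξ * y ^ 2 = y * (x * ξ) + y * η * x ^ 2 := by
    constructor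
    · intro h
      exact congrArg Rq.b h.eq
    · intro h
      refine Rq.ext ?_ h
      exact mul_comm _ _
  rw [h1]
  constructor
  · intro h
    have h2 : x * y * (η * (1 + x) + ξ * (1 + y)) = 0 := by
      linear_combination h + (x * y * ξ + x ^ 2 * y * η) * Com_two
    exact (mul_eq_zero.1 h2).resolve_left (mul_ne_zero hx hy)
  · intro h
    linear_combination x * y * h - (x * y * ξ + x ^ 2 * y * η) * Com_two

private theorem Com_det {pc pe pf qc qe qf x1 x2 x3 y1 y2 y3 : F4} (h1 : pc ≠ 0) (h2 : pe ≠ 0) (h3 : pf ≠ 0)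
    (h4 : qc ≠ 0) (h5 : qe ≠ 0) (h6 : qf ≠ 0) :
    Commute (star (⟨pc, pc * x1⟩ : Rq) * ⟨pe, pe * x2⟩ * star (⟨qe, qe * y2⟩ : Rq) * ⟨qc, qc * y1⟩)
      (star (⟨pc, pc * x1⟩ : Rq) * ⟨pf, pf * x3⟩ * star (⟨qf, qf * y3⟩ : Rq) * ⟨qc, qc * y1⟩) ↔
      (x1 + y1) * (pe * qf + pf * qe) + (x2 + y2) * (pc * qf + pf * qc) + (x3 + y3) * (pc * qe + pe * qc) = 0 := by
  rw [Com_cross, Com_cross, Com_commute (by positivity) (by positivity)]
  have e1 := F4.pow3 h1
  have e5 := F4.pow3 h5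
  have e6 := F4.pow3 h6
  have H1 : pc ^ 2 * qe ^ 2 * (pc * qe + pe * qc) = 1 + pc ^ 2 * pe * qe ^ 2 * qc := by
    linear_combination qe ^ 3 * e1 + e5
  have H2 : pc ^ 2 * qf ^ 2 * (pc * qf + pf * qc) = 1 + pc ^ 2 * pf * qf ^ 2 * qc := by
    linear_combination qf ^ 3 * e1 + e6
  have H3 : pc ^ 2 * qc * qe ^ 2 * qf ^ 2 * (pe * qf + pf * qe) =
      pc ^ 2 * pe * qe ^ 2 * qc + pc ^ 2 * pf * qf ^ 2 * qc := by
    linear_combination pc ^ 2 * qc * qe ^ 2 * pe * e6 + pc ^ 2 * qc * qf ^ 2 * pf * e5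
  have key : (x1 * (pc ^ 2 * pf * qf ^ 2 * qc) + (x3 + y3) * (qf ^ 2 * qc) + y1) * (1 + pc ^ 2 * pe * qe ^ 2 * qc) +
      (x1 * (pc ^ 2 * pe * qe ^ 2 * qc) + (x2 + y2) * (qe ^ 2 * qc) + y1) * (1 + pc ^ 2 * pf * qf ^ 2 * qc) =
      pc ^ 2 * qc * qe ^ 2 * qf ^ 2 * ((x1 + y1) * (pe * qf + pf * qe) + (x2 + y2) * (pc * qf + pf * qc) +
        (x3 + y3) * (pc * qe + pe * qc)) := by
    linear_combination - (x3 + y3) * (qf ^ 2 * qc) * H1 - (x2 + y2) * (qe ^ 2 * qc) * H2 - (x1 + y1) * H3 +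
      (y1 + x1 * (pc ^ 2 * pe * qe ^ 2 * qc) * (pc ^ 2 * pf * qf ^ 2 * qc)) * Com_two
  rw [key]
  constructor
  · intro h
    refine (mul_eq_zero.1 h).resolve_left ?_
    positivity
  · intro h
    rw [h, mul_zero]

/-- the linear system for `la, lb, lc, le, lf` -/
private theorem Com_solve {pc pe pf qc qe qf x1 x2 x3 y1 y2 y3 : F4} (h7 : pc * qe ≠ pe * qc) :
    (x1 + y1) * (pe * qf + pf * qe) + (x2 + y2) * (pc * qf + pf * qc) + (x3 + y3) * (pc * qe + pe * qc) = 0 ↔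
      ∃ la lb lc le lf : F4, x1 = la * pc + lc ∧ x2 = la * pe + le ∧ x3 = la * pf + lf ∧
        y1 = lb * qc + lc ∧ y2 = lb * qe + le ∧ y3 = lb * qf + lf := by
  have hD : pc * qe + pe * qc ≠ 0 := by
    intro h
    apply h7
    linear_combination h - pe * qc * Com_two
  constructor
  · intro h
    obtain ⟨la, hla⟩ : ∃ la, la = ((x1 + y1) * qe + (x2 + y2) * qc) / (pc * qe + pe * qc) := ⟨_, rfl⟩
    obtain ⟨lb, hlb⟩ : ∃ lb, lb = (pc * (x2 + y2) + pe * (x1 + y1)) / (pc * qe + pe * qc) := ⟨_, rfl⟩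
    have ha : la * (pc * qe + pe * qc) = (x1 + y1) * qe + (x2 + y2) * qc := by
      rw [hla, div_mul_cancel₀ _ hD]
    have hb : lb * (pc * qe + pe * qc) = pc * (x2 + y2) + pe * (x1 + y1) := by
      rw [hlb, div_mul_cancel₀ _ hD]
    have k1 : la * pc + lb * qc = x1 + y1 := by
      apply mul_right_cancel₀ hD
      linear_combination pc * ha + qc * hb + (pc * qc * (x2 + y2)) * Com_two
    have k2 : la * pe + lb * qe = x2 + y2 := by
      apply mul_right_cancel₀ hD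
      linear_combination pe * ha + qe * hb + (pe * qe * (x1 + y1)) * Com_two
    have k3 : la * pf + lb * qf = x3 + y3 := by
      apply mul_right_cancel₀ hD
      linear_combination pf * ha + qf * hb + h - (x3 + y3) * (pc * qe + pe * qc) * Com_two
    refine ⟨la, lb, x1 + la * pc, x2 + la * pe, x3 + la * pf, ?_, ?_, ?_, ?_, ?_, ?_⟩
    · linear_combination - la * pc * Com_two
    · linear_combination - la * pe * Com_two
    · linear_combination - la * pf * Com_two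
    · linear_combination - k1 - x1 * Com_two
    · linear_combination - k2 - x2 * Com_two
    · linear_combination - k3 - x3 * Com_two
  · rintro ⟨la, lb, lc, le, lf, rfl, rfl, rfl, rfl, rfl, rfl⟩
    linear_combination ((lc * (pe * qf + pf * qe) + le * (pc * qf + pf * qc) + lf * (pc * qe + pe * qc)) +
      la * (pc * pe * qf + pc * pf * qe + pe * pf * qc) + lb * (qc * pe * qf + qc * pf * qe + qe * pc * qf)) * Com_two

private theorem Com_z {x : Rq} (h : x.a ≠ 0) : x = ⟨x.a, x.a * (x.a ^ 2 * x.b)⟩ := by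
  ext
  · rfl
  · linear_combination - x.b * F4.pow3 h

private theorem Com_eqn {a b la l : F4} (h : a ≠ 0) : b = la * a ^ 2 + l * a ↔ a ^ 2 * b = la * a + l := by
  have h3 := F4.pow3 h
  constructor
  · intro h1
    rw [h1]
    linear_combination la * F4.pow4 a + l * h3
  · intro h1
    linear_combination a * h1 - b * h3

theorem com_col {pc pe pf qc qe qf : Rq} (h1 : pc.a ≠ 0) (h2 : pe.a ≠ 0) (h3 : pf.a ≠ 0) (h4 : qc.a ≠ 0) (h5 : qe.a ≠ 0)
    (h6 : qf.a ≠ 0) (h7 : pc.a * qe.a ≠ pe.a * qc.a) (h8 : pc.a * qf.a ≠ pf.a * qc.a) (h9 : pe.a * qf.a ≠ pf.a * qe.a) :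
    Commute (Ring.inverse pc * pe * Ring.inverse qe * qc) (Ring.inverse pc * pf * Ring.inverse qf * qc) ↔
      ∃ la lb lc le lf : F4, pc.b = la * pc.a ^ 2 + lc * pc.a ∧ pe.b = la * pe.a ^ 2 + le * pe.a ∧
        pf.b = la * pf.a ^ 2 + lf * pf.a ∧ qc.b = lb * qc.a ^ 2 + lc * qc.a ∧ qe.b = lb * qe.a ^ 2 + le * qe.a ∧
        qf.b = lb * qf.a ^ 2 + lf * qf.a := by
  rw [Com_inv h1, Com_inv h5, Com_inv h6]
  have h := (Com_det (x1 := pc.a ^ 2 * pc.b) (x2 := pe.a ^ 2 * pe.b) (x3 := pf.a ^ 2 * pf.b) (y1 := qc.a ^ 2 * qc.b)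
    (y2 := qe.a ^ 2 * qe.b) (y3 := qf.a ^ 2 * qf.b) h1 h2 h3 h4 h5 h6).trans (Com_solve h7)
  rw [← Com_z h1, ← Com_z h2, ← Com_z h3, ← Com_z h4, ← Com_z h5, ← Com_z h6] at h
  rw [h]
  simp only [Com_eqn h1, Com_eqn h2, Com_eqn h3, Com_eqn h4, Com_eqn h5, Com_eqn h6]

private theorem Com_sq : ∀ {x y : F4}, x ≠ y → x ^ 2 ≠ y ^ 2 := by decide

private theorem Com_star_inv {x : Rq} (h : x.a ≠ 0) : Ring.inverse (star x) = star (Ring.inverse x) := by
  have h' : (star x).a ≠ 0 := pow_ne_zero 2 h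
  rw [Com_inv h, Com_inv h']

theorem com_row {pe pf qe qf se sf : Rq} (h1 : pe.a ≠ 0) (h2 : pf.a ≠ 0) (h3 : qe.a ≠ 0) (h4 : qf.a ≠ 0) (h5 : se.a ≠ 0)
    (h6 : sf.a ≠ 0) (h7 : pe.a * qf.a ≠ pf.a * qe.a) (h8 : pe.a * sf.a ≠ pf.a * se.a) (h9 : qe.a * sf.a ≠ qf.a * se.a) :
    Commute (pe * Ring.inverse qe * qf * Ring.inverse pf) (pe * Ring.inverse se * sf * Ring.inverse pf) ↔
      ∃ la lb lc le lf : F4, pe.b = la * pe.a ^ 2 + le * pe.a ∧ pf.b = la * pf.a ^ 2 + lf * pf.a ∧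
        qe.b = lb * qe.a ^ 2 + le * qe.a ∧ qf.b = lb * qf.a ^ 2 + lf * qf.a ∧ se.b = lc * se.a ^ 2 + le * se.a ∧
        sf.b = lc * sf.a ^ 2 + lf * sf.a := by
  have hs : ∀ {x : Rq}, x.a ≠ 0 → (star x).a ≠ 0 := fun h => pow_ne_zero 2 h
  have k7 : (star pf).a * (star qe).a ≠ (star qf).a * (star pe).a := by
    rw [Rq.star_a, Rq.star_a, Rq.star_a, Rq.star_a, ← mul_pow, ← mul_pow]
    refine Com_sq fun h => h7 ?_
    rw [h, mul_comm]
  have k8 : (star pf).a * (star se).a ≠ (star sf).a * (star pe).a := by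
    rw [Rq.star_a, Rq.star_a, Rq.star_a, Rq.star_a, ← mul_pow, ← mul_pow]
    refine Com_sq fun h => h8 ?_
    rw [h, mul_comm]
  have k9 : (star qf).a * (star se).a ≠ (star sf).a * (star qe).a := by
    rw [Rq.star_a, Rq.star_a, Rq.star_a, Rq.star_a, ← mul_pow, ← mul_pow]
    refine Com_sq fun h => h9 ?_
    rw [h, mul_comm]
  have h := com_col (hs h2) (hs h4) (hs h6) (hs h1) (hs h3) (hs h5) k7 k8 k9
  rw [Com_star_inv h2, Com_star_inv h3, Com_star_inv h5] at h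
  have hX : star (Ring.inverse pf) * star qf * star (Ring.inverse qe) * star pe =
      star (pe * Ring.inverse qe * qf * Ring.inverse pf) := by
    simp only [star_mul, mul_assoc]
  have hY : star (Ring.inverse pf) * star sf * star (Ring.inverse se) * star pe =
      star (pe * Ring.inverse se * sf * Ring.inverse pf) := by
    simp only [star_mul, mul_assoc]
  rw [hX, hY, commute_star_star] at h
  rw [h]
  simp only [Rq.star_a, Rq.star_b, F4.pow22]
  constructor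
  · rintro ⟨la, lb, lc, le, lf, e1, e2, e3, e4, e5, e6⟩
    refine ⟨lc, le, lf, lb, la, ?_, ?_, ?_, ?_, ?_, ?_⟩
    · rw [e4, add_comm]
    · rw [e1, add_comm]
    · rw [e5, add_comm]
    · rw [e2, add_comm]
    · rw [e6, add_comm]
    · rw [e3, add_comm]
  · rintro ⟨la, lb, lc, le, lf, e1, e2, e3, e4, e5, e6⟩
    refine ⟨lf, le, la, lb, lc, ?_, ?_, ?_, ?_, ?_, ?_⟩
    · rw [e2, add_comm]
    · rw [e4, add_comm]
    · rw [e6, add_comm]
    · rw [e1, add_comm]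
    · rw [e3, add_comm]
    · rw [e5, add_comm]

end Pool.Agent.QUE
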