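import Pool.Agent.QUE.Defs
import Pool.Agent.QUS.Bas
import Pool.Agent.QUS.Rd
import Pool.Agent.FRM.Qdt

/-!
# QUE/Dc: maximal minors of the standard matrices of a submodule over the Hurwitz integers

`mm Λ σ g` has the rows `σ k` (an enumeration of the basis `S = im σ`) and the columns `g l`.  `dc_one`: `mm` is a permutation matrix: `σ = g ∘ π`; `(1 : Matrix).submatrix`, `dC_perm`, `dC_one`.
`dc_piv`: `mm Λ (update σ k₀ e) g = P * mm Λ σ g`, `P` = identity with the column `k₀` replaced by (`inv u` at `k₀`, `- fv Λ S a e * inv u` at the row of `a`), `u = fv Λ S b e` (`piv_new`, `piv_old`); `dC P = normSq (emb (inv u)) = 1` (`dC_updateCol` for the identity), `dC_mul`.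
`dc_zero_row`: `dC_zero_row`; `dc_zero_col`: `g` not injective: two equal columns of the complex matrix (`Matrix.det_zero_of_column_eq`).
`dc_enum`: two enumerations of the same `S` differ by a permutation (`dC_perm`).
`dc_one_col`: `g = update σ k₀ e`: `mm` is the identity with the column `k₀` replaced, `dC` = `normSq` of the entry (for example `dC_row`/`dC_updateCol`: the rows `k ≠ k₀`.. or expand the complex determinant).
-/

set_option autoImplicit false

noncomputable section

open scoped Classical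

namespace Pool.Agent.QUE

open Pool.Agent.FRM Pool.Agent.QUS

variable {E : Type}

/-- the matrix with the rows `σ k` of the basis `S` and the columns `g l` -/
def mm (Λ : Submodule Hz (E → Hz)) (S : Finset E) {r : ℕ} (σ g : Fin r → E) : Matrix (Fin r) (Fin r) Hq :=
  Matrix.of fun k l => emb (fv Λ S (σ k) (g l))

variable {Λ : Submodule Hz (E → Hz)} {S : Finset E} {r : ℕ} {σ σ' g : Fin r → E} {k₀ : Fin r} {b e : E}

theorem normSq_emb (x : Hz) : Quaternion.normSq (emb x) = (x.N : ℚ) := by
  have h : emb x = (⟨x.a - x.d / 2, x.b + x.d / 2, x.c + x.d / 2, x.d / 2⟩ : Hq) := rfl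
  rw [h, Quaternion.normSq_def']
  unfold Hz.N
  push_cast
  ring

private theorem Dc_mm (k l : Fin r) : mm Λ S σ g k l = emb (fv Λ S (σ k) (g l)) := rfl

private theorem Dc_perm (h : Function.Injective σ) (hS : Finset.univ.image σ = S) (h' : Function.Injective σ')
    (hS' : Finset.univ.image σ' = S) : ∃ π : Equiv.Perm (Fin r), ∀ k, σ (π k) = σ' k := by
  have hex : ∀ k, ∃ l, σ l = σ' k := by
    intro k
    have hk : σ' k ∈ Finset.univ.image σ := by
      rw [hS, ← hS']
      exact Finset.mem_image_of_mem _ (Finset.mem_univ k)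
    obtain ⟨l, -, hl⟩ := Finset.mem_image.1 hk
    exact ⟨l, hl⟩
  choose f hf using hex
  have hinj : Function.Injective f := by
    intro a c hac
    apply h'
    rw [← hf a, ← hf c, hac]
  exact ⟨Equiv.ofBijective f (Finite.injective_iff_bijective.1 hinj), fun k => hf k⟩

theorem dc_enum (h : Function.Injective σ) (hS : Finset.univ.image σ = S) (h' : Function.Injective σ')
    (hS' : Finset.univ.image σ' = S) : dC (mm Λ S σ g) = dC (mm Λ S σ' g) := by
  obtain ⟨π, hπ⟩ := Dc_perm h hS h' hS'
  have h1 : mm Λ S σ' g = (mm Λ S σ g).submatrix π id := by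
    ext1 k l
    rw [Matrix.submatrix_apply, Dc_mm, Dc_mm, hπ k]
    rfl
  rw [h1, (dC_perm (mm Λ S σ g) π).2]

private theorem Dc_mem (hS : Finset.univ.image σ = S) (k : Fin r) : σ k ∈ S := by
  rw [← hS]
  exact Finset.mem_image_of_mem _ (Finset.mem_univ k)

private theorem Dc_id (hΛ : IsB Λ S) (h : Function.Injective σ) (hS : Finset.univ.image σ = S) (k l : Fin r) :
    emb (fv Λ S (σ k) (σ l)) = (1 : Matrix (Fin r) (Fin r) Hq) k l := by
  by_cases hkl : k = l
  · subst hkl
    rw [fv_self hΛ (Dc_mem hS k), map_one, Matrix.one_apply_eq]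
  · rw [fv_oth hΛ (Dc_mem hS k) (Dc_mem hS l) fun hh => hkl (h hh).symm, map_zero, Matrix.one_apply_ne hkl]

theorem dc_one (hΛ : IsB Λ S) (h : Function.Injective σ) (hS : Finset.univ.image σ = S) (hg : Function.Injective g)
    (hgS : Finset.univ.image g = S) : dC (mm Λ S σ g) = 1 := by
  obtain ⟨π, hπ⟩ := Dc_perm h hS hg hgS
  have h1 : mm Λ S σ g = (1 : Matrix (Fin r) (Fin r) Hq).submatrix id π := by
    ext1 k l
    rw [Matrix.submatrix_apply, Dc_mm, ← hπ l, Dc_id hΛ h hS]
    rfl
  rw [h1, (dC_perm (1 : Matrix (Fin r) (Fin r) Hq) π).1, dC_one]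

theorem dc_zero_row (k : Fin r) (h : ∀ l, fv Λ S (σ k) (g l) = 0) : dC (mm Λ S σ g) = 0 := by
  refine dC_zero_row _ k fun l => ?_
  rw [Dc_mm, h l, map_zero]

theorem dc_zero_col (h : ¬ Function.Injective g) : dC (mm Λ S σ g) = 0 := by
  unfold Function.Injective at h
  push Not at h
  obtain ⟨l, l', hg, hl⟩ := h
  unfold dC
  refine Matrix.det_zero_of_column_eq (i := (l, (0 : Fin 2))) (j := (l', (0 : Fin 2)))
    (fun hh => hl (congrArg Prod.fst hh)) fun k => ?_
  show cq (mm Λ S σ g k.1 l) k.2 0 = cq (mm Λ S σ g k.1 l') k.2 0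
  rw [Dc_mm, Dc_mm, hg]

private theorem Dc_upd (k₀ : Fin r) (x : Fin r → Hq) (hx : Quaternion.normSq (x k₀) = 1) :
    dC ((1 : Matrix (Fin r) (Fin r) Hq).updateCol k₀ x) = 1 := by
  have h := dC_updateCol (1 : Matrix (Fin r) (Fin r) Hq) k₀ x hx
  have h2 : (fun i => ∑ k, (1 : Matrix (Fin r) (Fin r) Hq) i k * x k) = x := by
    funext i
    rw [Finset.sum_eq_single i]
    · rw [Matrix.one_apply_eq, one_mul]
    · intro k _ hk
      rw [Matrix.one_apply_ne hk.symm, zero_mul]
    · intro hi
      exact absurd (Finset.mem_univ i) hi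
  rw [h2, dC_one] at h
  exact h

private theorem Dc_mul (k₀ : Fin r) (x : Fin r → Hq) (M : Matrix (Fin r) (Fin r) Hq) (k l : Fin r) :
    ((1 : Matrix (Fin r) (Fin r) Hq).updateCol k₀ x * M) k l = (if k = k₀ then 0 else M k l) + x k * M k₀ l := by
  rw [Matrix.mul_apply]
  have h1 : ∀ j, (1 : Matrix (Fin r) (Fin r) Hq).updateCol k₀ x k j * M j l =
      (if j = k then (if k = k₀ then 0 else M k l) else 0) + if j = k₀ then x k * M k₀ l else 0 := by
    intro j
    by_cases hj : j = k₀
    · subst hj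
      rw [Matrix.updateCol_self, if_pos rfl]
      by_cases hk : j = k
      · rw [if_pos hk, if_pos hk.symm, zero_add]
      · rw [if_neg hk, zero_add]
    · rw [Matrix.updateCol_ne hj, if_neg hj, add_zero]
      by_cases hk : j = k
      · subst hk
        rw [Matrix.one_apply_eq, one_mul, if_pos rfl, if_neg hj]
      · rw [Matrix.one_apply_ne (Ne.symm hk), zero_mul, if_neg hk]
  rw [Finset.sum_congr rfl fun j _ => h1 j, Finset.sum_add_distrib, Finset.sum_ite_eq', Finset.sum_ite_eq',
    if_pos (Finset.mem_univ _), if_pos (Finset.mem_univ _)]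

theorem dc_piv (hΛ : IsB Λ S) (h : Function.Injective σ) (hS : Finset.univ.image σ = S) (hb : σ k₀ = b) (he : e ∉ S)
    (hu : IsUnit (fv Λ S b e)) :
    dC (mm Λ (pv S b e) (Function.update σ k₀ e) g) = dC (mm Λ S σ g) := by
  have hbS : b ∈ S := hb ▸ Dc_mem hS k₀
  set x : Fin r → Hq := fun k => if k = k₀ then emb (Ring.inverse (fv Λ S b e)) else
    -emb (fv Λ S (σ k) e * Ring.inverse (fv Λ S b e)) with hx
  have hx0 : Quaternion.normSq (x k₀) = 1 := by
    have h1 : x k₀ = emb (Ring.inverse (fv Λ S b e)) := if_pos rfl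
    rw [h1, normSq_emb, hz_unit.1 hu.ringInverse]
    norm_num
  have hM : mm Λ (pv S b e) (Function.update σ k₀ e) g = (1 : Matrix (Fin r) (Fin r) Hq).updateCol k₀ x * mm Λ S σ g := by
    ext1 k l
    rw [Dc_mul, Dc_mm]
    by_cases hk : k = k₀
    · subst hk
      rw [Function.update_self, piv_new hΛ hbS he hu, if_pos rfl, zero_add, Dc_mm, hb]
      have h1 : x k = emb (Ring.inverse (fv Λ S b e)) := if_pos rfl
      rw [h1, Pi.smul_apply, smul_eq_mul, map_mul]
    · have h1 : x k = -emb (fv Λ S (σ k) e * Ring.inverse (fv Λ S b e)) := if_neg hk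
      have h2 : σ k ≠ b := by
        intro hh
        exact hk (h (hh.trans hb.symm))
      rw [Function.update_of_ne hk, piv_old hΛ hbS he hu (Dc_mem hS k) h2, if_neg hk, Dc_mm, Dc_mm, h1, hb]
      rw [Pi.sub_apply, Pi.smul_apply, smul_eq_mul, map_sub, map_mul, neg_mul, sub_eq_add_neg]
  rw [hM, dC_mul, Dc_upd k₀ x hx0, one_mul]

theorem dc_one_col (hΛ : IsB Λ S) (h : Function.Injective σ) (hS : Finset.univ.image σ = S) (he : e ∉ S) :
    dC (mm Λ S σ (Function.update σ k₀ e)) = ((fv Λ S (σ k₀) e).N : ℂ) := by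
  have hM : mm Λ S σ (Function.update σ k₀ e) =
      (1 : Matrix (Fin r) (Fin r) Hq).updateCol k₀ fun k => emb (fv Λ S (σ k) e) := by
    ext1 k l
    rw [Dc_mm]
    by_cases hl : l = k₀
    · subst hl
      rw [Function.update_self, Matrix.updateCol_self]
    · rw [Function.update_of_ne hl, Matrix.updateCol_ne hl, Dc_id hΛ h hS]
  rw [hM]
  clear hM
  cases r with
  | zero => exact k₀.elim0
  | succ m =>
    rw [dC_row _ k₀ k₀ (by
      intro j hj
      rw [Matrix.updateCol_ne hj, Matrix.one_apply_ne (Ne.symm hj)]), Matrix.updateCol_self, normSq_emb]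
    have h3 : ((1 : Matrix (Fin (m + 1)) (Fin (m + 1)) Hq).updateCol k₀ fun k => emb (fv Λ S (σ k) e)).submatrix
        k₀.succAbove k₀.succAbove = 1 := by
      ext1 k l
      rw [Matrix.submatrix_apply, Matrix.updateCol_ne (Fin.succAbove_ne k₀ l), Matrix.one_apply, Matrix.one_apply]
      by_cases hkl : k = l
      · rw [if_pos hkl, if_pos (congrArg _ hkl)]
      · rw [if_neg hkl, if_neg fun hh => hkl (Fin.succAbove_right_injective hh)]
    rw [h3, dC_one, mul_one]
    push_cast
    rfl

end Pool.Agent.QUE
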