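import Pool.Agent.QUS.Defs
import Pool.Agent.QUL.LDefs
import Pool.Agent.QUB.Defs

/-!
# QUE: the dictionary (layer E of (Q4), MP_f270bf_lc; text /team-store/qu_E.md). Definitions

`L ≤ E → F4` the row space of a matrix over `F4`, `fro L` its Frobenius twist (entrywise squares), `ort U` the orthogonal space,
`rk L` the rank function, `IsB L S` (QUS) the bases.  The twisted pair of `L` (QUL) is `U = L`, `W = ort (fro L)`, `r = rk L`.
For a bilinear form `T` the left `Rq`-submodule `Gm L T = {v + x ε : v ∈ L, ∑ x e * d e = T v d for d ∈ W}` has the same bases as `L`.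
-/

set_option autoImplicit false

noncomputable section

open scoped Classical

namespace Pool.Agent.QUE

open Pool.Agent.FRM Pool.Agent.QUS
open Pool.Agent.QU (Fm van spt dg EqOn EqD InV TP Itv Sub Rich InVs)

theorem F4.add_self (x : F4) : x + x = 0 := by
  revert x
  decide

theorem F4.pow4 (x : F4) : x ^ 4 = x := by
  revert x
  decide

theorem F4.pow22 (x : F4) : (x ^ 2) ^ 2 = x := by
  revert x
  decide

theorem F4.add_sq (x y : F4) : (x + y) ^ 2 = x ^ 2 + y ^ 2 := by
  revert x y
  decide

theorem F4.pow3 {x : F4} (h : x ≠ 0) : x ^ 3 = 1 := by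
  revert x
  decide

section

variable {E : Type}

/-- the rank function of the matroid of a subspace -/
def rk {K : Type} [Field K] (L : Submodule K (E → K)) (A : Finset E) : ℤ :=
  (Module.finrank K L : ℤ) - Module.finrank K (van L A)

/-- the row space of the matrix `(I | D)` with the rows `R` and the columns `Rᶜ` -/
def rowL {H : Type} [Ring H] (D : E → E → H) (R : Finset E) : Submodule H (E → H) where
  carrier := {v | ∀ j, j ∉ R → v j = ∑ i ∈ R, v i * D i j}
  add_mem' := by
    intro v w hv hw j hj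
    rw [Pi.add_apply, hv j hj, hw j hj, ← Finset.sum_add_distrib]
    exact Finset.sum_congr rfl fun i _ => by rw [Pi.add_apply, add_mul]
  zero_mem' := fun j _ => by simp
  smul_mem' := by
    intro a v hv j hj
    rw [Pi.smul_apply, hv j hj, smul_eq_mul, Finset.mul_sum]
    exact Finset.sum_congr rfl fun i _ => by rw [Pi.smul_apply, smul_eq_mul, mul_assoc]

/-- right multiplication of the coordinates by elements of the ring -/
def scr {H : Type} [Ring H] (u : E → H) : (E → H) →ₗ[H] (E → H) where
  toFun v e := v e * u e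
  map_add' v w := by
    funext e
    exact add_mul _ _ _
  map_smul' a v := by
    funext e
    exact mul_assoc _ _ _

/-- right multiplication of the coordinates by units -/
def scl {H : Type} [Ring H] (Γ : Submodule H (E → H)) (u : E → Hˣ) : Submodule H (E → H) :=
  Γ.map (scr fun e => (u e : H))

/-- the entrywise squares -/
def fro (L : Submodule F4 (E → F4)) : Submodule F4 (E → F4) where
  carrier := {u | ∃ v ∈ L, ∀ e, u e = v e ^ 2}
  add_mem' := by
    rintro u u' ⟨v, hv, h⟩ ⟨v', hv', h'⟩
    exact ⟨v + v', L.add_mem hv hv', fun e => by rw [Pi.add_apply, Pi.add_apply, h, h', F4.add_sq]⟩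
  zero_mem' := ⟨0, L.zero_mem, fun e => by simp⟩
  smul_mem' := by
    rintro a u ⟨v, hv, h⟩
    exact ⟨a ^ 2 • v, L.smul_mem _ hv, fun e => by
      rw [Pi.smul_apply, Pi.smul_apply, h, smul_eq_mul, smul_eq_mul, mul_pow, F4.pow22]⟩

variable [Fintype E]

/-- the orthogonal space -/
def ort (U : Submodule F4 (E → F4)) : Submodule F4 (E → F4) where
  carrier := {d | ∀ v ∈ U, ∑ e, v e * d e = 0}
  add_mem' := by
    intro d d' h h' v hv
    have h1 := congrArg₂ (· + ·) (h v hv) (h' v hv)
    simpa [Finset.sum_add_distrib, mul_add] using h1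
  zero_mem' := fun v _ => by simp
  smul_mem' := by
    intro a d h v hv
    have h1 := congrArg (fun x => a * x) (h v hv)
    simp only [mul_zero, Finset.mul_sum] at h1
    rw [← h1]
    exact Finset.sum_congr rfl fun e _ => by rw [Pi.smul_apply, smul_eq_mul]; ring

/-- the second space of the twisted pair -/
abbrev WW (L : Submodule F4 (E → F4)) : Submodule F4 (E → F4) := ort (fro L)

/-- the fundamental vector of `WW L` (a circuit) of `e ∉ S` with respect to the basis `S` -/
def fc (L : Submodule F4 (E → F4)) (S : Finset E) (e : E) : E → F4 := fun x =>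
  if x = e then 1 else if x ∈ S then fv L S x e ^ 2 else 0

/-- the submodule over `Rq` of a form -/
def Gm (L : Submodule F4 (E → F4)) (T : Fm F4 E) : Submodule Rq (E → Rq) where
  carrier := {x | (fun e => (x e).a) ∈ L ∧ ∀ d ∈ WW L, ∑ e, (x e).b * d e = T (fun e => (x e).a) d}
  add_mem' := by
    rintro x y ⟨hx, hx'⟩ ⟨hy, hy'⟩
    have he : (fun e => ((x + y) e).a) = (fun e => (x e).a) + fun e => (y e).a := rfl
    refine ⟨he ▸ L.add_mem hx hy, fun d hd => ?_⟩
    rw [he, map_add, LinearMap.add_apply, ← hx' d hd, ← hy' d hd, ← Finset.sum_add_distrib]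
    exact Finset.sum_congr rfl fun e _ => by rw [Pi.add_apply, Rq.add_b, add_mul]
  zero_mem' := by
    have he : (fun e => ((0 : E → Rq) e).a) = (0 : E → F4) := rfl
    refine ⟨he ▸ L.zero_mem, fun d _ => ?_⟩
    rw [he, map_zero, LinearMap.zero_apply]
    exact Finset.sum_eq_zero fun e _ => by rw [Pi.zero_apply, Rq.zero_b, zero_mul]
  smul_mem' := by
    rintro c x ⟨hx, hx'⟩
    have he : (fun e => ((c • x) e).a) = c.a • fun e => (x e).a := rfl
    refine ⟨he ▸ L.smul_mem _ hx, fun d hd => ?_⟩
    have h0 : ∑ e, (x e).a ^ 2 * d e = 0 := hd _ ⟨_, hx, fun e => rfl⟩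
    rw [he, map_smul, LinearMap.smul_apply, ← hx' d hd, smul_eq_mul, Finset.mul_sum]
    have h1 : ∀ e, ((c • x) e).b * d e = c.a * ((x e).b * d e) + c.b * ((x e).a ^ 2 * d e) := by
      intro e
      rw [Pi.smul_apply, smul_eq_mul, Rq.mul_b]
      ring
    rw [Finset.sum_congr rfl fun e _ => h1 e, Finset.sum_add_distrib, ← Finset.mul_sum _ _ c.b, h0, mul_zero, add_zero]

theorem mem_gm {L : Submodule F4 (E → F4)} {T : Fm F4 E} {x : E → Rq} :
    x ∈ Gm L T ↔ (fun e => (x e).a) ∈ L ∧ ∀ d ∈ WW L, ∑ e, (x e).b * d e = T (fun e => (x e).a) d := Iff.rfl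

/-- `Γ` reduces to `L`: the bases of `L` are bases of `Γ`, the entries are zero or units and reduce to the entries of `L` -/
def Res (Γ : Submodule Rq (E → Rq)) (L : Submodule F4 (E → F4)) : Prop :=
  ∀ S, IsB L S → IsB Γ S ∧ ∀ b ∈ S, ∀ e, UZ (fv Γ S b e) ∧ (fv Γ S b e).a = fv L S b e

/-- the matroid of the matrix is representable over a field of characteristic zero, with the same nonzero subdeterminants -/
def ChM (D : E → E → F4) (R : Finset E) : Prop :=
  ∃ (K : Type) (_ : Field K) (_ : CharZero K) (A : E → E → K), ∀ (m : ℕ) (f g : Fin m → E), (∀ k, f k ∈ R) → (∀ k, g k ∉ R) →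
    ((Matrix.of fun k l => A (f k) (g l)).det = 0 ↔ (Matrix.of fun k l => D (f k) (g l)).det = 0)

/-- `h` is a valid matrix of Hurwitz integers for `D`: the right residues, all square subdeterminants `1` or `0` -/
def ValZ (D : E → E → F4) (h : E → E → Hz) (R : Finset E) : Prop :=
  (∀ i ∈ R, ∀ j, j ∉ R → (red (h i j)).a = D i j) ∧
    ∀ (m : ℕ) (f g : Fin m → E), (∀ k, f k ∈ R) → (∀ k, g k ∉ R) →
      dC (Matrix.of fun k l => emb (h (f k) (g l))) = if (Matrix.of fun k l => D (f k) (g l)).det = 0 then 0 else 1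

end

end Pool.Agent.QUE
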