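import Pool.Agent.QUE.Defs
import Pool.Agent.QUS.Bas

/-!
# QUE/Rl: row spaces of matrices in standard form (any ring)

`rowL D R = {v | v j = ∑ i ∈ R, v i * D i j for j ∉ R}`: a vector is determined by its coordinates in `R`, which are arbitrary.
-/

set_option autoImplicit false

noncomputable section

open scoped Classical

namespace Pool.Agent.QUE

open Pool.Agent.QUS

variable {H : Type} [Ring H] {E : Type} {D : E → E → H} {R : Finset E} {i j : E}

/-- the row `b` -/
private def Rl_row (D : E → E → H) (R : Finset E) (b : E) : E → H := fun j =>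
  if j ∈ R then (if j = b then 1 else 0) else D b j

private theorem Rl_out (D : E → E → H) {R : Finset E} {b j : E} (hj : j ∉ R) : Rl_row D R b j = D b j := if_neg hj

private theorem Rl_self (D : E → E → H) {R : Finset E} {b : E} (hb : b ∈ R) : Rl_row D R b b = 1 := by
  unfold Rl_row
  rw [if_pos hb, if_pos rfl]

private theorem Rl_oth (D : E → E → H) {R : Finset E} {b s : E} (hs : s ∈ R) (h : s ≠ b) : Rl_row D R b s = 0 := by
  unfold Rl_row
  rw [if_pos hs, if_neg h]

private theorem Rl_mem (D : E → E → H) {R : Finset E} {b : E} (hb : b ∈ R) : Rl_row D R b ∈ rowL D R := by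
  intro j hj
  rw [Rl_out D hj, Finset.sum_eq_single b]
  · rw [Rl_self D hb, one_mul]
  · intro c hc hcb
    rw [Rl_oth D hc hcb, zero_mul]
  · intro h
    exact absurd hb h

theorem isB_rowL (D : E → E → H) (R : Finset E) : IsB (rowL D R) R := by
  constructor
  · intro v hv h0
    funext j
    by_cases hj : j ∈ R
    · exact h0 j hj
    · rw [hv j hj]
      exact Finset.sum_eq_zero fun i hi => by rw [h0 i hi, zero_mul]
  · intro b hb
    exact ⟨Rl_row D R b, Rl_mem D hb, Rl_self D hb, fun s hs h => Rl_oth D hs h⟩

theorem fv_rowL (hi : i ∈ R) (hj : j ∉ R) : fv (rowL D R) R i j = D i j := by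
  rw [fv_uniq (isB_rowL D R) hi (Rl_mem D hi) (Rl_self D hi) (fun s hs h => Rl_oth D hs h), Rl_out D hj]

theorem rowL_congr {D' : E → E → H} (h : ∀ i ∈ R, ∀ j, j ∉ R → D i j = D' i j) : rowL D R = rowL D' R := by
  ext v
  have e : ∀ j, j ∉ R → ∑ i ∈ R, v i * D i j = ∑ i ∈ R, v i * D' i j := fun j hj =>
    Finset.sum_congr rfl fun i hi => by rw [h i hi j hj]
  constructor
  · intro hv j hj
    rw [hv j hj, e j hj]
  · intro hv j hj
    rw [hv j hj, e j hj]

theorem rowL_fv {Λ : Submodule H (E → H)} (h : IsB Λ R) : rowL (fun i j => fv Λ R i j) R = Λ := by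
  ext v
  constructor
  · intro hv
    have e : v = ∑ c ∈ R, v c • fv Λ R c := by
      funext j
      rw [Finset.sum_apply]
      by_cases hj : j ∈ R
      · rw [Finset.sum_eq_single j]
        · rw [Pi.smul_apply, fv_self h hj, smul_eq_mul, mul_one]
        · intro c hc hcj
          rw [Pi.smul_apply, fv_oth h hc hj (Ne.symm hcj), smul_zero]
        · intro h'
          exact absurd hj h'
      · rw [hv j hj]
        rfl
    rw [e]
    exact Submodule.sum_mem _ fun c hc => Submodule.smul_mem _ _ (fv_mem h hc)
  · intro hv j hj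
    have e := congrFun (expand h hv) j
    rw [Finset.sum_apply] at e
    exact e

end Pool.Agent.QUE
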