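import Pool.Agent.QUE.Rk
import Pool.Agent.QUE.Rl
import Pool.Agent.QUS.Cn

/-!
# QUE/Gc: connectivity

`conn_rowL`: `conn_of_graph` with `S = R` (`isB_rowL`, `fv_rowL`); for `e ∈ R` the entry `fv b e ≠ 0` means `e = b`.
`cn_of_conn`: let `A`, `Aᶜ` be nonempty and suppose `lam A ≤ 0`, that is `rk A + rk Aᶜ ≤ rk univ + rk ∅ = S.card`; take `S` adapted to `A` (`isB_adapt`): `rk A = (S ∩ A).card` (`rk_eq`), `rk Aᶜ ≥ (S ∩ Aᶜ).card` (`rk_le`), so `rk Aᶜ = (S ∩ Aᶜ).card` and `adapt_of_rk` gives that
`fv L S b` (`b ∈ S ∩ A`) vanishes on `Aᶜ`; so `cut A v = ∑ b ∈ S ∩ A, v b • fv L S b ∈ L` for `v ∈ L`; `hC` gives `A = ∅` or `A = univ`.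
-/

set_option autoImplicit false

noncomputable section

open scoped Classical

namespace Pool.Agent.QUE

open Pool.Agent.QUS

variable {E : Type} [Fintype E]

omit [Fintype E] in
private theorem Gc_cut_in {H : Type} [Ring H] {A : Set E} {g : E} (h : g ∈ A) (v : E → H) :
    cut A v g = v g := if_pos h

omit [Fintype E] in
private theorem Gc_cut_out {H : Type} [Ring H] {A : Set E} {g : E} (h : g ∉ A) (v : E → H) :
    cut A v g = 0 := if_neg h

theorem conn_rowL {H : Type} [Ring H] [Nontrivial H] (D : E → E → H) (R : Finset E)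
    (h : ∀ A : Finset E, (∀ i ∈ R, ∀ j, j ∉ R → D i j ≠ 0 → (i ∈ A ↔ j ∈ A)) → A = ∅ ∨ A = Finset.univ) :
    Conn (rowL D R) Finset.univ := by
  refine conn_of_graph (fun v _ e he => absurd (Finset.mem_univ e) he) (isB_rowL D R) ?_
  intro A _ hA
  refine h A fun i hi j hj hne => ?_
  refine hA i hi j (Finset.mem_univ j) ?_
  rw [fv_rowL hi hj]
  exact hne

theorem cn_of_conn {K : Type} [Field K] {L : Submodule K (E → K)} (hC : Conn L Finset.univ) :
    QUB.Cn (rk L) ((∅ : Finset E), Finset.univ) := by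
  intro A _ hA1 hA2
  have hgs : QUB.gs ((∅ : Finset E), Finset.univ) = Finset.univ := by
    unfold QUB.gs
    exact Finset.sdiff_empty
  rw [hgs] at hA2
  by_contra hlam
  obtain ⟨S, hS, hSA⟩ := isB_adapt L A
  have e1 : rk L A = (S ∩ A).card := rk_eq hS hSA
  have e2 : ((S ∩ (Finset.univ \ A)).card : ℤ) ≤ rk L (Finset.univ \ A) := rk_le hS
  have e3 : rk L (Finset.univ : Finset E) = (S ∩ Finset.univ).card :=
    rk_eq hS fun b _ hb => absurd (Finset.mem_univ b) hb
  have e4 : rk L (∅ : Finset E) = (S ∩ ∅).card :=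
    rk_eq hS fun b _ _ e he => absurd he (Finset.notMem_empty e)
  have e5 : (S ∩ A).card + (S ∩ (Finset.univ \ A)).card = S.card := by
    have h1 : S ∩ (Finset.univ \ A) = S \ A := by
      ext x
      simp
    rw [h1]
    exact Finset.card_inter_add_card_sdiff S A
  have e6 : rk L (Finset.univ \ A) = (S ∩ (Finset.univ \ A)).card := by
    unfold QUB.lam at hlam
    dsimp only at hlam
    rw [Finset.empty_union, e1, e3, e4, Finset.inter_univ, Finset.inter_empty, Finset.card_empty] at hlam
    push_cast at hlam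
    omega
  have h6 := adapt_of_rk hS e6
  have hcut : ∀ v ∈ L, cut (A : Set E) v ∈ L := by
    intro v hv
    rw [expand hS hv, map_sum]
    refine Submodule.sum_mem _ fun c hc => ?_
    rw [map_smul]
    refine Submodule.smul_mem _ _ ?_
    by_cases hcA : c ∈ A
    · have h7 : cut (A : Set E) (fv L S c) = fv L S c := by
        funext g
        by_cases hg : g ∈ (A : Set E)
        · exact if_pos hg
        · rw [Gc_cut_out hg]
          refine (h6 c hc (fun h => (Finset.mem_sdiff.1 h).2 hcA) g ?_).symm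
          exact Finset.mem_sdiff.2 ⟨Finset.mem_univ g, fun h => hg (Finset.mem_coe.2 h)⟩
      rw [h7]
      exact fv_mem hS hc
    · have h7 : cut (A : Set E) (fv L S c) = 0 := by
        funext g
        by_cases hg : g ∈ (A : Set E)
        · rw [Gc_cut_in hg]
          exact hSA c hc hcA g (Finset.mem_coe.1 hg)
        · exact if_neg hg
      rw [h7]
      exact Submodule.zero_mem _
  rcases hC A (Finset.subset_univ A) hcut with h | h
  · exact hA1.ne_empty h
  · rw [h, Finset.sdiff_self] at hA2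
    exact Finset.not_nonempty_empty hA2

end Pool.Agent.QUE
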