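import Pool.Agent.QUE.Gb

/-!
# QUE/Gt: every submodule which reduces to `L` comes from a form

`exists_form`: take a basis `B` of `L` (`exists_isB`), `w_b e = (fv Γ B b e).b` and the ambient form `T v d = ∑ b ∈ B, v b * ∑ e, w_b e * d e` (`LinearMap.mk₂`).  `Γ ≤ Gm L T`: for `x ∈ Γ` write `x = ∑ b ∈ B, x b • fv Γ B b` (`expand`);
the `a`-part is `∑ (x b).a • fv L B b ∈ L`, the `b`-part `∑ (x b).a • w_b + (x b).b • (squares of fv L B b)`; the squares are orthogonal to `W`.  Equality: both have the basis `B` (`isB_gm`): for `y ∈ Gm L T` take `x = ∑ y b • fv Γ B b ∈ Γ`, `eq_of_on`.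
`InV`: let `c ∈ L`, `d ∈ W`, `c e * d e = 0` for all `e`, `Z = {e | c e = 0}`; take `S` with `isB_adapt L Z`; for `b ∈ S \ Z` the vector `fv L S b` vanishes on `Z`, so (`Res`: zero or unit with `a`-part zero) `fv Γ S b` vanishes on `Z`;
`x = ∑ b ∈ S \ Z, ⟨c b, 0⟩ • fv Γ S b ∈ Γ` has `a`-part `c` (agree on `S`) and vanishes on `Z`; so `T c d = ∑ (x e).b * d e = 0`.
`isB_of_res`: from `exists_form` and `isB_gm`.
-/

set_option autoImplicit false

noncomputable section

open scoped Classical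

namespace Pool.Agent.QUE

open Pool.Agent.FRM Pool.Agent.QUS
open Pool.Agent.QU (Fm InV)

variable {E : Type} [Fintype E] {L : Submodule F4 (E → F4)} {Γ : Submodule Rq (E → Rq)} {S : Finset E}

private def gtA : Rq →+ F4 where
  toFun x := x.a
  map_zero' := rfl
  map_add' _ _ := rfl

private def gtB : Rq →+ F4 where
  toFun x := x.b
  map_zero' := rfl
  map_add' _ _ := rfl

omit [Fintype E] in
private theorem gt_sum_a (f : E → Rq) (A : Finset E) : (∑ s ∈ A, f s).a = ∑ s ∈ A, (f s).a :=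
  map_sum gtA f A

omit [Fintype E] in
private theorem gt_sum_b (f : E → Rq) (A : Finset E) : (∑ s ∈ A, f s).b = ∑ s ∈ A, (f s).b :=
  map_sum gtB f A

/-- the ambient form of the vectors `w b`, `b ∈ B` -/
private def gtT (B : Finset E) (w : E → E → F4) : Fm F4 E :=
  LinearMap.mk₂ F4 (fun v d => ∑ b ∈ B, v b * ∑ e, w b e * d e)
    (fun v v' d => by
      rw [← Finset.sum_add_distrib]
      exact Finset.sum_congr rfl fun b _ => by rw [Pi.add_apply, add_mul])
    (fun k v d => by
      rw [smul_eq_mul, Finset.mul_sum]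
      exact Finset.sum_congr rfl fun b _ => by rw [Pi.smul_apply, smul_eq_mul, mul_assoc])
    (fun v d d' => by
      rw [← Finset.sum_add_distrib]
      refine Finset.sum_congr rfl fun b _ => ?_
      rw [← mul_add, ← Finset.sum_add_distrib]
      congr 1
      exact Finset.sum_congr rfl fun e _ => by rw [Pi.add_apply, mul_add])
    (fun k v d => by
      rw [smul_eq_mul, Finset.mul_sum]
      refine Finset.sum_congr rfl fun b _ => ?_
      have h : ∑ e, w b e * (k • d) e = k * ∑ e, w b e * d e := by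
        rw [Finset.mul_sum]
        exact Finset.sum_congr rfl fun e _ => by rw [Pi.smul_apply, smul_eq_mul]; ring
      rw [h]
      ring)

private theorem gtT_apply (B : Finset E) (w : E → E → F4) (v d : E → F4) :
    gtT B w v d = ∑ b ∈ B, v b * ∑ e, w b e * d e := rfl

private theorem gt_le {B : Finset E} (hB : IsB L B) (h : Res Γ L) :
    Γ ≤ Gm L (gtT B fun b e => (fv Γ B b e).b) := by
  obtain ⟨hΓ, hf⟩ := h B hB
  intro x hx
  have hexp : ∀ e, x e = ∑ b ∈ B, x b * fv Γ B b e := by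
    intro e
    have h1 := congrFun (expand hΓ hx) e
    rw [Finset.sum_apply] at h1
    exact h1
  have ha : ∀ e, (x e).a = ∑ b ∈ B, (x b).a * fv L B b e := by
    intro e
    rw [hexp e, gt_sum_a]
    exact Finset.sum_congr rfl fun b hb => by rw [Rq.mul_a, (hf b hb e).2]
  have hb : ∀ e, (x e).b = ∑ b ∈ B, ((x b).a * (fv Γ B b e).b + (x b).b * fv L B b e ^ 2) := by
    intro e
    rw [hexp e, gt_sum_b]
    exact Finset.sum_congr rfl fun b hb => by rw [Rq.mul_b, (hf b hb e).2]
  rw [mem_gm]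
  constructor
  · have h1 : (fun e => (x e).a) = ∑ b ∈ B, (x b).a • fv L B b := by
      funext e
      rw [ha e, Finset.sum_apply]
      rfl
    rw [h1]
    exact L.sum_mem fun b hb => L.smul_mem _ (fv_mem hB hb)
  · intro d hd
    rw [gtT_apply]
    have h1 : ∀ e, (x e).b * d e = ∑ b ∈ B, ((x b).a * ((fv Γ B b e).b * d e) +
        (x b).b * (fv L B b e ^ 2 * d e)) := by
      intro e
      rw [hb e, Finset.sum_mul]
      exact Finset.sum_congr rfl fun b _ => by ring
    rw [Finset.sum_congr rfl fun e _ => h1 e, Finset.sum_comm]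
    refine Finset.sum_congr rfl fun b hb => ?_
    have h2 : ∑ e, fv L B b e ^ 2 * d e = 0 := hd _ ⟨fv L B b, fv_mem hB hb, fun e => rfl⟩
    rw [Finset.sum_add_distrib, ← Finset.mul_sum, ← Finset.mul_sum, h2, mul_zero, add_zero]

theorem exists_form (h : Res Γ L) : ∃ T : Fm F4 E, InV L (WW L) (∅, Finset.univ) T ∧ Γ = Gm L T := by
  obtain ⟨B, hB⟩ := exists_isB L
  obtain ⟨hΓ, hf⟩ := h B hB
  have hle := gt_le hB h
  refine ⟨gtT B fun b e => (fv Γ B b e).b, ?_, le_antisymm hle ?_⟩
  · intro c hc d hd hcd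
    obtain ⟨S, hS, hA⟩ := isB_adapt L (Finset.univ.filter fun e => c e = 0)
    obtain ⟨hΓS, hfS⟩ := h S hS
    have hz : ∀ b ∈ S, c b ≠ 0 → ∀ e, c e = 0 → fv Γ S b e = 0 := by
      intro b hb hcb e hce
      have h1 : fv L S b e = 0 := hA b hb (fun h2 => hcb (Finset.mem_filter.1 h2).2) e
        (Finset.mem_filter.2 ⟨Finset.mem_univ e, hce⟩)
      rcases (hfS b hb e).1 with h2 | h2
      · exact h2
      · exact absurd ((hfS b hb e).2.trans h1) (rq_unit.1 h2)
    have hx0 : (∑ b ∈ S.filter (fun b => c b ≠ 0), (⟨c b, 0⟩ : Rq) • fv Γ S b) ∈ Γ :=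
      Γ.sum_mem fun b hb => Γ.smul_mem _ (fv_mem hΓS (Finset.mem_filter.1 hb).1)
    obtain ⟨x, hxdef⟩ : ∃ x, x = ∑ b ∈ S.filter (fun b => c b ≠ 0), (⟨c b, 0⟩ : Rq) • fv Γ S b :=
      ⟨_, rfl⟩
    have hx : x ∈ Γ := by
      rw [hxdef]
      exact hx0
    have hxe : ∀ e, x e = ∑ b ∈ S.filter (fun b => c b ≠ 0), (⟨c b, 0⟩ : Rq) * fv Γ S b e := by
      intro e
      rw [hxdef, Finset.sum_apply]
      rfl
    have hxg := hle hx
    rw [mem_gm] at hxg
    have hv : (fun e => (x e).a) = c := by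
      refine eq_of_on hS hxg.1 hc.1 fun s hs => ?_
      show (x s).a = c s
      rw [hxe s]
      by_cases hcs : c s = 0
      · rw [Finset.sum_eq_zero, Rq.zero_a, hcs]
        intro b hb
        have hb' := Finset.mem_filter.1 hb
        rw [hz b hb'.1 hb'.2 s hcs, mul_zero]
      · rw [Finset.sum_eq_single s]
        · rw [fv_self hΓS hs, mul_one]
        · intro b hb hbs
          rw [fv_oth hΓS (Finset.mem_filter.1 hb).1 hs (fun h2 => hbs h2.symm), mul_zero]
        · intro h2
          exact absurd (Finset.mem_filter.2 ⟨hs, hcs⟩) h2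
    have h3 := hxg.2 d hd.1
    rw [hv] at h3
    rw [← h3]
    refine Finset.sum_eq_zero fun e _ => ?_
    by_cases hce : c e = 0
    · have h4 : x e = 0 := by
        rw [hxe e]
        refine Finset.sum_eq_zero fun b hb => ?_
        have hb' := Finset.mem_filter.1 hb
        rw [hz b hb'.1 hb'.2 e hce, mul_zero]
      rw [h4, Rq.zero_b, zero_mul]
    · have h4 : d e = 0 := by
        rcases mul_eq_zero.1 (hcd e) with h5 | h5
        · exact absurd h5 hce
        · exact h5
      rw [h4, mul_zero]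
  · intro y hy
    have hx : (∑ b ∈ B, y b • fv Γ B b) ∈ Γ :=
      Γ.sum_mem fun b hb => Γ.smul_mem _ (fv_mem hΓ hb)
    have hG : IsB (Gm L (gtT B fun b e => (fv Γ B b e).b)) B := isB_gm.2 hB
    have hyx : y = ∑ b ∈ B, y b • fv Γ B b := by
      refine eq_of_on hG hy (hle hx) fun s hs => ?_
      rw [Finset.sum_apply, Finset.sum_eq_single s]
      · rw [Pi.smul_apply, smul_eq_mul, fv_self hΓ hs, mul_one]
      · intro b hb hbs
        rw [Pi.smul_apply, smul_eq_mul, fv_oth hΓ hb hs (fun h2 => hbs h2.symm), mul_zero]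
      · intro h2
        exact absurd hs h2
    rw [hyx]
    exact hx

theorem isB_of_res (h : Res Γ L) : IsB Γ S ↔ IsB L S := by
  obtain ⟨T, -, hT⟩ := exists_form h
  rw [hT, isB_gm]

end Pool.Agent.QUE
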