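import Pool.Agent.QUE.Bd

/-!
# QUE/Mat: the quaternionic determinants of a right lift

`dc_basis`: `dC (mm Λ S σ g)` does not depend on the basis `S` of `Γ` (with its enumeration): `piv_ind` for `Γ` with `P S' = (IsB Λ S' ∧ ∃ σ', injective, image S', dC (mm Λ S' σ' g) = dC (mm Λ S σ g))`, one step is `dc_piv` (`fv Λ S' b e` is a unit: `unit_of_red`, as `fv Γ S' b e` is a nonzero `UZ`);
enumerations: `dc_enum`.
`dc_val`: `g` injective and `T = im g` a basis of `Γ`: take `S = T`: `dc_one`.  `g` injective, `T` no basis: take a basis `S` of `Γ` with `(S ∩ T).card` maximal; some `b ∈ S \ T` (`S ⊆ T` and equal cardinalities would give `S = T`); for `e ∈ T \ S` the entry `fv Γ S b e` is zero (else `pv S b e` is a better basis), for `e ∈ T ∩ S`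
too; so the row `b` of `mm Λ S σ g` is zero: `dc_zero_row`.  `g` not injective: `dc_zero_col`.
`mat_minor`: `border` and `dc_val` (`IsB Γ _`), and if `f` is not injective two rows are equal (the determinant of the complex matrix with two equal rows), if `g` is not injective two columns.
-/

set_option autoImplicit false

noncomputable section

open scoped Classical

namespace Pool.Agent.QUE

open Pool.Agent.FRM Pool.Agent.QUS

variable {E : Type} {Λ : Submodule Hz (E → Hz)} {Γ : Submodule Rq (E → Rq)} {S S' R : Finset E} {r : ℕ} {σ σ' g : Fin r → E}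

private theorem inj_upd (h1 : Function.Injective σ) (h2 : Finset.univ.image σ = S) {k₀ : Fin r} {e : E} (he : e ∉ S) :
    Function.Injective (Function.update σ k₀ e) := by
  have hne : ∀ k, σ k ≠ e := by
    intro k hk
    apply he
    rw [← h2, ← hk]
    exact Finset.mem_image_of_mem _ (Finset.mem_univ _)
  intro x y hxy
  by_cases hx : x = k₀
  · by_cases hy : y = k₀
    · rw [hx, hy]
    · rw [hx, Function.update_self, Function.update_of_ne hy] at hxy
      exact absurd hxy.symm (hne y)
  · by_cases hy : y = k₀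
    · rw [hy, Function.update_self, Function.update_of_ne hx] at hxy
      exact absurd hxy (hne x)
    · rw [Function.update_of_ne hx, Function.update_of_ne hy] at hxy
      exact h1 hxy

private theorem img_upd (h1 : Function.Injective σ) (h2 : Finset.univ.image σ = S) {k₀ : Fin r} {b e : E}
    (hb : σ k₀ = b) : Finset.univ.image (Function.update σ k₀ e) = pv S b e := by
  ext x
  rw [mem_pv, Finset.mem_image]
  constructor
  · rintro ⟨k, -, rfl⟩
    by_cases hk : k = k₀
    · left
      rw [hk, Function.update_self]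
    · right
      rw [Function.update_of_ne hk, ← h2, ← hb]
      exact ⟨fun h => hk (h1 h), Finset.mem_image_of_mem _ (Finset.mem_univ _)⟩
  · rintro (rfl | ⟨hxb, hx⟩)
    · exact ⟨k₀, Finset.mem_univ _, Function.update_self _ _ _⟩
    · rw [← h2, Finset.mem_image] at hx
      obtain ⟨k, -, rfl⟩ := hx
      refine ⟨k, Finset.mem_univ _, ?_⟩
      have hk : k ≠ k₀ := by
        rintro rfl
        exact hxb hb
      rw [Function.update_of_ne hk]

theorem dc_basis (hU : ∀ S, IsB Γ S → ∀ b ∈ S, ∀ e, UZ (fv Γ S b e)) (h : Right Λ Γ) (hS : IsB Γ S) (hS' : IsB Γ S')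
    (h1 : Function.Injective σ) (h2 : Finset.univ.image σ = S) (h1' : Function.Injective σ')
    (h2' : Finset.univ.image σ' = S') : dC (mm Λ S σ g) = dC (mm Λ S' σ' g) := by
  have key : ∃ τ : Fin r → E, Function.Injective τ ∧ Finset.univ.image τ = S' ∧
      dC (mm Λ S σ g) = dC (mm Λ S' τ g) := by
    refine piv_ind hU (fun S₁ => ∃ τ : Fin r → E, Function.Injective τ ∧ Finset.univ.image τ = S₁ ∧
      dC (mm Λ S σ g) = dC (mm Λ S₁ τ g)) hS ⟨σ, h1, h2, rfl⟩ ?_ hS'
    rintro S₁ hS₁ - ⟨τ, ht1, ht2, ht3⟩ b hb e - he hu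
    obtain ⟨hΛ, hΛ'⟩ := h S₁ hS₁
    obtain ⟨k₀, -, hk₀⟩ := Finset.mem_image.1 (ht2 ▸ hb : b ∈ Finset.univ.image τ)
    have hu' : IsUnit (fv Λ S₁ b e) := by
      refine unit_of_red (hΛ' b hb e).1 ?_
      rw [(hΛ' b hb e).2]
      exact hu.ne_zero
    refine ⟨Function.update τ k₀ e, inj_upd ht1 ht2 he, img_upd ht1 ht2 hk₀, ?_⟩
    rw [ht3, dc_piv hΛ ht1 ht2 hk₀ he hu']
  obtain ⟨τ, ht1, ht2, ht3⟩ := key
  rw [ht3]
  exact dc_enum ht1 ht2 h1' h2'

theorem dc_val (hU : ∀ S, IsB Γ S → ∀ b ∈ S, ∀ e, UZ (fv Γ S b e)) (h : Right Λ Γ) (hS : IsB Γ S)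
    (h1 : Function.Injective σ) (h2 : Finset.univ.image σ = S) :
    dC (mm Λ S σ g) = if Function.Injective g ∧ IsB Γ (Finset.univ.image g) then 1 else 0 := by
  by_cases hgi : Function.Injective g
  · by_cases hT : IsB Γ (Finset.univ.image g)
    · rw [if_pos ⟨hgi, hT⟩, dc_basis hU h hS hT h1 h2 hgi rfl]
      exact dc_one (h _ hT).1 hgi rfl hgi rfl
    · rw [if_neg fun hh => hT hh.2]
      set T : Finset E := Finset.univ.image g with hTdef
      have hTc : T.card = r := by
        rw [hTdef, Finset.card_image_of_injective _ hgi, Finset.card_univ, Fintype.card_fin]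
      have hSc : S.card = r := by
        rw [← h2, Finset.card_image_of_injective _ h1, Finset.card_univ, Fintype.card_fin]
      set P : ℕ → Prop := fun n => ∃ S₁, IsB Γ S₁ ∧ (S₁ ∩ T).card = n with hP
      have hb0 : ∀ S₁ : Finset E, (S₁ ∩ T).card ≤ T.card := fun S₁ => Finset.card_le_card Finset.inter_subset_right
      have hPS : P (S ∩ T).card := ⟨S, hS, rfl⟩
      obtain ⟨S₁, hS₁, hc₁⟩ : P (Nat.findGreatest P T.card) := Nat.findGreatest_spec (hb0 S) hPS
      have hmax : ∀ S₂, IsB Γ S₂ → (S₂ ∩ T).card ≤ (S₁ ∩ T).card := by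
        intro S₂ hS₂
        rw [hc₁]
        exact Nat.le_findGreatest (hb0 S₂) ⟨S₂, hS₂, rfl⟩
      have hS₁c : S₁.card = r := by
        rw [← hSc]
        exact (card_eq hU hS hS₁).symm
      obtain ⟨b, hb, hbT⟩ : ∃ b ∈ S₁, b ∉ T := by
        by_contra hcon
        push_neg at hcon
        have : S₁ = T := Finset.eq_of_subset_of_card_le hcon (by rw [hTc, hS₁c])
        exact hT (this ▸ hS₁)
      obtain ⟨hΛ, hΛ'⟩ := h S₁ hS₁
      have hrow : ∀ e ∈ T, fv Λ S₁ b e = 0 := by
        intro e he
        have heb : e ≠ b := fun hh => hbT (hh ▸ he)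
        by_cases heS : e ∈ S₁
        · exact fv_oth hΛ hb heS heb
        · have h0 : fv Γ S₁ b e = 0 := by
            rcases hU S₁ hS₁ b hb e with h0 | hu
            · exact h0
            · exfalso
              have hp := piv hS₁ hb heS hu
              have hlt : (S₁ ∩ T).card < (pv S₁ b e ∩ T).card := by
                apply Finset.card_lt_card
                rw [Finset.ssubset_iff_of_subset]
                · refine ⟨e, Finset.mem_inter.2 ⟨mem_pv.2 (Or.inl rfl), he⟩, fun hh => heS (Finset.mem_inter.1 hh).1⟩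
                · intro x hx
                  rw [Finset.mem_inter] at hx
                  refine Finset.mem_inter.2 ⟨mem_pv.2 (Or.inr ⟨fun hh => hbT (hh ▸ hx.2), hx.1⟩), hx.2⟩
              exact absurd (hmax _ hp) (not_le.2 hlt)
          refine eq_zero_of_red (hΛ' b hb e).1 ?_
          rw [(hΛ' b hb e).2, h0]
      let eq := (Finset.equivFinOfCardEq hS₁c).symm
      have hi : Function.Injective fun k => (eq k : E) := fun x y hxy => eq.injective (Subtype.ext hxy)
      have him : Finset.univ.image (fun k => (eq k : E)) = S₁ := by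
        ext x
        rw [Finset.mem_image]
        constructor
        · rintro ⟨k, -, rfl⟩
          exact (eq k).2
        · intro hx
          exact ⟨eq.symm ⟨x, hx⟩, Finset.mem_univ _, by rw [Equiv.apply_symm_apply]⟩
      rw [dc_basis hU h hS hS₁ h1 h2 hi him]
      refine dc_zero_row (eq.symm ⟨b, hb⟩) fun l => ?_
      have hbk : ((eq (eq.symm ⟨b, hb⟩) : S₁) : E) = b := by rw [Equiv.apply_symm_apply]
      rw [hbk]
      exact hrow _ (Finset.mem_image_of_mem _ (Finset.mem_univ _))
  · rw [if_neg fun hh => hgi hh.1]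
    exact dc_zero_col hgi

theorem mat_minor (hU : ∀ S, IsB Γ S → ∀ b ∈ S, ∀ e, UZ (fv Γ S b e)) (h : Right Λ Γ) (hR : IsB Γ R) {m : ℕ}
    {f g : Fin m → E} (hf : ∀ k, f k ∈ R) (hg : ∀ k, g k ∉ R) :
    dC (Matrix.of fun k l => emb (fv Λ R (f k) (g l))) = if Function.Injective f ∧ Function.Injective g ∧
      IsB Γ ((R \ Finset.univ.image f) ∪ Finset.univ.image g) then 1 else 0 := by
  by_cases hfi : Function.Injective f
  · by_cases hgi : Function.Injective g
    · obtain ⟨r', σ₁, τ, hs1, hs2, ht1, ht2, hd⟩ := border (h R hR).1 hf hg hfi hgi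
      rw [hd, dc_val hU h hR hs1 hs2, ht2]
      simp only [hfi, hgi, ht1, true_and]
    · rw [if_neg fun hh => hgi hh.2.1]
      rw [Function.not_injective_iff] at hgi
      obtain ⟨x, y, hxy, hne⟩ := hgi
      refine Matrix.det_zero_of_column_eq (i := (x, (0 : Fin 2))) (j := (y, (0 : Fin 2)))
        (fun hh => hne (congrArg Prod.fst hh)) fun k => ?_
      simp only [chi, Matrix.of_apply, hxy]
  · rw [if_neg fun hh => hfi hh.1]
    rw [Function.not_injective_iff] at hfi
    obtain ⟨x, y, hxy, hne⟩ := hfi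
    refine Matrix.det_zero_of_row_eq (i := (x, (0 : Fin 2))) (j := (y, (0 : Fin 2)))
      (fun hh => hne (congrArg Prod.fst hh)) ?_
    funext k
    simp only [chi, Matrix.of_apply, hxy]

end Pool.Agent.QUE
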