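import Pool.Agent.QUE.Nc
import Pool.Agent.QUE.Chr
import Pool.Agent.QUE.Mat
import Pool.Agent.QUE.Gt
import Pool.Agent.QUE.Gc
import Pool.Agent.QUS.Main

/-!
# QUE/Ex: existence of a valid matrix from a form (assembly)
-/

set_option autoImplicit false

noncomputable section

open scoped Classical

namespace Pool.Agent.QUE

open Pool.Agent.FRM Pool.Agent.QUS
open Pool.Agent.QU (Fm InVs InV)

variable {E : Type} [Fintype E]

theorem uz_of_res {Γ : Submodule Rq (E → Rq)} {L : Submodule F4 (E → F4)} (h : Res Γ L) :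
    ∀ S, IsB Γ S → ∀ b ∈ S, ∀ e, UZ (fv Γ S b e) := fun S hS b hb e =>
  ((h S ((isB_of_res h).1 hS)).2 b hb e).1

theorem exZ {D : E → E → F4} {R : Finset E} (hch : ChM D R) (hT : ∃ T, InVs (tp (rowL D R)) (∅, Finset.univ) T) :
    ∃ h : E → E → Hz, ValZ D h R := by
  obtain ⟨T, hT⟩ := hT
  have hI : InV (rowL D R) (WW (rowL D R)) (∅, Finset.univ) T := hT.1
  have hres := res_gm hI
  have hR : IsB (rowL D R) R := isB_rowL D R
  have hRG : IsB (Gm (rowL D R) T) R := isB_gm.2 hR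
  have hD : Dat (Gm (rowL D R) T) Finset.univ :=
    ⟨fun v _ e he => absurd (Finset.mem_univ e) he, ⟨R, hRG⟩, uz_of_res hres, nc_gm hT, ch_of_chM hch T⟩
  obtain ⟨Λ, -, hΛ⟩ := sgn_lift _ _ _ rfl hD
  refine ⟨fun i j => fv Λ R i j, fun i hi j hj => ?_, fun m f g hf hg => ?_⟩
  · rw [((hΛ R hRG).2 i hi j).2, fv_gm_a hR hi j, fv_rowL hi hj]
  · rw [mat_minor hD.uz hΛ hRG hf hg]
    have h1 := det_ne_iff D hf hg
    by_cases h0 : (Matrix.of fun k l => D (f k) (g l)).det = 0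
    · rw [if_pos h0, if_neg]
      rintro ⟨hfi, hgi, hB⟩
      exact h1.2 ⟨hfi, hgi, isB_gm.1 hB⟩ h0
    · rw [if_neg h0, if_pos]
      obtain ⟨hfi, hgi, hB⟩ := h1.1 h0
      exact ⟨hfi, hgi, isB_gm.2 hB⟩

end Pool.Agent.QUE
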