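import Pool.Agent.QUE.Rk

/-!
# QUE/Fc: fundamental circuits

`W = WW L = ort (fro L)`.  The vectors `fc L S e` (`e ∉ S`) are in `W`, a vector of `W` is determined by its coordinates outside of the basis `S`, and
the dimension of the space of the vectors of `W` supported in `G` is `G.card - rk L G` (coordinates in `G \ S` for a basis `S` adapted to `G`).
-/

set_option autoImplicit false

noncomputable section

open scoped Classical

namespace Pool.Agent.QUE

open Pool.Agent.FRM Pool.Agent.QUS
open Pool.Agent.QU (van spt)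

variable {E : Type} [Fintype E] {L : Submodule F4 (E → F4)} {S G : Finset E} {b e x : E}

omit [Fintype E] in
theorem fc_self : fc L S e e = 1 := by
  rw [fc, if_pos rfl]

omit [Fintype E] in
theorem fc_out (hx : x ∉ S) (h : x ≠ e) : fc L S e x = 0 := by
  rw [fc, if_neg h, if_neg hx]

omit [Fintype E] in
theorem fc_in (he : e ∉ S) (hx : x ∈ S) : fc L S e x = fv L S x e ^ 2 := by
  have h : x ≠ e := by
    rintro rfl
    exact he hx
  rw [fc, if_neg h, if_pos hx]

/-- squaring -/
private def fcSq : F4 →+ F4 where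
  toFun x := x ^ 2
  map_zero' := by decide
  map_add' x y := F4.add_sq x y

omit [Fintype E] in
private theorem fc_sum_sq (f : E → F4) (T : Finset E) : (∑ s ∈ T, f s) ^ 2 = ∑ s ∈ T, f s ^ 2 := by
  exact map_sum fcSq f T

theorem fc_mem (hS : IsB L S) (he : e ∉ S) : fc L S e ∈ WW L := by
  rintro u ⟨v, hv, hu⟩
  have h1 : v e = ∑ s ∈ S, v s * fv L S s e := by
    have h := congrFun (expand hS hv) e
    rw [Finset.sum_apply] at h
    exact h
  have h2 : ∑ x, u x * fc L S e x = ∑ x ∈ insert e S, u x * fc L S e x := by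
    symm
    refine Finset.sum_subset (Finset.subset_univ _) fun x _ hx => ?_
    rw [Finset.mem_insert, not_or] at hx
    rw [fc_out hx.2 hx.1, mul_zero]
  rw [h2, Finset.sum_insert he, fc_self, mul_one, hu]
  have h3 : ∑ x ∈ S, u x * fc L S e x = (v e) ^ 2 := by
    rw [h1, fc_sum_sq]
    refine Finset.sum_congr rfl fun x hx => ?_
    rw [hu, fc_in he hx, mul_pow]
  rw [h3]
  exact F4.add_self _

theorem ww_ext (hS : IsB L S) {d d' : E → F4} (hd : d ∈ WW L) (hd' : d' ∈ WW L) (h : ∀ e, e ∉ S → d e = d' e) : d = d' := by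
  have h0 : d - d' ∈ WW L := (WW L).sub_mem hd hd'
  funext x
  by_cases hx : x ∈ S
  · have h1 := h0 (fun y => fv L S x y ^ 2) ⟨fv L S x, fv_mem hS hx, fun _ => rfl⟩
    rw [Finset.sum_eq_single x] at h1
    · rw [fv_self hS hx, one_pow, one_mul, Pi.sub_apply] at h1
      exact sub_eq_zero.1 h1
    · intro y _ hy
      by_cases hyS : y ∈ S
      · rw [fv_oth hS hx hyS hy]
        simp
      · rw [Pi.sub_apply, h y hyS, sub_self, mul_zero]
    · intro hx'
      exact absurd (Finset.mem_univ x) hx'
  · exact h x hx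

theorem fc_expand (hS : IsB L S) {d : E → F4} (hd : d ∈ WW L) : d = ∑ e ∈ Sᶜ, d e • fc L S e := by
  refine ww_ext hS hd ?_ fun x hx => ?_
  · exact Submodule.sum_mem _ fun e he => Submodule.smul_mem _ _ (fc_mem hS (Finset.mem_compl.1 he))
  · rw [Finset.sum_apply, Finset.sum_eq_single x]
    · rw [Pi.smul_apply, fc_self, smul_eq_mul, mul_one]
    · intro y _ hy
      rw [Pi.smul_apply, fc_out hx hy.symm, smul_zero]
    · intro hx'
      exact absurd (Finset.mem_compl.2 hx) hx'

theorem finrank_spt (L : Submodule F4 (E → F4)) (G : Finset E) :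
    (Module.finrank F4 (spt (WW L) G) : ℤ) = G.card - rk L G := by
  obtain ⟨S, hS, hA⟩ := isB_adapt L G
  rw [rk_eq hS hA]
  let φ : spt (WW L) G →ₗ[F4] ({x // x ∈ G \ S} → F4) :=
    { toFun := fun d x => d.1 x.1
      map_add' := fun d d' => rfl
      map_smul' := fun a d => rfl }
  have hinj : Function.Injective φ := by
    rw [injective_iff_map_eq_zero]
    intro d hd
    apply Subtype.ext
    refine ww_ext hS d.2.1 (WW L).zero_mem fun x hx => ?_
    by_cases hxG : x ∈ G
    · exact congrFun hd ⟨x, Finset.mem_sdiff.2 ⟨hxG, hx⟩⟩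
    · exact d.2.2 x hxG
  have hsurj : Function.Surjective φ := by
    intro c
    have hmem : (∑ y : {x // x ∈ G \ S}, c y • fc L S y.1) ∈ spt (WW L) G := by
      refine Submodule.sum_mem _ fun y _ => Submodule.smul_mem _ _ ?_
      obtain ⟨hyG, hyS⟩ := Finset.mem_sdiff.1 y.2
      refine ⟨fc_mem hS hyS, fun x hx => ?_⟩
      have hxy : x ≠ y.1 := by
        rintro rfl
        exact hx hyG
      by_cases hxS : x ∈ S
      · rw [fc_in hyS hxS, hA x hxS hx y.1 hyG]
        decide
      · exact fc_out hxS hxy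
    refine ⟨⟨_, hmem⟩, ?_⟩
    funext x
    show (∑ y : {x // x ∈ G \ S}, c y • fc L S y.1) x.1 = c x
    rw [Finset.sum_apply, Finset.sum_eq_single x]
    · rw [Pi.smul_apply, fc_self, smul_eq_mul, mul_one]
    · intro y _ hy
      have hxy : x.1 ≠ y.1 := fun h => hy (Subtype.ext h.symm)
      rw [Pi.smul_apply, fc_out (Finset.mem_sdiff.1 x.2).2 hxy, smul_zero]
    · intro hx'
      exact absurd (Finset.mem_univ x) hx'
  have h1 := (LinearEquiv.ofBijective φ ⟨hinj, hsurj⟩).finrank_eq
  rw [Module.finrank_fintype_fun_eq_card, Fintype.card_coe] at h1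
  rw [h1]
  have h2 := Finset.card_sdiff_add_card_inter G S
  rw [Finset.inter_comm] at h2
  omega

end Pool.Agent.QUE
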