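import Pool.Agent.QUE.Gc
import Pool.Agent.QUA.Defs

/-!
# QUE/Ho1: separations of order one have blocks of rank one

`R` = the rows, `L = rowL D R`, `fv L R i j = D i j`.  `two`: for `x, x' ∈ A`, `y, y' ∉ A`: `D x y * D x' y' = D x y' * D x' y`.  Otherwise we find a basis `S` with ranks `rk A + rk Aᶜ ≥ R.card + 2`.  (1) `x, x'` rows, `y, y'` columns, nonzero minor: one of the entries is nonzero, say `D x y ≠ 0` (or use
`D x' y`), two pivots give the basis `S = R - x - x' + y + y'` (`isB_pv`, `piv_old_apply`), `(S ∩ Aᶜ).card = (R ∩ Aᶜ).card + 2` (`rk_le`), `rk A ≥ (R ∩ A).card`.  (2) `x, x'` columns, `y, y'` rows: the same with `A`, `Aᶜ` exchanged (`D x y = (D y x)⁻¹`).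
(3) the two types are mixed: then one of the products is zero because of `bip`, the other one, say `D x y * D x' y' ≠ 0`, `x` row, `y` column, `x'` column, `y'` row: `pv R x y` gives `rk Aᶜ ≥ (R ∩ Aᶜ).card + 1`, `pv R y' x'` gives `rk A ≥ (R ∩ A).card + 1`.
`rk univ = R.card` (`rk_eq` or `finrank_eq`), `rk ∅ = 0`.
`lo_of_lam`: if all `D x y` (`x ∈ A`, `y ∉ A`) are zero take `u = v = 0`; otherwise `D i j ≠ 0` and `u x = D x j`, `v y = D i y * (D i j)⁻¹`.
-/

set_option autoImplicit false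

noncomputable section

open scoped Classical

namespace Pool.Agent.QUE

open Pool.Agent.FRM Pool.Agent.QUS

variable {E : Type} [Fintype E]

/-- the rows -/
abbrev rws (t : E → Bool) : Finset E := Finset.univ.filter fun x => t x = true

omit [Fintype E] in
private theorem ho1_card {S B : Finset E} {b e : E} (hb : b ∉ B) (he : e ∈ B) (heS : e ∉ S) :
    (pv S b e ∩ B).card = (S ∩ B).card + 1 := by
  have h1 : pv S b e ∩ B = insert e (S ∩ B) := by
    ext x
    rw [Finset.mem_inter, mem_pv, Finset.mem_insert, Finset.mem_inter]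
    constructor
    · rintro ⟨h | ⟨-, h⟩, h'⟩
      · exact Or.inl h
      · exact Or.inr ⟨h, h'⟩
    · rintro (rfl | ⟨h, h'⟩)
      · exact ⟨Or.inl rfl, he⟩
      · exact ⟨Or.inr ⟨fun hh => hb (hh ▸ h'), h⟩, h'⟩
  rw [h1]
  exact Finset.card_insert_of_notMem fun h => heS (Finset.mem_inter.1 h).1

private theorem ho1_row {t : E → Bool} {x : E} : x ∈ rws t ↔ t x = true := by
  simp [rws]

private theorem ho1_one {D : E → E → F4} {R B : Finset E} {b e : E} (hb : b ∈ R) (he : e ∉ R)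
    (hbB : b ∉ B) (heB : e ∈ B) (h : D b e ≠ 0) : ((R ∩ B).card : ℤ) + 1 ≤ rk (rowL D R) B := by
  have hS := isB_rowL D R
  have h1 : IsB (rowL D R) (pv R b e) := (isB_pv hS hb he).2 (by rw [fv_rowL hb he]; exact h)
  have h2 := rk_le (A := B) h1
  rw [ho1_card hbB heB he] at h2
  exact_mod_cast h2

private theorem ho1_two {D : E → E → F4} {R B : Finset E} {b b' e e' : E} (hb : b ∈ R) (hb' : b' ∈ R)
    (he : e ∉ R) (he' : e' ∉ R) (hbB : b ∉ B) (hbB' : b' ∉ B) (heB : e ∈ B) (heB' : e' ∈ B)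
    (h : D b e ≠ 0) (h2 : D b e * D b' e' ≠ D b' e * D b e') :
    ((R ∩ B).card : ℤ) + 2 ≤ rk (rowL D R) B := by
  have hS := isB_rowL D R
  have hbb : b' ≠ b := by
    rintro rfl
    exact h2 rfl
  have hee : e' ≠ e := by
    rintro rfl
    exact h2 (mul_comm _ _)
  have hne : fv (rowL D R) R b e ≠ 0 := by rw [fv_rowL hb he]; exact h
  have h1 : IsB (rowL D R) (pv R b e) := (isB_pv hS hb he).2 hne
  have h3 : b' ∈ pv R b e := mem_pv.2 (Or.inr ⟨hbb, hb'⟩)
  have h4 : e' ∉ pv R b e := by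
    rw [mem_pv, not_or]
    exact ⟨hee, fun h5 => he' h5.2⟩
  have h5 : fv (rowL D R) (pv R b e) b' e' ≠ 0 := by
    rw [piv_old_apply hS hb he (isUnit_iff_ne_zero.2 hne) hb' hbb]
    unfold sc
    rw [fv_rowL hb' he', fv_rowL hb' he, fv_rowL hb he, fv_rowL hb he', Ring.inverse_eq_inv']
    intro h6
    apply h2
    have h7 : D b' e' = D b' e * (D b e)⁻¹ * D b e' := sub_eq_zero.1 h6
    rw [h7]
    field_simp
  have h6 : IsB (rowL D R) (pv (pv R b e) b' e') := (isB_pv h1 h3 h4).2 h5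
  have h7 := rk_le (A := B) h6
  rw [ho1_card hbB' heB' h4, ho1_card hbB heB he] at h7
  push_cast at h7
  linarith

private theorem ho1_aux {t : E → Bool} {D : E → E → F4} (hm : QUA.Hm t D) {A : Finset E}
    (h : QUB.lam (rk (rowL D (rws t))) ((∅ : Finset E), Finset.univ) A ≤ 1) {x x' y y' : E}
    (hx : x ∈ A) (hx' : x' ∈ A) (hy : y ∉ A) (hy' : y' ∉ A) (h0 : D x y ≠ 0) (h0' : D x' y' ≠ 0) :
    D x y * D x' y' = D x y' * D x' y := by
  by_contra hne
  have hS := isB_rowL D (rws t)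
  have hu : rk (rowL D (rws t)) Finset.univ = (rws t).card := by
    rw [rk_eq hS fun b _ hb => absurd (Finset.mem_univ b) hb, Finset.inter_univ]
  have he : rk (rowL D (rws t)) ∅ = 0 := by
    rw [rk_eq hS fun b _ _ e he => absurd he (Finset.notMem_empty e), Finset.inter_empty]
    rfl
  have h1 : rk (rowL D (rws t)) A + rk (rowL D (rws t)) (Finset.univ \ A) ≤ (rws t).card + 1 := by
    unfold QUB.lam at h
    simp only [Finset.empty_union] at h
    rw [hu, he] at h
    linarith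
  have hc : ((rws t ∩ A).card : ℤ) + (rws t ∩ (Finset.univ \ A)).card = (rws t).card := by
    have h2 : rws t ∩ (Finset.univ \ A) = rws t \ A := by
      ext z
      simp only [Finset.mem_inter, Finset.mem_sdiff, Finset.mem_univ, true_and]
    rw [h2]
    have h3 := Finset.card_inter_add_card_sdiff (rws t) A
    exact_mod_cast h3
  have hA : ∀ {z : E}, z ∉ A → z ∈ Finset.univ \ A := fun hz =>
    Finset.mem_sdiff.2 ⟨Finset.mem_univ _, hz⟩
  have hA' : ∀ {z : E}, z ∈ A → z ∉ Finset.univ \ A := fun hz h => (Finset.mem_sdiff.1 h).2 hz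
  have hinv : ∀ {a b : E}, D a b ≠ 0 → D b a ≠ 0 := by
    intro a b h3
    rw [hm.inv a b]
    exact inv_ne_zero h3
  have htx : t x ≠ t y := fun h3 => h0 (hm.bip x y h3)
  have htx' : t x' ≠ t y' := fun h3 => h0' (hm.bip x' y' h3)
  have hR : ∀ {z : E}, t z = true → z ∈ rws t := fun h3 => ho1_row.2 h3
  have hR' : ∀ {z : E}, t z = false → z ∉ rws t := fun h3 h4 => by
    rw [ho1_row.1 h4] at h3
    exact Bool.noConfusion h3
  have hlA := rk_le (A := A) hS
  have hlB := rk_le (A := Finset.univ \ A) hS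
  cases h3 : t x <;> cases h4 : t x' <;> cases h5 : t y <;> cases h6 : t y' <;>
    simp only [h3, h4, h5, h6, ne_eq, not_true_eq_false] at htx htx'
  · -- columns x, x', rows y, y'
    have h7 : D y x * D y' x' ≠ D y' x * D y x' := by
      intro h8
      apply hne
      rw [hm.inv y x, hm.inv y' x', hm.inv y' x, hm.inv y x', ← mul_inv, ← mul_inv, h8]
    have h8 := ho1_two (hR h5) (hR h6) (hR' h3) (hR' h4) hy hy' hx hx' (hinv h0) h7
    linarith
  · -- column x, row x'
    have h8 := ho1_one (hR h4) (hR' h6) (hA' hx') (hA hy') h0'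
    have h9 := ho1_one (hR h5) (hR' h3) hy hx (hinv h0)
    linarith
  · have h8 := ho1_one (hR h3) (hR' h5) (hA' hx) (hA hy) h0
    have h9 := ho1_one (hR h6) (hR' h4) hy' hx' (hinv h0')
    linarith
  · have h7 : D x y * D x' y' ≠ D x' y * D x y' := fun h8 => hne (by rw [h8, mul_comm])
    have h8 := ho1_two (hR h3) (hR h4) (hR' h5) (hR' h6) (hA' hx) (hA' hx') (hA hy) (hA hy') h0 h7
    linarith

private theorem ho1_all {t : E → Bool} {D : E → E → F4} (hm : QUA.Hm t D) {A : Finset E}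
    (h : QUB.lam (rk (rowL D (rws t))) ((∅ : Finset E), Finset.univ) A ≤ 1) {x x' y y' : E}
    (hx : x ∈ A) (hx' : x' ∈ A) (hy : y ∉ A) (hy' : y' ∉ A) :
    D x y * D x' y' = D x y' * D x' y := by
  by_cases h1 : D x y ≠ 0 ∧ D x' y' ≠ 0
  · exact ho1_aux hm h hx hx' hy hy' h1.1 h1.2
  · by_cases h2 : D x y' ≠ 0 ∧ D x' y ≠ 0
    · exact (ho1_aux hm h hx hx' hy' hy h2.1 h2.2).symm
    · have h3 : D x y * D x' y' = 0 := by
        rw [mul_eq_zero]
        by_contra h4
        exact h1 ⟨fun h5 => h4 (Or.inl h5), fun h5 => h4 (Or.inr h5)⟩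
      have h4 : D x y' * D x' y = 0 := by
        rw [mul_eq_zero]
        by_contra h4
        exact h2 ⟨fun h5 => h4 (Or.inl h5), fun h5 => h4 (Or.inr h5)⟩
      rw [h3, h4]

theorem lo_of_lam {t : E → Bool} {D : E → E → F4} (hm : QUA.Hm t D) {A : Finset E}
    (h : QUB.lam (rk (rowL D (rws t))) ((∅ : Finset E), Finset.univ) A ≤ 1) : QUA.Lo D A (Finset.univ \ A) := by
  by_cases hz : ∀ x ∈ A, ∀ y ∈ Finset.univ \ A, D x y = 0
  · exact ⟨0, 0, fun x hx y hy => by rw [hz x hx y hy, Pi.zero_apply, zero_mul]⟩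
  · push Not at hz
    obtain ⟨i, hi, j, hj, hij⟩ := hz
    refine ⟨fun x => D x j, fun y => D i y * (D i j)⁻¹, fun x hx y hy => ?_⟩
    have h1 := ho1_all hm h hx hi (Finset.mem_sdiff.1 hy).2 (Finset.mem_sdiff.1 hj).2
    show D x y = D x j * (D i y * (D i j)⁻¹)
    rw [← mul_assoc, ← h1, mul_assoc, mul_inv_cancel₀ hij, mul_one]

end Pool.Agent.QUE
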