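import Pool.Agent.QUE.Rk

/-!
# QUE/Ho2: a side on which the Frobenius map acts contains at most two elements of a four point line minor

`ph v e = v e ^ 2 * p e`.  Suppose `Ln (rk L) (∅, univ) N` with `Y` and `a₁, a₂, a₃ ∈ N ∩ A`, `N = {a₁, a₂, a₃, n}`.
(*) for `Z` = `Y` or `Y ∪ {n}` and `v ∈ L`, `v = 0` on `Z` there is `v' ∈ L`, `v' = 0` on `Z`, `v' e = ph v e` for `e ∈ A`.  Proof: if `cut A v ∈ L` take `v' = ph (cut A v)` (`h2`; zero outside of `A`, and on `Z ∩ A`).  Otherwise take `w` from `h1` (`w = ph v` on `A`) and `c` from `h3` with `x := cut A (w - c • v) ∈ L`;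
`v' = x + c • v`: on `A` it is `w - c v + c v = ph v`, on `Z \ A` it is `0 + 0`, on `Z ∩ A` it is `ph v = 0`.
`rk (Y ∪ {i, j}) = rk Y + 2 = rk (Y ∪ N)`, so (`van_of_rk`) (**) a vector of `L` which vanishes on `Y` and at two elements of `N` vanishes on `N`.  There is `u ∈ L`, zero on `Y ∪ {n}`, not zero on `N` (`rk (Y ∪ {n}) < rk (Y ∪ N)`: `rk (insert n Y) ≤ rk Y + 1`, `isRk`; so `van L (Y ∪ N) < van L (Y ∪ {n})`);
by (**) `u a₁, u a₂, u a₃ ≠ 0`.  By (*) `ph u` is on `A` equal to `u' ∈ L`, zero on `Y ∪ {n}`; `u' - c • u` (with `c = u' a₁ / u a₁`) vanishes at `n, a₁`, so on `N`: `u a_i ^ 2 * p a_i = c * u a_i`, `u a_i * p a_i = c` for `i = 1, 2, 3`.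
In the same way take `x ∈ L` zero on `Y ∪ {a₁}`, `x a₂ ≠ 0`, `x a₃ ≠ 0` (as before with `a₁` instead of `n`); (*) for `Z = Y` gives `x'` with `x' = ph x` on `A`, `x' a₁ = 0`, so `x' - d • x` vanishes at `a₁, a₂` and so at `a₃`: `x a₂ * p a₂ = d = x a₃ * p a₃`.  So `x a₂ / x a₃ = p a₃ / p a₂ = u a₂ / u a₃`, and
`u a₃ • x - x a₃ • u` vanishes at `a₂, a₃`, so on `N`; at `a₁`: `x a₃ * u a₁ = 0`: contradiction.
-/

set_option autoImplicit false

noncomputable section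

open scoped Classical

namespace Pool.Agent.QUE

open Pool.Agent.FRM Pool.Agent.QUS

variable {E : Type} [Fintype E]

private theorem Ho2_two {L : Submodule F4 (E → F4)} {N Y : Finset E} (hr : rk L (Y ∪ N) = rk L Y + 2)
    (hp2 : ∀ i ∈ N, ∀ j ∈ N, i ≠ j → rk L (insert i (insert j Y)) = rk L Y + 2) {v : E → F4} (hv : v ∈ L)
    (hY : ∀ e ∈ Y, v e = 0) {i j : E} (hi : i ∈ N) (hj : j ∈ N) (hij : i ≠ j) (h1 : v i = 0) (h2 : v j = 0) :
    ∀ e ∈ N, v e = 0 := by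
  have hsub : insert i (insert j Y) ⊆ Y ∪ N := by
    intro e he
    rw [Finset.mem_insert, Finset.mem_insert] at he
    rcases he with rfl | rfl | he
    · exact Finset.mem_union_right _ hi
    · exact Finset.mem_union_right _ hj
    · exact Finset.mem_union_left _ he
  intro e he
  refine van_of_rk hsub (by rw [hp2 i hi j hj hij, hr]) hv ?_ e (Finset.mem_union_right _ he)
  intro e' he'
  rw [Finset.mem_insert, Finset.mem_insert] at he'
  rcases he' with rfl | rfl | he'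
  · exact h1
  · exact h2
  · exact hY e' he'

private theorem Ho2_ex {L : Submodule F4 (E → F4)} {N Y : Finset E} (hr : rk L (Y ∪ N) = rk L Y + 2)
    (hp2 : ∀ i ∈ N, ∀ j ∈ N, i ≠ j → rk L (insert i (insert j Y)) = rk L Y + 2) {a : E} (ha : a ∈ N) :
    ∃ u ∈ L, (∀ e ∈ Y, u e = 0) ∧ u a = 0 ∧ ∀ j ∈ N, j ≠ a → u j ≠ 0 := by
  have hu := (isRk L).unit Y a
  by_contra hno
  push Not at hno
  have hle : QU.van L (insert a Y) ≤ QU.van L (Y ∪ N) := by
    rintro u ⟨huL, hu0⟩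
    have hY : ∀ e ∈ Y, u e = 0 := fun e he => hu0 e (Finset.mem_insert_of_mem he)
    have ha0 : u a = 0 := hu0 a (Finset.mem_insert_self _ _)
    obtain ⟨j, hj, hja, hj0⟩ := hno u huL hY ha0
    have hN := Ho2_two hr hp2 huL hY ha hj (Ne.symm hja) ha0 hj0
    refine ⟨huL, fun e he => ?_⟩
    rcases Finset.mem_union.1 he with he | he
    · exact hY e he
    · exact hN e he
  have hf := Submodule.finrank_mono hle
  have h3 : rk L (Y ∪ N) ≤ rk L (insert a Y) := by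
    unfold rk
    have : (Module.finrank F4 (QU.van L (insert a Y)) : ℤ) ≤ Module.finrank F4 (QU.van L (Y ∪ N)) := by exact_mod_cast hf
    linarith
  linarith

omit [Fintype E] in
private theorem Ho2_star {L : Submodule F4 (E → F4)} {A : Finset E} {p : E → F4}
    (h1 : ∀ v ∈ L, ∃ w ∈ L, ∀ e ∈ A, w e = v e ^ 2 * p e)
    (h2 : ∀ v ∈ L, (∀ e, e ∉ A → v e = 0) → (fun e => v e ^ 2 * p e) ∈ L)
    (h3 : ∀ v ∈ L, cut (A : Set E) v ∉ L → ∀ w ∈ L, ∃ c : F4, cut (A : Set E) (w - c • v) ∈ L)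
    (Z : Finset E) {v : E → F4} (hv : v ∈ L) (hZ : ∀ e ∈ Z, v e = 0) :
    ∃ v' ∈ L, (∀ e ∈ Z, v' e = 0) ∧ ∀ e ∈ A, v' e = v e ^ 2 * p e := by
  have cA : ∀ (z : E → F4) (e : E), e ∈ A → cut (A : Set E) z e = z e := by
    intro z e he
    exact if_pos (Finset.mem_coe.2 he)
  have cN : ∀ (z : E → F4) (e : E), e ∉ A → cut (A : Set E) z e = 0 := by
    intro z e he
    exact if_neg (fun h => he (Finset.mem_coe.1 h))
  by_cases hc : cut (A : Set E) v ∈ L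
  · refine ⟨_, h2 _ hc (fun e he => cN v e he), fun e he => ?_, fun e he => ?_⟩
    · show cut (A : Set E) v e ^ 2 * p e = 0
      by_cases heA : e ∈ A
      · rw [cA v e heA, hZ e he]
        ring
      · rw [cN v e heA]
        ring
    · show cut (A : Set E) v e ^ 2 * p e = v e ^ 2 * p e
      rw [cA v e he]
  · obtain ⟨w, hw, hwA⟩ := h1 v hv
    obtain ⟨c, hcL⟩ := h3 v hv hc w hw
    have key : ∀ e ∈ A, (cut (A : Set E) (w - c • v) + c • v) e = v e ^ 2 * p e := by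
      intro e he
      rw [Pi.add_apply, cA _ e he, Pi.sub_apply, Pi.smul_apply, smul_eq_mul, sub_add_cancel, hwA e he]
    refine ⟨cut (A : Set E) (w - c • v) + c • v, L.add_mem hcL (L.smul_mem c hv), fun e he => ?_, key⟩
    by_cases heA : e ∈ A
    · rw [key e heA, hZ e he]
      ring
    · rw [Pi.add_apply, cN _ e heA, Pi.smul_apply, hZ e he, smul_zero, add_zero]

theorem no_line {L : Submodule F4 (E → F4)} {A : Finset E} {p : E → F4} (hp : ∀ e, p e ≠ 0)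
    (h1 : ∀ v ∈ L, ∃ w ∈ L, ∀ e ∈ A, w e = v e ^ 2 * p e)
    (h2 : ∀ v ∈ L, (∀ e, e ∉ A → v e = 0) → (fun e => v e ^ 2 * p e) ∈ L)
    (h3 : ∀ v ∈ L, cut (A : Set E) v ∉ L → ∀ w ∈ L, ∃ c : F4, cut (A : Set E) (w - c • v) ∈ L) {N : Finset E}
    (hN : QUB.Ln (rk L) ((∅ : Finset E), Finset.univ) N) : (N ∩ A).card ≤ 2 := by
  by_contra hcon
  have h3c : 2 < (N ∩ A).card := by omega
  obtain ⟨a₁, a₂, a₃, m1, m2, m3, n12, n13, n23⟩ := Finset.two_lt_card_iff.1 h3c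
  obtain ⟨k1, l1⟩ := Finset.mem_inter.1 m1
  obtain ⟨k2, l2⟩ := Finset.mem_inter.1 m2
  obtain ⟨k3, l3⟩ := Finset.mem_inter.1 m3
  obtain ⟨hc4, Y, -, -, hdis, hr, hp2⟩ := hN
  have hsub3 : ({a₁, a₂, a₃} : Finset E) ⊆ N := by
    intro e he
    simp only [Finset.mem_insert, Finset.mem_singleton] at he
    rcases he with rfl | rfl | rfl
    · exact k1
    · exact k2
    · exact k3
  have hcard3 : ({a₁, a₂, a₃} : Finset E).card = 3 := Finset.card_eq_three.2 ⟨a₁, a₂, a₃, n12, n13, n23, rfl⟩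
  obtain ⟨n, hnN, hn3⟩ : ∃ n ∈ N, n ∉ ({a₁, a₂, a₃} : Finset E) := by
    by_contra hno
    push Not at hno
    have := Finset.card_le_card (show N ⊆ ({a₁, a₂, a₃} : Finset E) from hno)
    omega
  simp only [Finset.mem_insert, Finset.mem_singleton, not_or] at hn3
  obtain ⟨q1, q2, q3⟩ := hn3
  obtain ⟨u, huL, huY, hun, hu0⟩ := Ho2_ex hr hp2 hnN
  obtain ⟨u', hu'L, hu'Z, hu'A⟩ := Ho2_star h1 h2 h3 (insert n Y) huL (by
    intro e he
    rcases Finset.mem_insert.1 he with rfl | he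
    · exact hun
    · exact huY e he)
  have ua1 := hu0 a₁ k1 (Ne.symm q1)
  have ua2 := hu0 a₂ k2 (Ne.symm q2)
  have ua3 := hu0 a₃ k3 (Ne.symm q3)
  have hU : ∀ e ∈ N, (u' - (u' a₁ / u a₁) • u) e = 0 := by
    refine Ho2_two hr hp2 (L.sub_mem hu'L (L.smul_mem _ huL)) (fun e he => ?_) hnN k1 q1 ?_ ?_
    · rw [Pi.sub_apply, Pi.smul_apply, hu'Z e (Finset.mem_insert_of_mem he), huY e he, smul_zero, sub_zero]
    · rw [Pi.sub_apply, Pi.smul_apply, hu'Z n (Finset.mem_insert_self _ _), hun, smul_zero, sub_zero]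
    · rw [Pi.sub_apply, Pi.smul_apply, smul_eq_mul, div_mul_cancel₀ _ ua1, sub_self]
  have e2 := hU a₂ k2
  have e3 := hU a₃ k3
  rw [Pi.sub_apply, Pi.smul_apply, smul_eq_mul, hu'A _ l2] at e2
  rw [Pi.sub_apply, Pi.smul_apply, smul_eq_mul, hu'A _ l3] at e3
  set c : F4 := u' a₁ / u a₁
  have f2 : u a₂ * p a₂ = c := by
    have h : u a₂ * (u a₂ * p a₂) = u a₂ * c := by linear_combination e2
    exact mul_left_cancel₀ ua2 h
  have f3 : u a₃ * p a₃ = c := by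
    have h : u a₃ * (u a₃ * p a₃) = u a₃ * c := by linear_combination e3
    exact mul_left_cancel₀ ua3 h
  obtain ⟨x, hxL, hxY, hx1, hx0⟩ := Ho2_ex hr hp2 k1
  obtain ⟨x', hx'L, hx'Y, hx'A⟩ := Ho2_star h1 h2 h3 Y hxL hxY
  have xa2 := hx0 a₂ k2 (Ne.symm n12)
  have xa3 := hx0 a₃ k3 (Ne.symm n13)
  have hX : ∀ e ∈ N, (x' - (x' a₂ / x a₂) • x) e = 0 := by
    refine Ho2_two hr hp2 (L.sub_mem hx'L (L.smul_mem _ hxL)) (fun e he => ?_) k1 k2 n12 ?_ ?_
    · rw [Pi.sub_apply, Pi.smul_apply, hx'Y e he, hxY e he, smul_zero, sub_zero]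
    · rw [Pi.sub_apply, Pi.smul_apply, hx'A _ l1, hx1, smul_zero, sub_zero]
      ring
    · rw [Pi.sub_apply, Pi.smul_apply, smul_eq_mul, div_mul_cancel₀ _ xa2, sub_self]
  have g2 : x' a₂ / x a₂ = x a₂ * p a₂ := by
    rw [hx'A _ l2]
    field_simp
  have g3 := hX a₃ k3
  rw [Pi.sub_apply, Pi.smul_apply, smul_eq_mul, hx'A _ l3, g2] at g3
  have g4 : x a₃ * p a₃ = x a₂ * p a₂ := by
    have h : x a₃ * (x a₃ * p a₃) = x a₃ * (x a₂ * p a₂) := by linear_combination g3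
    exact mul_left_cancel₀ xa3 h
  have g5 : u a₃ * x a₂ = x a₃ * u a₂ := by
    have h : (p a₂ * p a₃) * (u a₃ * x a₂) = (p a₂ * p a₃) * (x a₃ * u a₂) := by
      linear_combination (x a₂ * p a₂) * f3 - (x a₃ * p a₃) * f2 - c * g4
    exact mul_left_cancel₀ (mul_ne_zero (hp a₂) (hp a₃)) h
  have hS : ∀ e ∈ N, (u a₃ • x - x a₃ • u) e = 0 := by
    refine Ho2_two hr hp2 (L.sub_mem (L.smul_mem _ hxL) (L.smul_mem _ huL)) (fun e he => ?_) k2 k3 n23 ?_ ?_
    · rw [Pi.sub_apply, Pi.smul_apply, Pi.smul_apply, hxY e he, huY e he, smul_zero, smul_zero, sub_zero]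
    · rw [Pi.sub_apply, Pi.smul_apply, Pi.smul_apply, smul_eq_mul, smul_eq_mul, g5, sub_self]
    · rw [Pi.sub_apply, Pi.smul_apply, Pi.smul_apply, smul_eq_mul, smul_eq_mul, mul_comm, sub_self]
  have hfin := hS a₁ k1
  rw [Pi.sub_apply, Pi.smul_apply, Pi.smul_apply, hx1, smul_zero, zero_sub, smul_eq_mul, neg_eq_zero] at hfin
  rcases mul_eq_zero.1 hfin with h | h
  · exact xa3 h
  · exact ua1 h

end Pool.Agent.QUE
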