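import Pool.Agent.QUE.Ho1
import Pool.Agent.QUE.Ho2

/-!
# QUE/Ho3: heavy sides

Let `D x y = α x * β y` for `x ∈ A`, `y ∉ A`. A vector `v` belongs to the row space iff `v j = ∑ i ∈ R ∩ A, v i * D i j + θ₂ v * (α j)⁻¹` for the
columns `j ∈ A` and `v j = θ₁ v * β j + ∑ i ∈ R \ A, v i * D i j` for the columns `j ∉ A`, where `θ₁ v = ∑ i ∈ R ∩ A, v i * α i` and
`θ₂ v = ∑ i ∈ R \ A, v i * (β i)⁻¹`. If `insert b A` is balanced, the Frobenius map `v ↦ v ^ 2 p` satisfies the hypotheses of `no_line`.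
-/

set_option autoImplicit false

noncomputable section

open scoped Classical

namespace Pool.Agent.QUE

open Pool.Agent.FRM Pool.Agent.QUS

variable {E : Type} [Fintype E]

omit [Fintype E] in
private theorem Ho3_sq (s : Finset E) (f : E → F4) : (∑ i ∈ s, f i) ^ 2 = ∑ i ∈ s, f i ^ 2 := by
  induction s using Finset.induction_on with
  | empty => simp
  | insert a s ha ih => rw [Finset.sum_insert ha, Finset.sum_insert ha, F4.add_sq, ih]

private def Ho3_t1 (R A : Finset E) (α v : E → F4) : F4 := ∑ i ∈ R ∩ A, v i * α i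

private def Ho3_t2 (R A : Finset E) (β v : E → F4) : F4 := ∑ i ∈ R \ A, v i * (β i)⁻¹

private theorem Ho3_mem {t : E → Bool} {D : E → E → F4} (hm : QUA.Hm t D) {A : Finset E} {α β : E → F4}
    (hαβ : ∀ x ∈ A, ∀ y, y ∉ A → D x y = α x * β y) (v : E → F4) :
    v ∈ rowL D (rws t) ↔
      (∀ j, j ∉ rws t → j ∈ A → v j = ∑ i ∈ rws t ∩ A, v i * D i j + Ho3_t2 (rws t) A β v * (α j)⁻¹) ∧
      ∀ j, j ∉ rws t → j ∉ A → v j = Ho3_t1 (rws t) A α v * β j + ∑ i ∈ rws t \ A, v i * D i j := by
  have e1 : ∀ j, j ∈ A → ∑ i ∈ rws t \ A, v i * D i j = Ho3_t2 (rws t) A β v * (α j)⁻¹ := by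
    intro j hj
    unfold Ho3_t2
    rw [Finset.sum_mul]
    refine Finset.sum_congr rfl fun i hi => ?_
    rw [hm.inv j i, hαβ j hj i (Finset.mem_sdiff.1 hi).2, mul_inv]
    ring
  have e2 : ∀ j, j ∉ A → ∑ i ∈ rws t ∩ A, v i * D i j = Ho3_t1 (rws t) A α v * β j := by
    intro j hj
    unfold Ho3_t1
    rw [Finset.sum_mul]
    refine Finset.sum_congr rfl fun i hi => ?_
    rw [hαβ i (Finset.mem_inter.1 hi).2 j hj]
    ring
  have e3 : ∀ j, ∑ i ∈ rws t, v i * D i j = ∑ i ∈ rws t ∩ A, v i * D i j + ∑ i ∈ rws t \ A, v i * D i j := fun j =>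
    (Finset.sum_inter_add_sum_sdiff (rws t) A fun i => v i * D i j).symm
  constructor
  · intro hv
    refine ⟨fun j hj hjA => ?_, fun j hj hjA => ?_⟩
    · rw [← e1 j hjA, ← e3 j]
      exact hv j hj
    · rw [← e2 j hjA, ← e3 j]
      exact hv j hj
  · rintro ⟨h1, h2⟩ j hj
    rw [e3 j]
    by_cases hjA : j ∈ A
    · rw [e1 j hjA]
      exact h1 j hj hjA
    · rw [e2 j hjA]
      exact h2 j hj hjA

omit [Fintype E] in
private theorem Ho3_cin {A : Finset E} (v : E → F4) {e : E} (he : e ∈ A) : cut (A : Set E) v e = v e := if_pos he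

omit [Fintype E] in
private theorem Ho3_cout {A : Finset E} (v : E → F4) {e : E} (he : e ∉ A) : cut (A : Set E) v e = 0 := if_neg he

private theorem Ho3_cut {t : E → Bool} {D : E → E → F4} (hm : QUA.Hm t D) {A : Finset E} {α β : E → F4}
    (hαβ : ∀ x ∈ A, ∀ y, y ∉ A → D x y = α x * β y) {v : E → F4} (hv : v ∈ rowL D (rws t)) :
    cut (A : Set E) v ∈ rowL D (rws t) ↔
      (∀ j, j ∉ rws t → j ∈ A → Ho3_t2 (rws t) A β v * (α j)⁻¹ = 0) ∧
      ∀ j, j ∉ rws t → j ∉ A → Ho3_t1 (rws t) A α v * β j = 0 := by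
  have k1 : Ho3_t1 (rws t) A α (cut (A : Set E) v) = Ho3_t1 (rws t) A α v := by
    unfold Ho3_t1
    exact Finset.sum_congr rfl fun i hi => by rw [Ho3_cin v (Finset.mem_inter.1 hi).2]
  have k2 : Ho3_t2 (rws t) A β (cut (A : Set E) v) = 0 := by
    unfold Ho3_t2
    exact Finset.sum_eq_zero fun i hi => by rw [Ho3_cout v (Finset.mem_sdiff.1 hi).2, zero_mul]
  have k3 : ∀ j, ∑ i ∈ rws t ∩ A, cut (A : Set E) v i * D i j = ∑ i ∈ rws t ∩ A, v i * D i j := fun j =>
    Finset.sum_congr rfl fun i hi => by rw [Ho3_cin v (Finset.mem_inter.1 hi).2]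
  have k4 : ∀ j, ∑ i ∈ rws t \ A, cut (A : Set E) v i * D i j = 0 := fun j =>
    Finset.sum_eq_zero fun i hi => by rw [Ho3_cout v (Finset.mem_sdiff.1 hi).2, zero_mul]
  rw [Ho3_mem hm hαβ] at hv
  rw [Ho3_mem hm hαβ, k1, k2]
  constructor
  · rintro ⟨h1, h2⟩
    refine ⟨fun j hj hjA => ?_, fun j hj hjA => ?_⟩
    · have h3 := h1 j hj hjA
      rw [Ho3_cin v hjA, k3, zero_mul, add_zero] at h3
      have h4 := hv.1 j hj hjA
      rw [h3] at h4
      exact left_eq_add.1 h4
    · have h3 := h2 j hj hjA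
      rw [Ho3_cout v hjA, k4, add_zero] at h3
      exact h3.symm
  · rintro ⟨h1, h2⟩
    refine ⟨fun j hj hjA => ?_, fun j hj hjA => ?_⟩
    · rw [Ho3_cin v hjA, k3, zero_mul, add_zero, hv.1 j hj hjA, h1 j hj hjA, add_zero]
    · rw [Ho3_cout v hjA, k4, h2 j hj hjA, add_zero]

/-- the Frobenius map on the columns in `A` -/
private theorem Ho3_fro {t : E → Bool} {D : E → E → F4} {A : Finset E} {p : E → F4}
    (hp2 : ∀ x ∈ A, ∀ y ∈ A, D x y ^ 2 * p y = D x y * p x) (v : E → F4) {j : E} (hj : j ∈ A) :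
    (∑ i ∈ rws t ∩ A, v i * D i j) ^ 2 * p j = ∑ i ∈ rws t ∩ A, v i ^ 2 * p i * D i j := by
  rw [Ho3_sq, Finset.sum_mul]
  refine Finset.sum_congr rfl fun i hi => ?_
  rw [mul_pow, mul_assoc, hp2 i (Finset.mem_inter.1 hi).2 j hj]
  ring

theorem hv_of_line {t : E → Bool} {D : E → E → F4} (hm : QUA.Hm t D) {A : Finset E} (hlo : QUA.Lo D A (Finset.univ \ A))
    {N : Finset E} (hN : QUB.Ln (rk (rowL D (rws t))) ((∅ : Finset E), Finset.univ) N) (h3 : 3 ≤ (N ∩ A).card) {b : E}
    (hbA : b ∉ A) (hb : (∃ i ∈ A, D i b ≠ 0) ∨ ∀ x ∈ A, ∀ y, y ∉ A → D x y = 0) : ¬ QUA.Bal D (insert b A) := by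
  rintro ⟨p, hp, hbal⟩
  obtain ⟨α, β, hαβ'⟩ := hlo
  have hαβ : ∀ x ∈ A, ∀ y, y ∉ A → D x y = α x * β y := fun x hx y hy =>
    hαβ' x hx y (Finset.mem_sdiff.2 ⟨Finset.mem_univ y, hy⟩)
  have hbal2 : ∀ x ∈ insert b A, ∀ y ∈ insert b A, D x y ^ 2 * p y = D x y * p x := by
    intro x hx y hy
    by_cases h0 : D x y = 0
    · rw [h0]
      ring
    · have h1 := hbal x hx y hy h0
      have h2 : D x y * p y = p x := by
        rw [h1, mul_assoc, inv_mul_cancel₀ (hp y), mul_one]
      rw [pow_two, mul_assoc, h2]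
  have hp2 : ∀ x ∈ A, ∀ y ∈ A, D x y ^ 2 * p y = D x y * p x := fun x hx y hy =>
    hbal2 x (Finset.mem_insert_of_mem hx) y (Finset.mem_insert_of_mem hy)
  have hty : ∀ x y, D x y ≠ 0 → t x ≠ t y := fun x y h h' => h (hm.bip x y h')
  have hR : ∀ x, x ∈ rws t ↔ t x = true := fun x => by simp
  -- the element `b` is of the right type
  have hbβ : ∀ x ∈ A, ∀ y, y ∉ A → α x ≠ 0 → β y ≠ 0 → β b ≠ 0 ∧ t b ≠ t x := by
    intro x hx y hy hαx hβy
    have h1 : D x y ≠ 0 := by
      rw [hαβ x hx y hy]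
      exact mul_ne_zero hαx hβy
    rcases hb with ⟨i, hi, hib⟩ | h
    · rw [hαβ i hi b hbA] at hib
      have h2 : β b ≠ 0 := right_ne_zero_of_mul hib
      refine ⟨h2, fun h => ?_⟩
      have h4 : D x b ≠ 0 := by
        rw [hαβ x hx b hbA]
        exact mul_ne_zero hαx h2
      exact hty x b h4 h.symm
    · exact absurd (h x hx y hy) h1
  have key : (N ∩ A).card ≤ 2 := by
    refine no_line (L := rowL D (rws t)) hp ?_ ?_ ?_ hN
    · -- h1
      intro v hv
      obtain ⟨w, hw⟩ : ∃ w : E → F4, w = fun e => if e ∈ A then v e ^ 2 * p e else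
          if e = b then Ho3_t2 (rws t) A β v ^ 2 * β b ^ 2 * p b else 0 := ⟨_, rfl⟩
      have hwA : ∀ e ∈ A, w e = v e ^ 2 * p e := fun e he => by
        rw [hw]
        exact if_pos he
      have hwb : w b = Ho3_t2 (rws t) A β v ^ 2 * β b ^ 2 * p b := by
        rw [hw]
        simp only [if_neg hbA, if_true]
      have hwo : ∀ e, e ∉ A → e ≠ b → w e = 0 := fun e he heb => by
        rw [hw]
        simp only [if_neg he, if_neg heb]
      -- the vector of the row space with the rows of `w`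
      obtain ⟨w', hw'⟩ : ∃ w' : E → F4, w' = fun e => if e ∈ rws t then w e else ∑ i ∈ rws t, w i * D i e := ⟨_, rfl⟩
      have hw'R : ∀ e ∈ rws t, w' e = w e := fun e he => by
        rw [hw']
        exact if_pos he
      have hw'C : ∀ e, e ∉ rws t → w' e = ∑ i ∈ rws t, w i * D i e := fun e he => by
        rw [hw']
        exact if_neg he
      have hw'L : w' ∈ rowL D (rws t) := by
        intro j hj
        rw [hw'C j hj]
        exact Finset.sum_congr rfl fun i hi => by rw [hw'R i hi]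
      refine ⟨w', hw'L, fun e he => ?_⟩
      by_cases heR : e ∈ rws t
      · rw [hw'R e heR, hwA e he]
      · have hvm := ((Ho3_mem hm hαβ v).1 hv).1 e heR he
        have hwm := ((Ho3_mem hm hαβ w').1 hw'L).1 e heR he
        have s1 : ∑ i ∈ rws t ∩ A, w' i * D i e = ∑ i ∈ rws t ∩ A, v i ^ 2 * p i * D i e :=
          Finset.sum_congr rfl fun i hi => by
            rw [hw'R i (Finset.mem_inter.1 hi).1, hwA i (Finset.mem_inter.1 hi).2]
        have s2 : Ho3_t2 (rws t) A β w' * (α e)⁻¹ = Ho3_t2 (rws t) A β v ^ 2 * (α e)⁻¹ ^ 2 * p e := by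
          by_cases hα : α e = 0
          · rw [hα, inv_zero]
            ring
          by_cases hθ : Ho3_t2 (rws t) A β v = 0
          · have s3 : Ho3_t2 (rws t) A β w' = 0 := by
              unfold Ho3_t2
              refine Finset.sum_eq_zero fun i hi => ?_
              rw [Finset.mem_sdiff] at hi
              rw [hw'R i hi.1]
              by_cases hib : i = b
              · rw [hib, hwb, hθ]
                ring
              · rw [hwo i hi.2 hib, zero_mul]
            rw [s3, hθ]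
            ring
          · obtain ⟨i, hi, hi0⟩ := Finset.exists_ne_zero_of_sum_ne_zero hθ
            rw [Finset.mem_sdiff] at hi
            have hβi : β i ≠ 0 := fun h => by
              rw [h, inv_zero, mul_zero] at hi0
              exact hi0 rfl
            obtain ⟨hβb, htb⟩ := hbβ e he i hi.2 hα hβi
            have hbR : b ∈ rws t := by
              rw [hR]
              rw [hR] at heR
              revert htb heR
              cases t b <;> cases t e <;> simp
            have s3 : Ho3_t2 (rws t) A β w' = w b * (β b)⁻¹ := by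
              unfold Ho3_t2
              rw [Finset.sum_eq_single b]
              · rw [hw'R b hbR]
              · intro i hi hib
                rw [Finset.mem_sdiff] at hi
                rw [hw'R i hi.1, hwo i hi.2 hib, zero_mul]
              · intro h
                exact absurd (Finset.mem_sdiff.2 ⟨hbR, hbA⟩) h
            have s4 := hbal2 b (Finset.mem_insert_self b A) e (Finset.mem_insert_of_mem he)
            rw [hm.inv e b, hαβ e he b hbA, mul_inv] at s4
            have s5 : (α e)⁻¹ ^ 2 * p e = (α e)⁻¹ * β b * p b := by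
              have s6 : β b * (β b)⁻¹ = 1 := mul_inv_cancel₀ hβb
              calc (α e)⁻¹ ^ 2 * p e = (β b * (β b)⁻¹) ^ 2 * ((α e)⁻¹ ^ 2 * p e) := by
                    rw [s6]
                    ring
                _ = β b ^ 2 * (((α e)⁻¹ * (β b)⁻¹) ^ 2 * p e) := by ring
                _ = β b ^ 2 * ((α e)⁻¹ * (β b)⁻¹ * p b) := by rw [s4]
                _ = (β b * (β b)⁻¹) * ((α e)⁻¹ * β b * p b) := by ring
                _ = (α e)⁻¹ * β b * p b := by
                    rw [s6]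
                    ring
            rw [s3, hwb, mul_assoc (Ho3_t2 (rws t) A β v ^ 2) ((α e)⁻¹ ^ 2), s5]
            have s6 : β b * (β b)⁻¹ = 1 := mul_inv_cancel₀ hβb
            calc Ho3_t2 (rws t) A β v ^ 2 * β b ^ 2 * p b * (β b)⁻¹ * (α e)⁻¹
                = Ho3_t2 (rws t) A β v ^ 2 * ((α e)⁻¹ * β b * p b) * (β b * (β b)⁻¹) := by ring
              _ = Ho3_t2 (rws t) A β v ^ 2 * ((α e)⁻¹ * β b * p b) := by
                  rw [s6]
                  ring
        rw [hwm, s1, s2, hvm, F4.add_sq, add_mul, Ho3_fro hp2 v he, mul_pow]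
    · -- h2
      intro v hv h0
      have hvm := (Ho3_mem hm hαβ v).1 hv
      rw [Ho3_mem hm hαβ]
      have hθ2 : Ho3_t2 (rws t) A β v = 0 := by
        unfold Ho3_t2
        exact Finset.sum_eq_zero fun i hi => by rw [h0 i (Finset.mem_sdiff.1 hi).2, zero_mul]
      have hθ2' : Ho3_t2 (rws t) A β (fun e => v e ^ 2 * p e) = 0 := by
        unfold Ho3_t2
        refine Finset.sum_eq_zero fun i hi => ?_
        show v i ^ 2 * p i * (β i)⁻¹ = 0
        rw [h0 i (Finset.mem_sdiff.1 hi).2]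
        ring
      refine ⟨fun j hj hjA => ?_, fun j hj hjA => ?_⟩
      · rw [hθ2', zero_mul, add_zero, hvm.1 j hj hjA, hθ2, zero_mul, add_zero, Ho3_fro hp2 v hjA]
      · have s1 : ∑ i ∈ rws t \ A, v i ^ 2 * p i * D i j = 0 :=
          Finset.sum_eq_zero fun i hi => by
            rw [h0 i (Finset.mem_sdiff.1 hi).2]
            ring
        have s2 : v j ^ 2 * p j = 0 := by
          rw [h0 j hjA]
          ring
        have s3 := hvm.2 j hj hjA
        have s4 : ∑ i ∈ rws t \ A, v i * D i j = 0 :=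
          Finset.sum_eq_zero fun i hi => by rw [h0 i (Finset.mem_sdiff.1 hi).2, zero_mul]
        rw [h0 j hjA, s4, add_zero] at s3
        show v j ^ 2 * p j = Ho3_t1 (rws t) A α (fun e => v e ^ 2 * p e) * β j + ∑ i ∈ rws t \ A, v i ^ 2 * p i * D i j
        rw [s1, s2, add_zero]
        by_cases hβ : β j = 0
        · rw [hβ, mul_zero]
        have hθ1 : Ho3_t1 (rws t) A α v = 0 := by
          rcases mul_eq_zero.1 s3.symm with h | h
          · exact h
          · exact absurd h hβ
        have s5 : Ho3_t1 (rws t) A α (fun e => v e ^ 2 * p e) = β b * p b * Ho3_t1 (rws t) A α v ^ 2 := by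
          unfold Ho3_t1
          rw [Ho3_sq, Finset.mul_sum]
          refine Finset.sum_congr rfl fun i hi => ?_
          rw [Finset.mem_inter] at hi
          by_cases hα : α i = 0
          · rw [hα]
            ring
          obtain ⟨hβb, -⟩ := hbβ i hi.2 j hjA hα hβ
          have s6 := hbal2 i (Finset.mem_insert_of_mem hi.2) b (Finset.mem_insert_self b A)
          rw [hαβ i hi.2 b hbA] at s6
          have s7 : α i * p i = α i ^ 2 * β b * p b := by
            apply mul_left_cancel₀ hβb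
            calc β b * (α i * p i) = α i * β b * p i := by ring
              _ = (α i * β b) ^ 2 * p b := s6.symm
              _ = β b * (α i ^ 2 * β b * p b) := by ring
          calc v i ^ 2 * p i * α i = v i ^ 2 * (α i * p i) := by ring
            _ = v i ^ 2 * (α i ^ 2 * β b * p b) := by rw [s7]
            _ = β b * p b * (v i * α i) ^ 2 := by ring
        rw [s5, hθ1]
        ring
    · -- h3
      intro v hv hcut w hw
      rw [Ho3_cut hm hαβ hv, not_and_or] at hcut
      have hlin1 : ∀ c : F4, Ho3_t1 (rws t) A α (w - c • v) = Ho3_t1 (rws t) A α w - c * Ho3_t1 (rws t) A α v := by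
        intro c
        unfold Ho3_t1
        rw [Finset.mul_sum, ← Finset.sum_sub_distrib]
        refine Finset.sum_congr rfl fun i _ => ?_
        rw [Pi.sub_apply, Pi.smul_apply, smul_eq_mul]
        ring
      have hlin2 : ∀ c : F4, Ho3_t2 (rws t) A β (w - c • v) = Ho3_t2 (rws t) A β w - c * Ho3_t2 (rws t) A β v := by
        intro c
        unfold Ho3_t2
        rw [Finset.mul_sum, ← Finset.sum_sub_distrib]
        refine Finset.sum_congr rfl fun i _ => ?_
        rw [Pi.sub_apply, Pi.smul_apply, smul_eq_mul]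
        ring
      rcases hcut with h | h
      · push Not at h
        obtain ⟨j, hj, hjA, hne⟩ := h
        have hθ : Ho3_t2 (rws t) A β v ≠ 0 := left_ne_zero_of_mul hne
        obtain ⟨i, hi, hi0⟩ := Finset.exists_ne_zero_of_sum_ne_zero hθ
        rw [Finset.mem_sdiff] at hi
        have hβi : β i ≠ 0 := fun h => by
          rw [h, inv_zero, mul_zero] at hi0
          exact hi0 rfl
        refine ⟨Ho3_t2 (rws t) A β w * (Ho3_t2 (rws t) A β v)⁻¹, ?_⟩
        rw [Ho3_cut hm hαβ (Submodule.sub_mem _ hw (Submodule.smul_mem _ _ hv))]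
        refine ⟨fun j' _ _ => ?_, fun j' _ hj'A => ?_⟩
        · rw [hlin2, mul_assoc, inv_mul_cancel₀ hθ, mul_one, sub_self, zero_mul]
        · unfold Ho3_t1
          rw [Finset.sum_eq_zero, zero_mul]
          intro x hx
          rw [Finset.mem_inter] at hx
          have hαx : α x = 0 := by
            by_contra hαx
            have h5 : D x i ≠ 0 := by
              rw [hαβ x hx.2 i hi.2]
              exact mul_ne_zero hαx hβi
            exact hty x i h5 (((hR x).1 hx.1).trans ((hR i).1 hi.1).symm)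
          rw [hαx, mul_zero]
      · push Not at h
        obtain ⟨j, hj, hjA, hne⟩ := h
        have hθ : Ho3_t1 (rws t) A α v ≠ 0 := left_ne_zero_of_mul hne
        have hβj : β j ≠ 0 := right_ne_zero_of_mul hne
        refine ⟨Ho3_t1 (rws t) A α w * (Ho3_t1 (rws t) A α v)⁻¹, ?_⟩
        rw [Ho3_cut hm hαβ (Submodule.sub_mem _ hw (Submodule.smul_mem _ _ hv))]
        refine ⟨fun j' hj' hj'A => ?_, fun j' _ hj'A => ?_⟩
        · have hαj : α j' = 0 := by
            by_contra hαx
            have h5 : D j' j ≠ 0 := by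
              rw [hαβ j' hj'A j hjA]
              exact mul_ne_zero hαx hβj
            rw [hR] at hj hj'
            refine hty j' j h5 ?_
            rw [Bool.eq_false_of_not_eq_true hj, Bool.eq_false_of_not_eq_true hj']
          rw [hαj, inv_zero, mul_zero]
        · rw [hlin1, mul_assoc, inv_mul_cancel₀ hθ, mul_one, sub_self, zero_mul]
  omega

private theorem Ho3_hv {t : E → Bool} {D : E → E → F4} (hm : QUA.Hm t D) {A : Finset E}
    (hlo : QUA.Lo D A (Finset.univ \ A)) (hne : ∃ b, b ∉ A)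
    (h : QUB.Hv (rk (rowL D (rws t))) ((∅ : Finset E), Finset.univ) A) : QUA.Hv D A (Finset.univ \ A) := by
  obtain ⟨N, hN, h3⟩ := h
  by_cases hz : ∀ x ∈ A, ∀ y, y ∉ A → D x y = 0
  · obtain ⟨b, hb⟩ := hne
    exact ⟨b, Finset.mem_sdiff.2 ⟨Finset.mem_univ b, hb⟩, hv_of_line hm hlo hN h3 hb (Or.inr hz)⟩
  · push Not at hz
    obtain ⟨i, hi, b, hb, hib⟩ := hz
    exact ⟨b, Finset.mem_sdiff.2 ⟨Finset.mem_univ b, hb⟩, hv_of_line hm hlo hN h3 hb (Or.inl ⟨i, hi, hib⟩)⟩

theorem ok_of_ok {t : E → Bool} {D : E → E → F4} (hm : QUA.Hm t D) (h : QUA.Ok D Finset.univ) :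
    QUB.Ok (rk (rowL D (rws t))) ((∅ : Finset E), Finset.univ) := by
  intro A _ hlam
  rintro ⟨h1, h2⟩
  have hgs : QUB.gs ((∅ : Finset E), (Finset.univ : Finset E)) = Finset.univ := by
    unfold QUB.gs
    exact Finset.sdiff_empty
  rw [hgs] at h2
  have hlo := lo_of_lam hm hlam
  have e : Finset.univ \ (Finset.univ \ A) = A := by
    exact Finset.sdiff_sdiff_eq_self (Finset.subset_univ A)
  have hlo' : QUA.Lo D (Finset.univ \ A) (Finset.univ \ (Finset.univ \ A)) := by
    rw [e]
    obtain ⟨u, v, huv⟩ := hlo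
    refine ⟨fun x => (v x)⁻¹, fun x => (u x)⁻¹, fun x hx y hy => ?_⟩
    rw [hm.inv y x, huv y hy x hx, mul_inv, mul_comm]
  have n1 : ∃ b, b ∉ A := by
    obtain ⟨N, -, h3⟩ := h2
    obtain ⟨b, hb⟩ := Finset.card_pos.1 (lt_of_lt_of_le (by norm_num) h3)
    exact ⟨b, (Finset.mem_sdiff.1 (Finset.mem_inter.1 hb).2).2⟩
  have n2 : ∃ b, b ∉ Finset.univ \ A := by
    obtain ⟨N, -, h3⟩ := h1
    obtain ⟨b, hb⟩ := Finset.card_pos.1 (lt_of_lt_of_le (by norm_num) h3)
    exact ⟨b, fun h' => (Finset.mem_sdiff.1 h').2 (Finset.mem_inter.1 hb).2⟩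
  have k1 := Ho3_hv hm hlo n1 h1
  have k2 := Ho3_hv hm hlo' n2 h2
  rw [e] at k2
  exact h A (Finset.subset_univ A) hlo k1 k2

end Pool.Agent.QUE
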