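import Pool.Agent.QUE.Fc

/-!
# QUE/Tp: the twisted pair of a subspace over `F4`

`tp_tw`: for a basis `S` adapted to `Y` and `Y ∪ N` the set `N` has two elements `a`, `b` in `S` and two elements `c`, `e` outside of `S`; the diagonal form
evaluated at the fundamental vectors of `a`, `b` and the fundamental circuits of `c`, `e` gives four equations (`tp_pair`) which force `l` to vanish on `N`.
-/

set_option autoImplicit false

noncomputable section

open scoped Classical

namespace Pool.Agent.QUE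

open Pool.Agent.FRM Pool.Agent.QUS
open Pool.Agent.QU (van spt dg EqOn TP)

variable {E : Type} [Fintype E]

/-- the diagonal form at a fundamental vector and a fundamental circuit -/
private theorem tp_pair {L : Submodule F4 (E → F4)} {S : Finset E} (hS : IsB L S) {i j : E} (hi : i ∈ S) (hj : j ∉ S) (l : E → F4) :
    dg l (fv L S i) (fc L S j) = l i * fv L S i j ^ 2 + l j * fv L S i j := by
  have hij : i ≠ j := fun h => hj (h ▸ hi)
  rw [Pool.Agent.QU.dg_apply, Finset.sum_eq_add i j hij]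
  · rw [fv_self hS hi, fc_in hj hi, fc_self, one_mul, mul_one]
  · rintro x - ⟨hxi, hxj⟩
    by_cases hx : x ∈ S
    · rw [fv_oth hS hi hx hxi, zero_mul, mul_zero]
    · rw [fc_out hx hxj, mul_zero, mul_zero]
  · intro h
    exact absurd (Finset.mem_univ i) h
  · intro h
    exact absurd (Finset.mem_univ j) h

theorem tp_tw (L : Submodule F4 (E → F4)) (Y N : Finset E) (hYN : Disjoint Y N) (hN : N.card = 4)
    (hr : rk L (Y ∪ N) = rk L Y + 2) (h2 : ∀ i ∈ N, ∀ j ∈ N, i ≠ j → rk L (Y ∪ {i, j}) = rk L Y + 2)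
    (l : E → F4) (hl : EqOn L (WW L) (Y, Y ∪ N) (dg l) 0) : ∀ x ∈ N, l x = 0 := by
  obtain ⟨S, hS, hY, hYN2⟩ := exists_chain L (A := Y) (B := Y ∪ N) Finset.subset_union_left
  have r1 := rk_eq hS hY
  have r2 := rk_eq hS hYN2
  have hcard : (S ∩ N).card = 2 := by
    have h3 : (S ∩ (Y ∪ N)).card = (S ∩ Y).card + (S ∩ N).card := by
      rw [Finset.inter_union_distrib_left]
      exact Finset.card_union_of_disjoint (hYN.mono Finset.inter_subset_right Finset.inter_subset_right)
    rw [r1, r2, h3] at hr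
    push_cast at hr
    omega
  have hcard2 : (N \ S).card = 2 := by
    have h3 := Finset.card_sdiff_add_card_inter N S
    rw [Finset.inter_comm, hcard, hN] at h3
    omega
  obtain ⟨a, b, hab, hSN⟩ := Finset.card_eq_two.1 hcard
  obtain ⟨c, e, hce, hNS⟩ := Finset.card_eq_two.1 hcard2
  have ha : a ∈ S ∩ N := by rw [hSN]; exact Finset.mem_insert_self _ _
  have hb : b ∈ S ∩ N := by rw [hSN]; exact Finset.mem_insert_of_mem (Finset.mem_singleton_self _)
  have hc : c ∈ N \ S := by rw [hNS]; exact Finset.mem_insert_self _ _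
  have he : e ∈ N \ S := by rw [hNS]; exact Finset.mem_insert_of_mem (Finset.mem_singleton_self _)
  rw [Finset.mem_inter] at ha hb
  rw [Finset.mem_sdiff] at hc he
  have hnY : ∀ {i : E}, i ∈ N → i ∉ Y := fun hi h => Finset.disjoint_left.1 hYN h hi
  -- the value of the form
  have hval : ∀ i ∈ S, i ∈ N → ∀ j ∈ N, j ∉ S → l i * fv L S i j ^ 2 + l j * fv L S i j = 0 := by
    intro i hi hiN j hj hjS
    rw [← tp_pair hS hi hjS l]
    refine hl (fv L S i) ⟨fv_mem hS hi, fun x hx => hY i hi (hnY hiN) x hx⟩ (fc L S j) ⟨fc_mem hS hjS, fun x hx => ?_⟩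
    by_cases hxS : x ∈ S
    · rw [fc_in hjS hxS, hYN2 x hxS hx j (Finset.mem_union_right _ hj), zero_pow two_ne_zero]
    · exact fc_out hxS fun h3 => hx (h3 ▸ Finset.mem_union_right _ hj)
  -- vectors which vanish on `Y` and two elements of `N`
  have hvan : ∀ i ∈ N, ∀ j ∈ N, i ≠ j → ∀ v ∈ L, (∀ x ∈ Y, v x = 0) → v i = 0 → v j = 0 → ∀ x ∈ N, v x = 0 := by
    intro i hi j hj hij v hv h0 hvi hvj x hx
    have hsub : Y ∪ {i, j} ⊆ Y ∪ N := by
      refine Finset.union_subset_union_right ?_
      intro y hy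
      rcases Finset.mem_insert.1 hy with rfl | hy
      · exact hi
      · rw [Finset.mem_singleton.1 hy]
        exact hj
    refine van_of_rk hsub (by rw [h2 i hi j hj hij, hr]) hv ?_ x (Finset.mem_union_right _ hx)
    intro y hy
    rcases Finset.mem_union.1 hy with hy | hy
    · exact h0 y hy
    · rcases Finset.mem_insert.1 hy with rfl | hy
      · exact hvi
      · rw [Finset.mem_singleton.1 hy]
        exact hvj
  have hne : ∀ i ∈ S, i ∈ N → ∀ i' ∈ S, i' ∈ N → i' ≠ i → ∀ j ∈ N, j ∉ S → fv L S i j ≠ 0 := by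
    intro i hi hiN i' hi' hiN' hii j hj hjS h0
    have h3 := hvan i' hiN' j hj (fun h => hjS (h ▸ hi')) (fv L S i) (fv_mem hS hi) (hY i hi (hnY hiN))
      (fv_oth hS hi hi' hii) h0 i hiN
    rw [fv_self hS hi] at h3
    exact one_ne_zero h3
  have q1 := hne b hb.1 hb.2 a ha.1 ha.2 hab c hc.1 hc.2
  have p1 := hne a ha.1 ha.2 b hb.1 hb.2 hab.symm c hc.1 hc.2
  have p2 := hne a ha.1 ha.2 b hb.1 hb.2 hab.symm e he.1 he.2
  have q2 := hne b hb.1 hb.2 a ha.1 ha.2 hab e he.1 he.2
  have hdet : fv L S b c * fv L S a e - fv L S a c * fv L S b e ≠ 0 := by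
    intro h0
    have h3 := hvan c hc.1 e he.1 hce (fv L S b c • fv L S a - fv L S a c • fv L S b)
      (L.sub_mem (L.smul_mem _ (fv_mem hS ha.1)) (L.smul_mem _ (fv_mem hS hb.1))) ?_ ?_ ?_ a ha.2
    · rw [Pi.sub_apply, Pi.smul_apply, Pi.smul_apply, smul_eq_mul, smul_eq_mul, fv_self hS ha.1,
        fv_oth hS hb.1 ha.1 hab, mul_one, mul_zero, sub_zero] at h3
      exact q1 h3
    · intro x hx
      rw [Pi.sub_apply, Pi.smul_apply, Pi.smul_apply, smul_eq_mul, smul_eq_mul, hY a ha.1 (hnY ha.2) x hx,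
        hY b hb.1 (hnY hb.2) x hx, mul_zero, mul_zero, sub_zero]
    · rw [Pi.sub_apply, Pi.smul_apply, Pi.smul_apply, smul_eq_mul, smul_eq_mul]
      ring
    · rw [Pi.sub_apply, Pi.smul_apply, Pi.smul_apply, smul_eq_mul, smul_eq_mul]
      exact h0
  have hdiv : ∀ {x y z : F4}, z ≠ 0 → x * z ^ 2 + y * z = 0 → y = -(x * z) := by
    intro x y z hz h3
    have h4 : (x * z + y) * z = 0 := by
      linear_combination h3
    have h5 := (mul_eq_zero.1 h4).resolve_right hz
    linear_combination h5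
  have e1 := hdiv p1 (hval a ha.1 ha.2 c hc.1 hc.2)
  have e2 := hdiv p2 (hval a ha.1 ha.2 e he.1 he.2)
  have e3 := hdiv q1 (hval b hb.1 hb.2 c hc.1 hc.2)
  have e4 := hdiv q2 (hval b hb.1 hb.2 e he.1 he.2)
  have la : l a = 0 := by
    have h3 : l a * (fv L S b c * fv L S a e - fv L S a c * fv L S b e) = 0 := by
      linear_combination fv L S b c * (e2 - e4) - fv L S b e * (e1 - e3)
    exact (mul_eq_zero.1 h3).resolve_right hdet
  have lc : l c = 0 := by rw [e1, la, zero_mul, neg_zero]
  have le : l e = 0 := by rw [e2, la, zero_mul, neg_zero]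
  have lb : l b = 0 := by
    rw [lc] at e3
    have h3 : l b * fv L S b c = 0 := by linear_combination e3
    exact (mul_eq_zero.1 h3).resolve_right q1
  intro x hx
  by_cases hxS : x ∈ S
  · have h3 : x ∈ S ∩ N := Finset.mem_inter.2 ⟨hxS, hx⟩
    rw [hSN] at h3
    rcases Finset.mem_insert.1 h3 with rfl | h3
    · exact la
    · rw [Finset.mem_singleton.1 h3]
      exact lb
  · have h3 : x ∈ N \ S := Finset.mem_sdiff.2 ⟨hx, hxS⟩
    rw [hNS] at h3
    rcases Finset.mem_insert.1 h3 with rfl | h3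
    · exact lc
    · rw [Finset.mem_singleton.1 h3]
      exact le

/-- the twisted pair of `L` -/
def tp (L : Submodule F4 (E → F4)) : TP F4 E where
  U := L
  W := WW L
  r := rk L
  hU C := by
    have h : Module.finrank F4 (van L (Finset.univ : Finset E)) = 0 := by
      have h1 : van L (Finset.univ : Finset E) = ⊥ := by
        rw [eq_bot_iff]
        intro v hv
        rw [Submodule.mem_bot]
        funext e
        exact hv.2 e (Finset.mem_univ e)
      rw [h1, finrank_bot]
    rw [rk, rk, h]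
    push_cast
    ring
  hW G := finrank_spt L G
  tw := tp_tw L

end Pool.Agent.QUE
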