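import Pool.Agent.QUE.Ho1
import Pool.Agent.QUS.Rd
import Pool.Agent.FRM.Qdt

/-!
# QUE/Tr: translation between `QUA.Val` and `ValZ`

The residue `rs` of layer F and the residue `(red h).a` differ by the Frobenius map: `res_rs` (`emb ⟨0,0,0,1⟩ = (-1+i+j+k)/2` has `kc = 2`): check the 24 units (`mem_unitsL`, `rs (emb x) = (red x).a ^ 2`).  So a valid `H` for `g` corresponds to a `ValZ` matrix for `D x y = g x y ^ 2` (`= g y x`).
`hu_emb`: units of `Hz` give Hurwitz units (`hz_unit`, `normSq`); `emb_of_hu`: for `HU q` there is `x : Hz` with `emb x = q`: `q = ⟨a, b, c, d⟩`: `x = ⟨a + d, b - d, c - d, 2 d⟩`; halves: the same formula.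
`det_sq`: `det (g ^ 2) = (det g) ^ 2` for entrywise squares (the Frobenius map of `F4` is a ring homomorphism: `RingHom.map_det`; construct it from `F4.add_sq`).
`valZ_of_val`: `h i j = x` with `emb x = H i j` (choice; `0` if `g i j = 0`).  `val_of_valZ`: `H x y = emb (h x y)` if `x` is a row and `y` a column, `star (emb (h y x))` if `y` is a row and `x` a column, `0` otherwise; entries: `m = 1` in `ValZ` gives `N (h x y) = 1` or `0`.
`hm_sq`, `cn_sq`, `ok_sq`: `D = g ^ 2` satisfies `Hm`, has the same support, the same `Lo` (`u ^ 2, v ^ 2`; converse: squares again, `F4.pow22`), `Bal`, `Hv`, `Ok`.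
-/

set_option autoImplicit false

noncomputable section

open scoped Classical

namespace Pool.Agent.QUE

open Pool.Agent.FRM Pool.Agent.QUS

variable {E : Type} [Fintype E]

/-- the entrywise square of a matrix -/
abbrev sqm (g : E → E → F4) : E → E → F4 := fun x y => g x y ^ 2

private theorem Tr_four (x : Hz) : (emb x).re * (emb x).imI * (emb x).imJ * (emb x).imK =
    (((2 * x.a - x.d) * (2 * x.b + x.d) * (2 * x.c + x.d) * x.d : ℤ) : ℚ) / 16 := by
  show ((x.a : ℚ) - x.d / 2) * (x.b + x.d / 2) * (x.c + x.d / 2) * (x.d / 2) = _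
  push_cast
  ring

private theorem Tr_kc (x : Hz) : FRN.kc (emb x) =
    if (2 * x.a - x.d) * (2 * x.b + x.d) * (2 * x.c + x.d) * x.d = 1 then 1 else
      if (2 * x.a - x.d) * (2 * x.b + x.d) * (2 * x.c + x.d) * x.d = -1 then 2 else 0 := by
  unfold FRN.kc
  rw [Tr_four]
  have h1 : ((((2 * x.a - x.d) * (2 * x.b + x.d) * (2 * x.c + x.d) * x.d : ℤ) : ℚ) / 16 = 1 / 16) ↔
      (2 * x.a - x.d) * (2 * x.b + x.d) * (2 * x.c + x.d) * x.d = 1 := by
    rw [div_left_inj' (by norm_num)]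
    exact_mod_cast Iff.rfl
  have h2 : ((((2 * x.a - x.d) * (2 * x.b + x.d) * (2 * x.c + x.d) * x.d : ℤ) : ℚ) / 16 = -(1 / 16)) ↔
      (2 * x.a - x.d) * (2 * x.b + x.d) * (2 * x.c + x.d) * x.d = -1 := by
    rw [← neg_div, div_left_inj' (by norm_num)]
    exact_mod_cast Iff.rfl
  simp only [h1, h2]

private theorem Tr_list : ∀ x ∈ unitsL, (if (2 * x.a - x.d) * (2 * x.b + x.d) * (2 * x.c + x.d) * x.d = 1 then F4.w else
      if (2 * x.a - x.d) * (2 * x.b + x.d) * (2 * x.c + x.d) * x.d = -1 then F4.u else F4.i) = (red x).a ^ 2 := by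
  unfold unitsL
  decide

private theorem Tr_norm (x : Hz) : Quaternion.normSq (emb x) = (x.N : ℚ) := by
  have h : emb x = (⟨x.a - x.d / 2, x.b + x.d / 2, x.c + x.d / 2, x.d / 2⟩ : Hq) := rfl
  rw [h, Quaternion.normSq_def']
  unfold Hz.N
  push_cast
  ring

private theorem Tr_ne {x : Hz} (h : IsUnit x) : emb x ≠ 0 := by
  intro h0
  have h1 := Tr_norm x
  rw [h0, map_zero, hz_unit.1 h, Int.cast_one] at h1
  exact zero_ne_one h1

private theorem Tr_fin_one {x : Hq} : dC (Matrix.of fun _ _ : Fin 1 => x) = ((Quaternion.normSq x : ℚ) : ℂ) := by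
  have h : ∀ j' : Fin (0 + 1), j' ≠ 0 → (Matrix.of fun _ _ : Fin (0 + 1) => x) 0 j' = 0 := by
    intro j' hj'
    exact absurd (by omega) hj'
  have h1 := dC_row (Matrix.of fun _ _ : Fin (0 + 1) => x) 0 0 h
  rw [dC_zero_fin, mul_one] at h1
  exact h1

private theorem Tr_row {t : E → Bool} {x : E} : x ∈ rws t ↔ t x = true := by
  simp [rws]

private theorem Tr_col {t : E → Bool} {x : E} : x ∉ rws t ↔ t x = false := by
  rw [Tr_row, Bool.not_eq_true]

/-- the Frobenius map -/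
private def Tr_fr : F4 →+* F4 where
  toFun x := x ^ 2
  map_one' := one_pow 2
  map_mul' x y := mul_pow x y 2
  map_zero' := zero_pow two_ne_zero
  map_add' := F4.add_sq

theorem res_rs {x : Hz} (h : IsUnit x) : QUA.rs (emb x) = (red x).a ^ 2 := by
  rw [← Tr_list x (mem_unitsL.2 h)]
  unfold QUA.rs
  rw [if_neg (Tr_ne h), Tr_kc]
  unfold QUA.fz
  by_cases h1 : (2 * x.a - x.d) * (2 * x.b + x.d) * (2 * x.c + x.d) * x.d = 1
  · rw [if_pos h1, if_pos h1]
    rfl
  · rw [if_neg h1, if_neg h1]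
    by_cases h2 : (2 * x.a - x.d) * (2 * x.b + x.d) * (2 * x.c + x.d) * x.d = -1
    · rw [if_pos h2, if_pos h2]
      rfl
    · rw [if_neg h2, if_neg h2]
      rfl

theorem hu_emb {x : Hz} (h : IsUnit x) : HU (emb x) := by
  refine ⟨?_, ?_⟩
  · rw [Tr_norm, hz_unit.1 h, Int.cast_one]
  · have hx : emb x = (⟨x.a - x.d / 2, x.b + x.d / 2, x.c + x.d / 2, x.d / 2⟩ : Hq) := rfl
    rcases Int.even_or_odd' x.d with ⟨k, hk | hk⟩
    · refine Or.inl ⟨x.a - k, x.b + k, x.c + k, k, ?_⟩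
      rw [hx, hk]
      push_cast
      congr 1 <;> ring
    · refine Or.inr ⟨x.a - k - 1, x.b + k, x.c + k, k, ?_⟩
      rw [hx, hk]
      push_cast
      congr 1 <;> ring

theorem emb_of_hu {q : Hq} (h : HU q) : ∃ x : Hz, IsUnit x ∧ emb x = q := by
  have key : ∀ x : Hz, emb x = q → ∃ x : Hz, IsUnit x ∧ emb x = q := by
    intro x hx
    refine ⟨x, hz_unit.2 ?_, hx⟩
    have h1 := Tr_norm x
    rw [hx, h.1] at h1
    exact_mod_cast h1.symm
  rcases h.2 with ⟨a, b, c, d, rfl⟩ | ⟨a, b, c, d, rfl⟩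
  · refine key ⟨a + d, b - d, c - d, 2 * d⟩ ?_
    show (⟨((a + d : ℤ) : ℚ) - ((2 * d : ℤ) : ℚ) / 2, ((b - d : ℤ) : ℚ) + ((2 * d : ℤ) : ℚ) / 2,
      ((c - d : ℤ) : ℚ) + ((2 * d : ℤ) : ℚ) / 2, ((2 * d : ℤ) : ℚ) / 2⟩ : Hq) = _
    push_cast
    congr 1 <;> ring
  · refine key ⟨a + d + 1, b - d, c - d, 2 * d + 1⟩ ?_
    show (⟨((a + d + 1 : ℤ) : ℚ) - ((2 * d + 1 : ℤ) : ℚ) / 2, ((b - d : ℤ) : ℚ) + ((2 * d + 1 : ℤ) : ℚ) / 2,
      ((c - d : ℤ) : ℚ) + ((2 * d + 1 : ℤ) : ℚ) / 2, ((2 * d + 1 : ℤ) : ℚ) / 2⟩ : Hq) = _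
    push_cast
    congr 1 <;> ring

theorem star_emb (x : Hz) : star (emb x) = emb (star x) := by
  rw [Hz.star_def]
  ext
  · rw [Quaternion.re_star]
    show (x.a : ℚ) - x.d / 2 = ((x.a - x.d : ℤ) : ℚ) - ((-x.d : ℤ) : ℚ) / 2
    push_cast
    ring
  · rw [Quaternion.imI_star]
    show -((x.b : ℚ) + x.d / 2) = ((-x.b : ℤ) : ℚ) + ((-x.d : ℤ) : ℚ) / 2
    push_cast
    ring
  · rw [Quaternion.imJ_star]
    show -((x.c : ℚ) + x.d / 2) = ((-x.c : ℤ) : ℚ) + ((-x.d : ℤ) : ℚ) / 2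
    push_cast
    ring
  · rw [Quaternion.imK_star]
    show -((x.d : ℚ) / 2) = ((-x.d : ℤ) : ℚ) / 2
    push_cast
    ring

theorem det_sq (g : E → E → F4) {m : ℕ} (f h : Fin m → E) :
    (Matrix.of fun k l => g (f k) (h l) ^ 2).det = (Matrix.of fun k l => g (f k) (h l)).det ^ 2 := by
  have h1 := RingHom.map_det Tr_fr (Matrix.of fun k l => g (f k) (h l))
  exact h1.symm

theorem valZ_of_val {t : E → Bool} {g : E → E → F4} {H : E → E → Hq} (hm : QUA.Hm t g) (h : QUA.Val t g H Finset.univ) :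
    ∃ h' : E → E → Hz, ValZ (sqm g) h' (rws t) ∧ ∀ i ∈ rws t, ∀ j, j ∉ rws t → H i j = emb (h' i j) := by
  have hex : ∀ i j : E, ∃ x : Hz, i ∈ rws t → j ∉ rws t → (red x).a = g i j ^ 2 ∧ emb x = H i j := by
    intro i j
    by_cases hij : i ∈ rws t ∧ j ∉ rws t
    · by_cases h0 : g i j = 0
      · refine ⟨0, fun _ _ => ⟨?_, ?_⟩⟩
        · rw [h0, map_zero, zero_pow two_ne_zero]
          rfl
        · rw [map_zero, h.zr i (Finset.mem_univ i) j (Finset.mem_univ j) h0]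
      · obtain ⟨h1, h2⟩ := h.un i (Finset.mem_univ i) j (Finset.mem_univ j) (Tr_row.1 hij.1) (Tr_col.1 hij.2) h0
        obtain ⟨x, hx, hx'⟩ := emb_of_hu h1
        refine ⟨x, fun _ _ => ⟨?_, hx'⟩⟩
        rw [← h2, ← hx', res_rs hx, F4.pow22]
    · exact ⟨0, fun h1 h2 => absurd ⟨h1, h2⟩ hij⟩
  choose h' hh' using hex
  refine ⟨h', ⟨fun i hi j hj => (hh' i j hi hj).1, fun m f k hf hk => ?_⟩, fun i hi j hj => (hh' i j hi hj).2.symm⟩
  have h1 := h.dt m f k ⟨fun a => ⟨Finset.mem_univ _, Tr_row.1 (hf a)⟩, fun b => ⟨Finset.mem_univ _, Tr_col.1 (hk b)⟩⟩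
  have h2 : (Matrix.of fun a b => emb (h' (f a) (k b))) = QUA.sm H f k := by
    ext1 a b
    exact (hh' (f a) (k b) (hf a) (hk b)).2
  have h3 : (Matrix.of fun a b => sqm g (f a) (k b)).det = 0 ↔ (QUA.sm g f k).det = 0 := by
    show (Matrix.of fun a b => g (f a) (k b) ^ 2).det = 0 ↔ _
    rw [det_sq g f k, pow_eq_zero_iff two_ne_zero]
    rfl
  rw [h2, h1]
  by_cases h4 : (QUA.sm g f k).det = 0
  · rw [if_pos h4, if_pos (h3.2 h4)]
  · rw [if_neg h4, if_neg fun h5 => h4 (h3.1 h5)]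

theorem val_of_valZ {t : E → Bool} {g : E → E → F4} {h : E → E → Hz} (hm : QUA.Hm t g) (hv : ValZ (sqm g) h (rws t)) :
    ∃ H : E → E → Hq, QUA.Val t g H Finset.univ := by
  have hN : ∀ x y, t x = true → t y = false → (((h x y).N : ℤ) : ℂ) = if g x y = 0 then 0 else 1 := by
    intro x y hx hy
    have h1 := hv.2 1 (fun _ => x) (fun _ => y) (fun _ => Tr_row.2 hx) (fun _ => Tr_col.2 hy)
    rw [Tr_fin_one, Tr_norm, Matrix.det_unique] at h1
    have h2 : (Matrix.of fun _ _ : Fin 1 => sqm g x y) default default = g x y ^ 2 := rfl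
    rw [h2] at h1
    have h3 : (((h x y).N : ℤ) : ℂ) = ((((h x y).N : ℤ) : ℚ) : ℂ) := by push_cast; rfl
    rw [h3, h1]
    by_cases h4 : g x y = 0
    · rw [if_pos h4, if_pos (by rw [h4]; exact zero_pow two_ne_zero)]
    · rw [if_neg h4, if_neg (pow_ne_zero 2 h4)]
  have hz : ∀ x y, t x = true → t y = false → g x y = 0 → h x y = 0 := by
    intro x y hx hy h0
    have h1 := hN x y hx hy
    rw [if_pos h0] at h1
    exact N_eq_zero.1 (by exact_mod_cast h1)
  have hu : ∀ x y, t x = true → t y = false → g x y ≠ 0 → IsUnit (h x y) := by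
    intro x y hx hy h0
    have h1 := hN x y hx hy
    rw [if_neg h0] at h1
    exact hz_unit.2 (by exact_mod_cast h1)
  refine ⟨fun x y => if t x = true then (if t y = true then 0 else emb (h x y)) else
    (if t y = true then star (emb (h y x)) else 0), ?_, ?_, ?_, ?_⟩
  · intro x y
    cases hx : t x <;> cases hy : t y <;> simp
  · intro x _ y _ h0
    cases hx : t x <;> cases hy : t y <;> simp only [Bool.false_eq_true, if_true, if_false, reduceIte]
    · have h1 : g y x = 0 := by rw [hm.inv x y, h0, inv_zero]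
      rw [hz y x hy hx h1, map_zero, star_zero]
    · rw [hz x y hx hy h0, map_zero]
  · intro x _ y _ hx hy h0
    simp only [hx, hy, Bool.false_eq_true, if_true, if_false, reduceIte]
    refine ⟨hu_emb (hu x y hx hy h0), ?_⟩
    rw [res_rs (hu x y hx hy h0), hv.1 x (Tr_row.2 hx) y (Tr_col.2 hy)]
    exact F4.pow22 _
  · intro k f l hfl
    have h1 := hv.2 k f l (fun a => Tr_row.2 (hfl.1 a).2) (fun b => Tr_col.2 (hfl.2 b).2)
    have h2 : QUA.sm (fun x y => if t x = true then (if t y = true then 0 else emb (h x y)) else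
        (if t y = true then star (emb (h y x)) else 0)) f l = Matrix.of fun a b => emb (h (f a) (l b)) := by
      ext1 a b
      show (if t (f a) = true then (if t (l b) = true then (0 : Hq) else emb (h (f a) (l b))) else
        (if t (l b) = true then star (emb (h (l b) (f a))) else 0)) = emb (h (f a) (l b))
      rw [(hfl.1 a).2, (hfl.2 b).2]
      simp only [Bool.false_eq_true, if_true, if_false, reduceIte]
    have h3 : (Matrix.of fun a b => sqm g (f a) (l b)).det = 0 ↔ (QUA.sm g f l).det = 0 := by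
      show (Matrix.of fun a b => g (f a) (l b) ^ 2).det = 0 ↔ _
      rw [det_sq g f l, pow_eq_zero_iff two_ne_zero]
      rfl
    rw [h2, h1]
    by_cases h4 : (QUA.sm g f l).det = 0
    · rw [if_pos h4, if_pos (h3.2 h4)]
    · rw [if_neg h4, if_neg fun h5 => h4 (h3.1 h5)]

theorem hm_sq {t : E → Bool} {g : E → E → F4} (hm : QUA.Hm t g) : QUA.Hm t (sqm g) where
  inv x y := by
    show g y x ^ 2 = (g x y ^ 2)⁻¹
    rw [hm.inv x y, inv_pow]
  bip x y h := by
    show g x y ^ 2 = 0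
    rw [hm.bip x y h, zero_pow two_ne_zero]

theorem cn_sq {g : E → E → F4} (h : QUA.Cn g Finset.univ) : QUA.Cn (sqm g) Finset.univ := by
  intro A hA h1 h2
  obtain ⟨x, hx, y, hy, hxy⟩ := h A hA h1 h2
  exact ⟨x, hx, y, hy, pow_ne_zero 2 hxy⟩

omit [Fintype E] in
private theorem Tr_lo {g : E → E → F4} {A B : Finset E} (h : QUA.Lo (sqm g) A B) : QUA.Lo g A B := by
  obtain ⟨u, v, huv⟩ := h
  refine ⟨fun x => u x ^ 2, fun y => v y ^ 2, fun x hx y hy => ?_⟩
  have h1 : g x y ^ 2 = u x * v y := huv x hx y hy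
  rw [← mul_pow, ← h1, F4.pow22]

omit [Fintype E] in
private theorem Tr_bal {g : E → E → F4} {S : Finset E} (h : QUA.Bal g S) : QUA.Bal (sqm g) S := by
  obtain ⟨p, hp, hp'⟩ := h
  refine ⟨fun x => p x ^ 2, fun x => pow_ne_zero 2 (hp x), fun x hx y hy hxy => ?_⟩
  have h1 : g x y ≠ 0 := fun h0 => hxy (by show g x y ^ 2 = 0; rw [h0, zero_pow two_ne_zero])
  show g x y ^ 2 = p x ^ 2 * (p y ^ 2)⁻¹
  rw [hp' x hx y hy h1, mul_pow, inv_pow]

omit [Fintype E] in
private theorem Tr_hv {g : E → E → F4} {A B : Finset E} (h : QUA.Hv (sqm g) A B) : QUA.Hv g A B := by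
  obtain ⟨b, hb, hb'⟩ := h
  exact ⟨b, hb, fun h1 => hb' (Tr_bal h1)⟩

theorem ok_sq {g : E → E → F4} (h : QUA.Ok g Finset.univ) : QUA.Ok (sqm g) Finset.univ :=
  fun A hA h1 h2 h3 => h A hA (Tr_lo h1) (Tr_hv h2) (Tr_hv h3)

end Pool.Agent.QUE
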