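import Pool.Agent.QUE.Tr
import Pool.Agent.QUE.Tp
import Pool.Agent.QUN.Main
import Pool.Agent.QUN.NuC
import Pool.Agent.QUY.Exist
import Pool.Agent.QUY.Ent

/-!
# QUE/Int: what layer E uses from layers D and F

`exist_form`: EXIST of layer D (`QUY.exist`).  `uniq_form`: UNIQ of layer D, from Theorem U (`QU.thmU`).  `det_u2g`: from `QUA/Phi`: the determinants of `A` and of `g` vanish at the same time.
-/

set_option autoImplicit false

noncomputable section

open scoped Classical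

namespace Pool.Agent.QUE

open Pool.Agent.FRM Pool.Agent.QUS
open Pool.Agent.QU (Fm InVs InV EqD)

variable {E : Type} [Fintype E] {t : E → Bool} {g : E → E → F4}

/-- EXIST -/
theorem exist_form (hm : QUA.Hm t g) (hU : QUA.U2G t g Finset.univ) :
    ∃ T, InVs (tp (rowL (sqm g) (rws t))) (∅, Finset.univ) T :=
  QUY.exist (QUY.cls_of_u2g hm hU) (Finset.empty_subset _)

private theorem sub_zero_of {K V : Type} [Field K] [Fintype V] {U W : Submodule K (V → K)} {q : QU.Itv V} {T R : Fm K V}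
    (h : EqD U W q T R) : EqD U W q (T - R) 0 := by
  have h5 := h.sub (EqD.rfl (U := U) (W := W) (p := q) (T := R))
  have e : R - R = 0 := by abel
  rwa [e] at h5

private theorem of_sub_zero {K V : Type} [Field K] [Fintype V] {U W : Submodule K (V → K)} {q : QU.Itv V} {T R : Fm K V}
    (h : EqD U W q (T - R) 0) : EqD U W q T R := by
  have h5 := h.add (EqD.rfl (U := U) (W := W) (p := q) (T := R))
  have e : T - R + R = T := by abel
  have e' : 0 + R = R := by abel
  rwa [e, e'] at h5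

/-- UNIQ for the class -/
theorem uniq_cls {L : Submodule F4 (E → F4)} (hL : QUY.Cls L) {p : QU.Itv E} (hp : p.1 ⊆ p.2) (hC : QUB.Cn (rk L) p) (hO : QUB.Ok (rk L) p)
    {T T' : Fm F4 E} (hT : InVs (tp L) p T) (hT' : InV L (WW L) p T') : ∃ k : F4, EqD L (WW L) p T' (k • T) := by
  have hNU : QU.NU (tp L).r := QUN.nu_of_cls hL
  by_cases hR : QU.HasRich (tp L).r p
  · obtain ⟨q, h1, h2⟩ := hR
    obtain ⟨k, hk⟩ := QU.rich_one (tp L) h2 (hT'.mono h1) (hT.1.mono h1) (hT.2 q h1 h2)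
    have h3 : InV L (WW L) p (T' - k • T) := hT'.sub (hT.1.smul k)
    have h4 : EqD L (WW L) q (T' - k • T) 0 := sub_zero_of hk
    have h6 : EqD L (WW L) p (T' - k • T) 0 := QU.thmU (tp L) hNU p hp hC hO h3 (Or.inl ⟨q, h1, h2, h4⟩)
    exact ⟨k, of_sub_zero h6⟩
  · refine ⟨0, ?_⟩
    rw [zero_smul]
    exact QU.thmU (tp L) hNU p hp hC hO hT' (Or.inr hR)

/-- UNIQ (false without `hU`: `U_{3,6}` is quaternary, OK and rich, and its space of forms is too large) -/
theorem uniq_form (hm : QUA.Hm t g) (hU : QUA.U2G t g Finset.univ)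
    (hC : QUB.Cn (rk (rowL (sqm g) (rws t))) ((∅ : Finset E), Finset.univ))
    (hO : QUB.Ok (rk (rowL (sqm g) (rws t))) ((∅ : Finset E), Finset.univ)) (T : Fm F4 E)
    (hT : InVs (tp (rowL (sqm g) (rws t))) (∅, Finset.univ) T) (T' : Fm F4 E)
    (hT' : InV (rowL (sqm g) (rws t)) (WW (rowL (sqm g) (rws t))) (∅, Finset.univ) T') :
    ∃ k : F4, EqD (rowL (sqm g) (rws t)) (WW (rowL (sqm g) (rws t))) (∅, Finset.univ) T' (k • T) :=
  uniq_cls (QUY.cls_of_u2g hm hU) (Finset.empty_subset _) hC hO hT hT'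

theorem det_u2g (_hm : QUA.Hm t g) (hU : QUA.U2G t g Finset.univ) : ∃ A : E → E → KU, ∀ (k : ℕ) (f h : Fin k → E),
    QUA.RC t Finset.univ f h → ((QUA.sm A f h).det = 0 ↔ (QUA.sm g f h).det = 0) := by
  obtain ⟨A, hA, hA'⟩ := hU
  exact ⟨A, QUA.phi_det hA hA'⟩

end Pool.Agent.QUE
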