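import Pool.Agent.QUE.Defs
import Pool.Agent.QUS.Rd

/-!
# QUE/Nh: right lifts are noncommutative on the rich minors

`nc24`: `x, y` units of the Hurwitz integers with `1 - x`, `1 - y`, `x - y` units: `red x`, `red y` do not commute (`mem_unitsL` and `decide` over the 24 units; proof: `x = 1/2 + v`, `y = 1/2 + v'`, `|v|² = |v'|² = 3/4`, `v·v' = 1/4`, `xy - yx = 2 v×v'` has norm `2`).
`nc_of_right` (col): for a block of `NC`: the entries of `Λ` in the block are units (`unit_of_red`), also the three Schur complements `sc Λ S a b c e` etc.: `pv S a c` is a basis of `Γ` (`piv`), so of `Λ`, and `sc Λ S a b c e = fv Λ (pv S a c) b e` (`piv_old_apply`), likewise for `Γ`.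
With `x = cX Λ S a b c e`, `y = cX Λ S a b c f`: `1 - x = inv(ac) * ae * inv(be) * (sc a b c e) * inv(ae) * ac`, `x - y = inv(ac) * ae * inv(be) * (sc a b e f) * inv(bf) * bc` (`ac = fv Λ S a c` ..); `red x = cX Γ S a b c e` (`red_inv`).  Rows:
`rX a b e f = ae * inv(be) * bf * inv(af)`, `1 - x = - ae * inv(be) * (sc a b e f) * inv(af)`, `1 - y = - ae * inv(ce) * (sc a c e f) * inv(af)`, `x - y = - ae * inv(ce) * (sc b c e f) * inv(af)` (`x = rX a b e f`, `y = rX a c e f`).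
-/

set_option autoImplicit false

noncomputable section

open scoped Classical

namespace Pool.Agent.QUE

open Pool.Agent.FRM Pool.Agent.QUS

private theorem Nh_dec : ∀ x ∈ unitsL, (1 - x).N = 1 → ∀ y ∈ unitsL, (1 - y).N = 1 → (x - y).N = 1 →
    red x * red y ≠ red y * red x := by
  decide +kernel

theorem nc24 {x y : Hz} (hx : IsUnit x) (hy : IsUnit y) (h1 : IsUnit (1 - x)) (h2 : IsUnit (1 - y)) (h3 : IsUnit (x - y)) :
    ¬ Commute (red x) (red y) := by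
  intro h
  exact Nh_dec x (mem_unitsL.2 hx) (hz_unit.1 h1) y (mem_unitsL.2 hy) (hz_unit.1 h2) (hz_unit.1 h3) h

section

variable {H : Type} [Ring H]

private theorem Nh_c1 (p q r s : Hˣ) (h : IsUnit ((r : H) - s * ((p⁻¹ : Hˣ) : H) * q)) :
    IsUnit (1 - ((p⁻¹ : Hˣ) : H) * q * ((r⁻¹ : Hˣ) : H) * s) := by
  have e : 1 - ((p⁻¹ : Hˣ) : H) * q * ((r⁻¹ : Hˣ) : H) * s =
      ((p⁻¹ * q * r⁻¹ : Hˣ) : H) * ((r : H) - s * ((p⁻¹ : Hˣ) : H) * q) * ((q⁻¹ * p : Hˣ) : H) := by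
    rw [mul_sub, sub_mul]
    simp [mul_assoc]
  rw [e]
  exact ((Units.isUnit _).mul h).mul (Units.isUnit _)

private theorem Nh_c2 (p q r s t v : Hˣ) (h : IsUnit ((v : H) - r * ((q⁻¹ : Hˣ) : H) * t)) :
    IsUnit (((p⁻¹ : Hˣ) : H) * q * ((r⁻¹ : Hˣ) : H) * s - ((p⁻¹ : Hˣ) : H) * t * ((v⁻¹ : Hˣ) : H) * s) := by
  have e : ((p⁻¹ : Hˣ) : H) * q * ((r⁻¹ : Hˣ) : H) * s - ((p⁻¹ : Hˣ) : H) * t * ((v⁻¹ : Hˣ) : H) * s =
      ((p⁻¹ * q * r⁻¹ : Hˣ) : H) * ((v : H) - r * ((q⁻¹ : Hˣ) : H) * t) * ((v⁻¹ * s : Hˣ) : H) := by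
    rw [mul_sub, sub_mul]
    simp [mul_assoc]
  rw [e]
  exact ((Units.isUnit _).mul h).mul (Units.isUnit _)

private theorem Nh_r1 (p q r s : Hˣ) (h : IsUnit ((r : H) - s * ((p⁻¹ : Hˣ) : H) * q)) :
    IsUnit (1 - (p : H) * ((s⁻¹ : Hˣ) : H) * r * ((q⁻¹ : Hˣ) : H)) := by
  have e : 1 - (p : H) * ((s⁻¹ : Hˣ) : H) * r * ((q⁻¹ : Hˣ) : H) =
      -(((p * s⁻¹ : Hˣ) : H) * ((r : H) - s * ((p⁻¹ : Hˣ) : H) * q) * ((q⁻¹ : Hˣ) : H)) := by
    rw [mul_sub, sub_mul]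
    simp [mul_assoc]
  rw [e]
  exact (((Units.isUnit _).mul h).mul (Units.isUnit _)).neg

private theorem Nh_r2 (p q r s t v : Hˣ) (h : IsUnit ((v : H) - t * ((s⁻¹ : Hˣ) : H) * r)) :
    IsUnit ((p : H) * ((s⁻¹ : Hˣ) : H) * r * ((q⁻¹ : Hˣ) : H) - (p : H) * ((t⁻¹ : Hˣ) : H) * v * ((q⁻¹ : Hˣ) : H)) := by
  have e : (p : H) * ((s⁻¹ : Hˣ) : H) * r * ((q⁻¹ : Hˣ) : H) - (p : H) * ((t⁻¹ : Hˣ) : H) * v * ((q⁻¹ : Hˣ) : H) =
      -(((p * t⁻¹ : Hˣ) : H) * ((v : H) - t * ((s⁻¹ : Hˣ) : H) * r) * ((q⁻¹ : Hˣ) : H)) := by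
    rw [mul_sub, sub_mul]
    simp [mul_assoc]
  rw [e]
  exact (((Units.isUnit _).mul h).mul (Units.isUnit _)).neg

end

section

variable {E : Type} {Λ : Submodule Hz (E → Hz)} {Γ : Submodule Rq (E → Rq)}

private theorem Nh_unit (h : Right Λ Γ) {S : Finset E} (hS : IsB Γ S) {a : E} (ha : a ∈ S) (e : E)
    (hu : IsUnit (fv Γ S a e)) : IsUnit (fv Λ S a e) := by
  obtain ⟨h1, h2⟩ := (h S hS).2 a ha e
  exact unit_of_red h1 (by rw [h2]; exact hu.ne_zero)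

private theorem Nh_sc (h : Right Λ Γ) {S : Finset E} (hS : IsB Γ S) {a b : E} (ha : a ∈ S) (hb : b ∈ S) (hab : a ≠ b)
    {c : E} (hc : c ∉ S) (hu : IsUnit (fv Γ S a c)) (f : E) (hs : IsUnit (sc Γ S a b c f)) :
    IsUnit (sc Λ S a b c f) := by
  have hΛ := (h S hS).1
  have hB : IsB Γ (pv S a c) := piv hS ha hc hu
  have hm : b ∈ pv S a c := mem_pv.2 (Or.inr ⟨Ne.symm hab, hb⟩)
  have h1 := Nh_unit h hB hm f (by
    rw [piv_old_apply hS ha hc hu hb (Ne.symm hab) f]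
    exact hs)
  rw [piv_old_apply hΛ ha hc (Nh_unit h hS ha c hu) hb (Ne.symm hab) f] at h1
  exact h1

end

theorem nc_of_right {E : Type} {Λ : Submodule Hz (E → Hz)} {Γ : Submodule Rq (E → Rq)} (h : Right Λ Γ) : NC Γ := by
  constructor
  · intro S hS a ha b hb hab c e f hc he hf uac uae uaf ubc ube ubf s1 s2 s3
    have t1 := Nh_sc h hS ha hb hab hc uac e s1
    have t2 := Nh_sc h hS ha hb hab hc uac f s2
    have t3 := Nh_sc h hS ha hb hab he uae f s3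
    have vac := Nh_unit h hS ha c uac
    have vae := Nh_unit h hS ha e uae
    have vaf := Nh_unit h hS ha f uaf
    have vbc := Nh_unit h hS hb c ubc
    have vbe := Nh_unit h hS hb e ube
    have vbf := Nh_unit h hS hb f ubf
    have rx : red (cX Λ S a b c e) = cX Γ S a b c e := by
      unfold cX
      rw [map_mul, map_mul, map_mul, red_inv vac, red_inv vbe, ((h S hS).2 a ha c).2, ((h S hS).2 a ha e).2,
        ((h S hS).2 b hb e).2, ((h S hS).2 b hb c).2]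
    have ry : red (cX Λ S a b c f) = cX Γ S a b c f := by
      unfold cX
      rw [map_mul, map_mul, map_mul, red_inv vac, red_inv vbf, ((h S hS).2 a ha c).2, ((h S hS).2 a ha f).2,
        ((h S hS).2 b hb f).2, ((h S hS).2 b hb c).2]
    rw [← rx, ← ry]
    unfold sc at t1 t2 t3
    unfold cX
    obtain ⟨p, hp⟩ := vac
    obtain ⟨q, hq⟩ := vae
    obtain ⟨t, ht⟩ := vaf
    obtain ⟨s, hs⟩ := vbc
    obtain ⟨r, hr⟩ := vbe
    obtain ⟨v, hv⟩ := vbf
    rw [← hp, ← hq, ← hs, ← hr, Ring.inverse_unit] at t1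
    rw [← hp, ← ht, ← hs, ← hv, Ring.inverse_unit] at t2
    rw [← hq, ← ht, ← hr, ← hv, Ring.inverse_unit] at t3
    rw [← hp, ← hq, ← hs, ← hr, ← ht, ← hv, Ring.inverse_unit, Ring.inverse_unit, Ring.inverse_unit]
    exact nc24 (((((Units.isUnit _).mul (Units.isUnit _)).mul (Units.isUnit _)).mul (Units.isUnit _)))
      (((((Units.isUnit _).mul (Units.isUnit _)).mul (Units.isUnit _)).mul (Units.isUnit _)))
      (Nh_c1 p q r s t1) (Nh_c1 p t v s t2) (Nh_c2 p q r s t v t3)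
  · intro S hS a ha b hb c hc hab hac hbc e f he hf uae ube uce uaf ubf ucf s1 s2 s3
    have t1 := Nh_sc h hS ha hb hab he uae f s1
    have t2 := Nh_sc h hS ha hc hac he uae f s2
    have t3 := Nh_sc h hS hb hc hbc he ube f s3
    have vae := Nh_unit h hS ha e uae
    have vbe := Nh_unit h hS hb e ube
    have vce := Nh_unit h hS hc e uce
    have vaf := Nh_unit h hS ha f uaf
    have vbf := Nh_unit h hS hb f ubf
    have vcf := Nh_unit h hS hc f ucf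
    have rx : red (rX Λ S a b e f) = rX Γ S a b e f := by
      unfold rX
      rw [map_mul, map_mul, map_mul, red_inv vbe, red_inv vaf, ((h S hS).2 a ha e).2, ((h S hS).2 b hb e).2,
        ((h S hS).2 b hb f).2, ((h S hS).2 a ha f).2]
    have ry : red (rX Λ S a c e f) = rX Γ S a c e f := by
      unfold rX
      rw [map_mul, map_mul, map_mul, red_inv vce, red_inv vaf, ((h S hS).2 a ha e).2, ((h S hS).2 c hc e).2,
        ((h S hS).2 c hc f).2, ((h S hS).2 a ha f).2]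
    rw [← rx, ← ry]
    unfold sc at t1 t2 t3
    unfold rX
    obtain ⟨p, hp⟩ := vae
    obtain ⟨q, hq⟩ := vaf
    obtain ⟨s, hs⟩ := vbe
    obtain ⟨r, hr⟩ := vbf
    obtain ⟨t, ht⟩ := vce
    obtain ⟨v, hv⟩ := vcf
    rw [← hp, ← hq, ← hs, ← hr, Ring.inverse_unit] at t1
    rw [← hp, ← hq, ← ht, ← hv, Ring.inverse_unit] at t2
    rw [← hs, ← hr, ← ht, ← hv, Ring.inverse_unit] at t3
    rw [← hp, ← hq, ← hs, ← hr, ← ht, ← hv, Ring.inverse_unit, Ring.inverse_unit, Ring.inverse_unit]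
    exact nc24 (((((Units.isUnit _).mul (Units.isUnit _)).mul (Units.isUnit _)).mul (Units.isUnit _)))
      (((((Units.isUnit _).mul (Units.isUnit _)).mul (Units.isUnit _)).mul (Units.isUnit _)))
      (Nh_r1 p q r s t1) (Nh_r1 p q v t t2) (Nh_r2 p q r s t v t3)

end Pool.Agent.QUE
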