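import Pool.Agent.QUE.Gb
import Pool.Agent.QUS.Rk1
import Pool.Agent.QUL.LBase

/-!
# QUE/Sc: scaling of the coordinates

`scl Γ u = {x u : x ∈ Γ}` (right multiplication of the coordinates by units).  `isB_scl`: `x ∈ scl Γ u` is zero on `S` iff `x u⁻¹ ∈ Γ` is; existence: for `b ∈ S` take `(u b)⁻¹ • fv Γ S b` times `u`; `scl_scl_inv`: use `scl (scl Γ u) u⁻¹ = Γ` for the converse.
`fv_scl`: `fv_uniq`.  `right_scl`: `isB_scl`, `fv_scl`, `red` is a ring homomorphism, units.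
`gm_scl`: `u e = ⟨k, l e * k⟩`: for `x = ⟨v, y⟩ ∈ Gm L T` the product `x e * u e = ⟨v e * k, v e * l e * k + y e * k ^ 2⟩`: its `a`-part is `k • v`, `∑ _ * d e = k * dg l v d + k ^ 2 * T v d = (k • T + dg l) (k • v) d`.  So `scl (Gm L T) u ≤ Gm L (k • T + dg l)`; equality because both have the same bases
(`isB_scl`, `isB_gm`; take a basis `B`, `exists_isB`, and `eq_of_on`), or by the inverse scaling.
`lift_units`: `unit_lift` (QUS/Rk1) for each `e`.
-/

set_option autoImplicit false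

noncomputable section

open scoped Classical

namespace Pool.Agent.QUE

open Pool.Agent.FRM Pool.Agent.QUS
open Pool.Agent.QU (Fm dg)

section

variable {H : Type} [Ring H] {E : Type} {Γ : Submodule H (E → H)} {u : E → Hˣ} {S : Finset E} {b : E}

theorem mem_scl {x : E → H} : x ∈ scl Γ u ↔ (fun e => x e * ↑(u e)⁻¹) ∈ Γ := by
  constructor
  · rintro ⟨y, hy, rfl⟩
    have h : (fun e => (scr fun e => (u e : H)) y e * ↑(u e)⁻¹) = y := by
      funext e
      show y e * (u e : H) * ↑(u e)⁻¹ = y e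
      rw [mul_assoc, Units.mul_inv, mul_one]
    rw [h]
    exact hy
  · intro h
    refine ⟨_, h, ?_⟩
    funext e
    show x e * ↑(u e)⁻¹ * (u e : H) = x e
    rw [mul_assoc, Units.inv_mul, mul_one]

private theorem Sc_fwd {Γ : Submodule H (E → H)} {u : E → Hˣ} (h : IsB Γ S) : IsB (scl Γ u) S := by
  constructor
  · intro v hv h0
    have h1 := h.1 _ (mem_scl.1 hv) fun s hs => by
      show v s * ↑(u s)⁻¹ = 0
      rw [h0 s hs, zero_mul]
    funext e
    have h2 : v e * ↑(u e)⁻¹ = 0 := congrFun h1 e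
    show v e = 0
    rw [← mul_one (v e), ← Units.inv_mul (u e), ← mul_assoc, h2, zero_mul]
  · intro b hb
    obtain ⟨x, hx, h1, h2⟩ := h.2 b hb
    refine ⟨(↑(u b)⁻¹ : H) • fun e => x e * u e, Submodule.smul_mem _ _ ?_, ?_, ?_⟩
    · refine mem_scl.2 ?_
      have h3 : (fun e => x e * (u e : H) * ↑(u e)⁻¹) = x := by
        funext e
        rw [mul_assoc, Units.mul_inv, mul_one]
      rw [h3]
      exact hx
    · show (↑(u b)⁻¹ : H) * (x b * u b) = 1
      rw [h1, one_mul, Units.inv_mul]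
    · intro s hs hsb
      show (↑(u b)⁻¹ : H) * (x s * u s) = 0
      rw [h2 s hs hsb, zero_mul, mul_zero]

private theorem Sc_inv : scl (scl Γ u) (fun e => (u e)⁻¹) = Γ := by
  ext x
  rw [mem_scl, mem_scl]
  have h : (fun e => x e * (↑((u e)⁻¹)⁻¹ : H) * ↑(u e)⁻¹) = x := by
    funext e
    rw [inv_inv, mul_assoc, Units.mul_inv, mul_one]
  rw [h]

theorem isB_scl : IsB (scl Γ u) S ↔ IsB Γ S := by
  refine ⟨fun h => ?_, Sc_fwd⟩
  have h1 := Sc_fwd (u := fun e => (u e)⁻¹) h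
  rwa [Sc_inv] at h1

theorem fv_scl (hS : IsB Γ S) (hb : b ∈ S) (e : E) : fv (scl Γ u) S b e = ↑(u b)⁻¹ * fv Γ S b e * u e := by
  have h := fv_uniq (x := fun e => (↑(u b)⁻¹ : H) * fv Γ S b e * u e) (isB_scl (u := u).2 hS) hb ?_ ?_ ?_
  · exact congrFun h e
  · refine mem_scl.2 ?_
    have h3 : (fun e => (↑(u b)⁻¹ : H) * fv Γ S b e * (u e : H) * ↑(u e)⁻¹) = (↑(u b)⁻¹ : H) • fv Γ S b := by
      funext e
      show (↑(u b)⁻¹ : H) * fv Γ S b e * (u e : H) * ↑(u e)⁻¹ = (↑(u b)⁻¹ : H) * fv Γ S b e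
      rw [mul_assoc, Units.mul_inv, mul_one]
    rw [h3]
    exact Submodule.smul_mem _ _ (fv_mem hS hb)
  · show (↑(u b)⁻¹ : H) * fv Γ S b b * u b = 1
    rw [fv_self hS hb, mul_one, Units.inv_mul]
  · intro s hs hsb
    show (↑(u b)⁻¹ : H) * fv Γ S b s * u s = 0
    rw [fv_oth hS hb hs hsb, mul_zero, zero_mul]

end

theorem right_scl {E : Type} {Λ : Submodule Hz (E → Hz)} {Γ : Submodule Rq (E → Rq)} (h : Right Λ Γ) (u : E → Hzˣ) :
    Right (scl Λ u) (scl Γ fun e => Units.map red.toMonoidHom (u e)) := by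
  intro S hS
  have hS' := isB_scl.1 hS
  obtain ⟨h1, h2⟩ := h S hS'
  refine ⟨isB_scl.2 h1, fun b hb e => ?_⟩
  rw [fv_scl h1 hb, fv_scl hS' hb]
  obtain ⟨h3, h4⟩ := h2 b hb e
  constructor
  · rcases h3 with h3 | h3
    · left
      rw [h3, mul_zero, zero_mul]
    · right
      exact (((u b)⁻¹).isUnit.mul h3).mul (u e).isUnit
  · rw [map_mul, map_mul, h4]
    congr 1

theorem lift_units {E : Type} (u : E → Rqˣ) : ∃ v : E → Hzˣ, ∀ e, Units.map red.toMonoidHom (v e) = u e := by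
  have h : ∀ e, ∃ v : Hzˣ, Units.map red.toMonoidHom v = u e := by
    intro e
    obtain ⟨y, hy, hy'⟩ := unit_lift (u e).isUnit
    refine ⟨hy.unit, Units.ext ?_⟩
    exact hy'
  exact ⟨fun e => (h e).choose, fun e => (h e).choose_spec⟩

private theorem Sc_f (k l : F4) (hk : k ≠ 0) : (⟨k, l * k⟩ : Rq) * ⟨k ^ 2, l * k⟩ = 1 ∧ (⟨k ^ 2, l * k⟩ : Rq) * ⟨k, l * k⟩ = 1 := by
  revert k l
  decide

theorem gm_scl {E : Type} [Fintype E] {L : Submodule F4 (E → F4)} {T : Fm F4 E} {k : F4} (hk : k ≠ 0) (l : E → F4) :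
    ∃ u : E → Rqˣ, Gm L (k • T + dg l) = scl (Gm L T) u := by
  have h3 : k * k ^ 2 = 1 := by
    rw [← pow_succ', F4.pow3 hk]
  refine ⟨fun e => ⟨⟨k, l e * k⟩, ⟨k ^ 2, l e * k⟩, (Sc_f k (l e) hk).1, (Sc_f k (l e) hk).2⟩, ?_⟩
  ext x
  rw [mem_scl, mem_gm, mem_gm]
  have ha : (fun e => (x e * (⟨k ^ 2, l e * k⟩ : Rq)).a) = k ^ 2 • fun e => (x e).a := by
    funext e
    show (x e).a * k ^ 2 = k ^ 2 * (x e).a
    rw [mul_comm]
  have hb : ∀ d : E → F4, ∑ e, (x e * (⟨k ^ 2, l e * k⟩ : Rq)).b * d e =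
      k * (∑ e, (x e).b * d e + dg l (fun e => (x e).a) d) := by
    intro d
    rw [Pool.Agent.QU.dg_apply, ← Finset.sum_add_distrib, Finset.mul_sum]
    refine Finset.sum_congr rfl fun e _ => ?_
    show ((x e).a * (l e * k) + (x e).b * (k ^ 2) ^ 2) * d e = _
    rw [F4.pow22]
    ring
  show _ ↔ (fun e => (x e * (⟨k ^ 2, l e * k⟩ : Rq)).a) ∈ L ∧
    ∀ d ∈ WW L, ∑ e, (x e * (⟨k ^ 2, l e * k⟩ : Rq)).b * d e = T (fun e => (x e * (⟨k ^ 2, l e * k⟩ : Rq)).a) d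
  rw [ha]
  have hT : ∀ d, (T (k ^ 2 • fun e => (x e).a)) d = k ^ 2 * T (fun e => (x e).a) d := by
    intro d
    rw [map_smul, LinearMap.smul_apply, smul_eq_mul]
  have hT' : ∀ d, (k • T + dg l) (fun e => (x e).a) d = k * T (fun e => (x e).a) d + dg l (fun e => (x e).a) d := by
    intro d
    rw [LinearMap.add_apply, LinearMap.add_apply, LinearMap.smul_apply, LinearMap.smul_apply, smul_eq_mul]
  constructor
  · rintro ⟨h1, h2⟩
    refine ⟨L.smul_mem _ h1, fun d hd => ?_⟩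
    rw [hb, hT, h2 d hd, hT', add_assoc, F4.add_self, add_zero, ← mul_assoc, ← pow_two]
  · rintro ⟨h1, h2⟩
    refine ⟨?_, fun d hd => ?_⟩
    · have h4 := L.smul_mem k h1
      rwa [smul_smul, h3, one_smul] at h4
    · have h4 := h2 d hd
      rw [hb, hT] at h4
      have h5 := congrArg (fun z => k ^ 2 * z) h4
      have h6 : ∀ y, k ^ 2 * (k * y) = y := by
        intro y
        rw [← mul_assoc, mul_comm (k ^ 2) k, h3, one_mul]
      have h7 : ∀ y, k ^ 2 * (k ^ 2 * y) = k * y := by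
        intro y
        rw [← mul_assoc, ← pow_add, show 2 + 2 = 4 from rfl, F4.pow4]
      simp only [h6, h7] at h5
      rw [hT', ← h5, add_assoc, F4.add_self, add_zero]

end Pool.Agent.QUE
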