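import Pool.Agent.QUE.Bd
import Pool.Agent.QUE.Dt

/-!
# QUE/Vl: valid matrices are right lifts

`L = rowL D R`, `Λ = rowL h R`, `Γ = rowL (red h) R`.  Property `P S` (`S` a basis of `L`): `IsB Λ S ∧ IsB Γ S ∧ (∀ b ∈ S, ∀ e, UZ (fv Λ S b e) ∧ red (fv Λ S b e) = fv Γ S b e ∧ (fv Γ S b e).a = fv L S b e) ∧`
`∀ r (σ σ' g : Fin r → E), σ injective with image R, σ' injective with image S: dC (mm Λ S σ' g) = dC (mm Λ R σ g)`.  `P R`: `isB_rowL`, `fv_rowL`; `UZ (h i j)`: the condition of `ValZ` for `m = 1`: `N (h i j) = 1` or `0` (`hz_unit`, `N_eq_zero`, `normSq_emb`, `dC` of a 1 x 1 matrix = normSq); enumerations: `dc_enum`.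
`vals`: for every `σ, g` the number `dC (mm Λ R σ g)` is `0` or `1`: `g` not injective: `dc_zero_col`; `g` injective: put `R ∩ im g`; permute (`dc_enum` for the rows; `g` may be permuted with `dC_perm`) so that it is the matrix of `border` for `f, g'` (images `R \ im g`, `im g \ R`, same cardinality as `r = R.card`): value by `ValZ`.
Step (`piv_ind` for `L` from `R`): `S' = pv S b e`, `fv L S b e ≠ 0`: so `fv Γ S b e ≠ 0`, `fv Λ S b e ≠ 0`, it is a unit, `fv Γ S b e` too; `piv`, `piv_new`, `piv_old` for `Λ`, `Γ`, `L` (the formulas commute with `red` and with the `a`-part: `red_inv`; `(Ring.inverse x).a = x.a⁻¹` in `Rq`); determinants: `dc_piv`.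
`UZ (fv Λ S' a f)`, `f ∉ S'`: by `dc_one_col` its norm is `dC (mm Λ S' σ' (update σ' k f))` = `dC (mm Λ R σ _)` ∈ {0, 1} (`vals`), so `UZ` (`N = 0` or `1`).
-/

set_option autoImplicit false

noncomputable section

open scoped Classical

namespace Pool.Agent.QUE

open Pool.Agent.FRM Pool.Agent.QUS

variable {E : Type} [Fintype E]

omit [Fintype E] in
private theorem Vl_upd {S : Finset E} {r : ℕ} {σ : Fin r → E} (hi : Function.Injective σ)
    (hS : Finset.univ.image σ = S) (k₀ : Fin r) {x : E} (hx : x ∉ S) :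
    Function.Injective (Function.update σ k₀ x) ∧
      Finset.univ.image (Function.update σ k₀ x) = pv S (σ k₀) x := by
  have hm : ∀ k, σ k ∈ S := fun k => by
    rw [← hS]
    exact Finset.mem_image_of_mem _ (Finset.mem_univ k)
  constructor
  · intro i j hij
    by_cases h1 : i = k₀ <;> by_cases h2 : j = k₀
    · rw [h1, h2]
    · rw [h1, Function.update_self, Function.update_of_ne h2] at hij
      exact absurd (hm j) (hij ▸ hx)
    · rw [h2, Function.update_self, Function.update_of_ne h1] at hij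
      exact absurd (hm i) (hij.symm ▸ hx)
    · rw [Function.update_of_ne h1, Function.update_of_ne h2] at hij
      exact hi hij
  · ext y
    rw [Finset.mem_image, mem_pv]
    constructor
    · rintro ⟨k, -, rfl⟩
      by_cases h1 : k = k₀
      · rw [h1, Function.update_self]
        exact Or.inl rfl
      · rw [Function.update_of_ne h1]
        exact Or.inr ⟨fun h => h1 (hi h), hm k⟩
    · rintro (rfl | ⟨h1, h2⟩)
      · exact ⟨k₀, Finset.mem_univ _, Function.update_self _ _ _⟩
      · rw [← hS, Finset.mem_image] at h2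
        obtain ⟨k, -, rfl⟩ := h2
        refine ⟨k, Finset.mem_univ _, Function.update_of_ne ?_ _ _⟩
        rintro rfl
        exact h1 rfl

omit [Fintype E] in
private theorem Vl_enum (A : Finset E) {m : ℕ} (h : A.card = m) :
    ∃ f : Fin m → E, Function.Injective f ∧ Finset.univ.image f = A := by
  refine ⟨fun k => ((A.equivFinOfCardEq h).symm k : E), ?_, ?_⟩
  · exact Subtype.val_injective.comp (A.equivFinOfCardEq h).symm.injective
  · ext x
    rw [Finset.mem_image]
    constructor
    · rintro ⟨k, -, rfl⟩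
      exact ((A.equivFinOfCardEq h).symm k).2
    · intro hx
      exact ⟨A.equivFinOfCardEq h ⟨x, hx⟩, Finset.mem_univ _, by simp⟩

omit [Fintype E] in
private theorem Vl_perm {r : ℕ} {g τ : Fin r → E} (hg : Function.Injective g)
    (h : Finset.univ.image g ⊆ Finset.univ.image τ) : ∃ π : Equiv.Perm (Fin r), ∀ k, τ (π k) = g k := by
  have h1 : ∀ k, ∃ l, τ l = g k := fun k => by
    obtain ⟨l, -, hl⟩ := Finset.mem_image.1 (h (Finset.mem_image_of_mem _ (Finset.mem_univ k)))
    exact ⟨l, hl⟩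
  choose π hπ using h1
  have h2 : Function.Injective π := fun i j hij => hg (by rw [← hπ i, ← hπ j, hij])
  exact ⟨Equiv.ofBijective π (Finite.injective_iff_bijective.1 h2), hπ⟩

omit [Fintype E] in
private theorem Vl_fin_one {x : Hq} : dC (Matrix.of fun _ _ : Fin 1 => x) = ((Quaternion.normSq x : ℚ) : ℂ) := by
  have h : ∀ j' : Fin (0 + 1), j' ≠ 0 → (Matrix.of fun _ _ : Fin (0 + 1) => x) 0 j' = 0 := by
    intro j' hj'
    exact absurd (by omega) hj'
  have h1 := dC_row (Matrix.of fun _ _ : Fin (0 + 1) => x) 0 0 h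
  rw [dC_zero_fin, mul_one] at h1
  exact h1

private theorem Vl_uz {x : Hz} (h : ((x.N : ℤ) : ℂ) = 0 ∨ ((x.N : ℤ) : ℂ) = 1) : UZ x := by
  rcases h with h | h
  · exact Or.inl (N_eq_zero.1 (by exact_mod_cast h))
  · exact Or.inr (hz_unit.2 (by exact_mod_cast h))

private theorem Vl_inv_a {x : Rq} (h : IsUnit x) : (Ring.inverse x).a = Ring.inverse x.a := by
  have h1 := congrArg Rq.a (Ring.inverse_mul_cancel _ h)
  rw [Rq.mul_a, Rq.one_a] at h1
  rw [Ring.inverse_eq_inv']
  exact eq_inv_of_mul_eq_one_left h1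

omit [Fintype E] in
private theorem Vl_vals {D : E → E → F4} {h : E → E → Hz} {R : Finset E} (hv : ValZ D h R) {r : ℕ}
    {σ : Fin r → E} (g : Fin r → E) (hi : Function.Injective σ) (hR : Finset.univ.image σ = R) :
    dC (mm (rowL h R) R σ g) = 0 ∨ dC (mm (rowL h R) R σ g) = 1 := by
  by_cases hg : Function.Injective g
  · have hcR : R.card = r := by
      rw [← hR, Finset.card_image_of_injective _ hi, Finset.card_univ, Fintype.card_fin]
    have hcJ : (Finset.univ.image g).card = r := by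
      rw [Finset.card_image_of_injective _ hg, Finset.card_univ, Fintype.card_fin]
    have hc : (Finset.univ.image g \ R).card = (R \ Finset.univ.image g).card := by
      have h1 := Finset.card_sdiff_add_card_inter (Finset.univ.image g) R
      have h2 := Finset.card_sdiff_add_card_inter R (Finset.univ.image g)
      rw [Finset.inter_comm] at h2
      omega
    obtain ⟨f, hf, hfi⟩ := Vl_enum (R \ Finset.univ.image g) rfl
    obtain ⟨g', hg', hgi⟩ := Vl_enum (Finset.univ.image g \ R) hc
    have hfR : ∀ k, f k ∈ R := fun k => by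
      have : f k ∈ R \ Finset.univ.image g := by
        rw [← hfi]
        exact Finset.mem_image_of_mem _ (Finset.mem_univ k)
      exact (Finset.mem_sdiff.1 this).1
    have hgR : ∀ k, g' k ∉ R := fun k => by
      have : g' k ∈ Finset.univ.image g \ R := by
        rw [← hgi]
        exact Finset.mem_image_of_mem _ (Finset.mem_univ k)
      exact (Finset.mem_sdiff.1 this).2
    obtain ⟨r₀, σ₀, τ₀, h1, h2, h3, h4, h5⟩ := border (isB_rowL h R) hfR hgR hf hg'
    have hr : r₀ = r := by
      rw [← hcR, ← h2, Finset.card_image_of_injective _ h1, Finset.card_univ, Fintype.card_fin]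
    subst hr
    have h6 : Finset.univ.image τ₀ = Finset.univ.image g := by
      rw [h4, hfi, hgi]
      ext x
      rw [Finset.mem_union, Finset.mem_sdiff, Finset.mem_sdiff, Finset.mem_sdiff]
      tauto
    obtain ⟨π, hπ⟩ := Vl_perm hg h6.ge
    have h7 : mm (rowL h R) R σ₀ g = (mm (rowL h R) R σ₀ τ₀).submatrix id π := by
      ext1 k l
      show emb (fv (rowL h R) R (σ₀ k) (g l)) = emb (fv (rowL h R) R (σ₀ k) (τ₀ (π l)))
      rw [hπ]
    rw [dc_enum hi hR h1 h2, h7, (dC_perm _ π).1, ← h5]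
    have h8 : (Matrix.of fun k l => emb (fv (rowL h R) R (f k) (g' l))) =
        Matrix.of fun k l => emb (h (f k) (g' l)) := by
      ext1 k l
      show emb (fv (rowL h R) R (f k) (g' l)) = emb (h (f k) (g' l))
      rw [fv_rowL (hfR k) (hgR l)]
    rw [h8, hv.2 _ f g' hfR hgR]
    split_ifs
    · exact Or.inl rfl
    · exact Or.inr rfl
  · exact Or.inl (dc_zero_col hg)

omit [Fintype E] in
private theorem Vl_base {D : E → E → F4} {h : E → E → Hz} {R : Finset E} (hv : ValZ D h R) {b : E} (hb : b ∈ R)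
    (e : E) : UZ (fv (rowL h R) R b e) ∧
      red (fv (rowL h R) R b e) = fv (rowL (fun i j => red (h i j)) R) R b e ∧
      (fv (rowL (fun i j => red (h i j)) R) R b e).a = fv (rowL D R) R b e := by
  by_cases he : e ∈ R
  · by_cases hbe : e = b
    · subst hbe
      rw [fv_self (isB_rowL h R) hb, fv_self (isB_rowL (fun i j => red (h i j)) R) hb, fv_self (isB_rowL D R) hb]
      exact ⟨Or.inr isUnit_one, map_one _, rfl⟩
    · rw [fv_oth (isB_rowL h R) hb he hbe, fv_oth (isB_rowL (fun i j => red (h i j)) R) hb he hbe,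
        fv_oth (isB_rowL D R) hb he hbe]
      exact ⟨Or.inl rfl, map_zero _, rfl⟩
  · rw [fv_rowL hb he, fv_rowL hb he, fv_rowL hb he]
    refine ⟨Vl_uz ?_, rfl, hv.1 b hb e he⟩
    have h1 := hv.2 1 (fun _ => b) (fun _ => e) (fun _ => hb) (fun _ => he)
    rw [Vl_fin_one, normSq_emb] at h1
    have h2 : (((h b e).N : ℚ) : ℂ) = (((h b e).N : ℤ) : ℂ) := by push_cast; rfl
    rw [← h2, h1]
    split_ifs
    · exact Or.inl rfl
    · exact Or.inr rfl

/-- the property for the induction -/
private def VlP (D : E → E → F4) (h : E → E → Hz) (R S : Finset E) : Prop :=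
  IsB (rowL h R) S ∧ IsB (rowL (fun i j => red (h i j)) R) S ∧ (∀ b ∈ S, ∀ e,
      UZ (fv (rowL h R) S b e) ∧ red (fv (rowL h R) S b e) = fv (rowL (fun i j => red (h i j)) R) S b e ∧
      (fv (rowL (fun i j => red (h i j)) R) S b e).a = fv (rowL D R) S b e) ∧
    ∀ (r : ℕ) (σ σ' g : Fin r → E), Function.Injective σ → Finset.univ.image σ = R → Function.Injective σ' →
      Finset.univ.image σ' = S → dC (mm (rowL h R) S σ' g) = dC (mm (rowL h R) R σ g)

omit [Fintype E] in
private theorem Vl_step {D : E → E → F4} {h : E → E → Hz} {R S : Finset E} (hv : ValZ D h R)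
    (hS : IsB (rowL D R) S) (hP : VlP D h R S) (hc : S.card = R.card) {b e : E} (hb : b ∈ S) (he : e ∉ S)
    (hu : IsUnit (fv (rowL D R) S b e)) : VlP D h R (pv S b e) := by
  obtain ⟨h1, h2, h3, h4⟩ := hP
  set Λ := rowL h R with hΛ
  set Γ := rowL (fun i j => red (h i j)) R with hΓ
  set L := rowL D R with hL
  have uΓ : IsUnit (fv Γ S b e) := by
    rw [rq_unit, (h3 b hb e).2.2]
    exact hu.ne_zero
  have uΛ : IsUnit (fv Λ S b e) := by
    refine unit_of_red (h3 b hb e).1 ?_
    rw [(h3 b hb e).2.1]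
    exact uΓ.ne_zero
  have i1 := piv h1 hb he uΛ
  have i2 := piv h2 hb he uΓ
  have i3 := piv hS hb he hu
  have eu : red (Ring.inverse (fv Λ S b e)) = Ring.inverse (fv Γ S b e) := by
    rw [red_inv uΛ, (h3 b hb e).2.1]
  have ea : (Ring.inverse (fv Γ S b e)).a = Ring.inverse (fv L S b e) := by
    rw [Vl_inv_a uΓ, (h3 b hb e).2.2]
  have hdet : ∀ (r : ℕ) (σ σ' g : Fin r → E), Function.Injective σ → Finset.univ.image σ = R →
      Function.Injective σ' → Finset.univ.image σ' = pv S b e →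
      dC (mm Λ (pv S b e) σ' g) = dC (mm Λ R σ g) := by
    intro r σ σ' g a1 a2 a3 a4
    have a5 : e ∈ Finset.univ.image σ' := by
      rw [a4]
      exact mem_pv.2 (Or.inl rfl)
    obtain ⟨k₀, -, a6⟩ := Finset.mem_image.1 a5
    have a7 : b ∉ pv S b e := by
      intro h'
      rcases mem_pv.1 h' with h'' | h''
      · exact he (h'' ▸ hb)
      · exact h''.1 rfl
    obtain ⟨a8, a9⟩ := Vl_upd a3 a4 k₀ a7
    rw [a6, pv_pv hb he] at a9
    have a10 := dc_piv (g := g) h1 a8 a9 (Function.update_self k₀ b σ') he uΛ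
    rw [Function.update_idem, ← a6, Function.update_eq_self] at a10
    rw [← a6, a10]
    exact h4 r σ _ g a1 a2 a8 a9
  refine ⟨i1, i2, ?_, hdet⟩
  intro a ha f
  refine ⟨?_, ?_⟩
  · by_cases hf : f ∈ pv S b e
    · by_cases hfa : f = a
      · rw [hfa, fv_self i1 ha]
        exact Or.inr isUnit_one
      · rw [fv_oth i1 ha hf hfa]
        exact Or.inl rfl
    · obtain ⟨σ, s1, s2⟩ := Vl_enum R rfl
      obtain ⟨σ', t1, t2⟩ := Vl_enum (pv S b e) ((pv_card hb he).trans hc)
      have a5 : a ∈ Finset.univ.image σ' := by rw [t2]; exact ha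
      obtain ⟨k₀, -, a6⟩ := Finset.mem_image.1 a5
      have q1 := dc_one_col (k₀ := k₀) i1 t1 t2 hf
      rw [hdet _ σ σ' _ s1 s2 t1 t2, a6] at q1
      apply Vl_uz
      rw [← q1]
      exact Vl_vals hv _ s1 s2
  · rcases mem_pv.1 ha with rfl | ⟨hab, haS⟩
    · rw [piv_new h1 hb he uΛ, piv_new h2 hb he uΓ, piv_new hS hb he hu]
      simp only [Pi.smul_apply, smul_eq_mul, map_mul, Rq.mul_a]
      rw [eu, ea, (h3 b hb f).2.1, (h3 b hb f).2.2]
      exact ⟨rfl, rfl⟩
    · rw [piv_old_apply h1 hb he uΛ haS hab, piv_old_apply h2 hb he uΓ haS hab, piv_old_apply hS hb he hu haS hab]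
      unfold sc
      rw [map_sub, map_mul, map_mul, eu, (h3 a haS f).2.1, (h3 a haS e).2.1, (h3 b hb f).2.1]
      refine ⟨rfl, ?_⟩
      rw [sub_eq_add_neg, Rq.add_a, Rq.neg_a, Rq.mul_a, Rq.mul_a, ea, (h3 a haS f).2.2, (h3 a haS e).2.2,
        (h3 b hb f).2.2]
      have : ∀ x y : F4, x + y = x - y := by decide
      exact this _ _

theorem val_right {D : E → E → F4} {h : E → E → Hz} {R : Finset E} (hv : ValZ D h R) :
    ∀ S, IsB (rowL D R) S → IsB (rowL h R) S ∧ IsB (rowL (fun i j => red (h i j)) R) S ∧ ∀ b ∈ S, ∀ e,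
      UZ (fv (rowL h R) S b e) ∧ red (fv (rowL h R) S b e) = fv (rowL (fun i j => red (h i j)) R) S b e ∧
      (fv (rowL (fun i j => red (h i j)) R) S b e).a = fv (rowL D R) S b e := by
  intro S hS
  have hU : ∀ S, IsB (rowL D R) S → ∀ b ∈ S, ∀ e, UZ (fv (rowL D R) S b e) := fun _ _ _ _ _ => uz_field _
  have hR := isB_rowL D R
  have key : VlP D h R S := by
    refine piv_ind hU (VlP D h R) hR ⟨isB_rowL h R, isB_rowL _ R, fun b hb e => Vl_base hv hb e, ?_⟩ ?_ hS
    · intro r σ σ' g a1 a2 a3 a4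
      exact dc_enum a3 a4 a1 a2
    · intro S' hS' _ hP b hb e _ he hu
      exact Vl_step hv hS' hP (card_eq hU hS' hR) hb he hu
  exact ⟨key.1, key.2.1, key.2.2.1⟩

end Pool.Agent.QUE
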