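import Pool.Agent.QUE.Ex
import Pool.Agent.QUE.Vl
import Pool.Agent.QUE.Sc
import Pool.Agent.QUE.Nh

/-!
# QUE/Un: uniqueness of valid matrices (assembly)
-/

set_option autoImplicit false

noncomputable section

open scoped Classical

namespace Pool.Agent.QUE

open Pool.Agent.FRM Pool.Agent.QUS
open Pool.Agent.QU (Fm InVs InV EqD EqOn dg)

variable {E : Type} [Fintype E]

/-- a valid matrix gives a form and right lifts -/
theorem form_of_valZ {D : E → E → F4} {h : E → E → Hz} {R : Finset E} (hv : ValZ D h R) :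
    ∃ T, InVs (tp (rowL D R)) (∅, Finset.univ) T ∧ Right (rowL h R) (Gm (rowL D R) T) := by
  have h1 := val_right hv
  have hres : Res (rowL (fun i j => red (h i j)) R) (rowL D R) := fun S hS => by
    obtain ⟨-, h3, h4⟩ := h1 S hS
    refine ⟨h3, fun b hb e => ?_⟩
    obtain ⟨h5, h6, h7⟩ := h4 b hb e
    exact ⟨h6 ▸ uz_red h5, h7⟩
  obtain ⟨T, hT, hΓ⟩ := exists_form hres
  have hR : Right (rowL h R) (Gm (rowL D R) T) := by
    rw [← hΓ]
    intro S hS
    obtain ⟨h3, -, h4⟩ := h1 S ((isB_of_res hres).1 hS)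
    exact ⟨h3, fun b hb e => ⟨(h4 b hb e).1, (h4 b hb e).2.1⟩⟩
  exact ⟨T, invs_of_nc hT (nc_of_right hR), hR⟩

/-- two forms which are not diagonal on the rich minors differ by a scalar and a diagonal form -/
theorem two_forms {L : Submodule F4 (E → F4)}
    (hun : ∀ T, InVs (tp L) (∅, Finset.univ) T → ∀ T', InV L (WW L) (∅, Finset.univ) T' →
      ∃ k : F4, EqD L (WW L) (∅, Finset.univ) T' (k • T)) {T T' : Fm F4 E}
    (hT : InVs (tp L) (∅, Finset.univ) T) (hT' : InVs (tp L) (∅, Finset.univ) T') :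
    ∃ k : F4, k ≠ 0 ∧ ∃ l : E → F4, EqOn L (WW L) (∅, Finset.univ) T' (k • T + dg l) := by
  obtain ⟨k, l, hl⟩ := hun T hT T' hT'.1
  by_cases hk : k = 0
  · obtain ⟨k', l', hl'⟩ := hun T' hT' T hT.1
    refine ⟨1, one_ne_zero, l + l' + k' • l, ?_⟩
    subst hk
    intro c hc d hd
    have e1 := hl c hc d hd
    have e2 := hl' c hc d hd
    simp only [zero_smul, LinearMap.add_apply, LinearMap.smul_apply, LinearMap.zero_apply, smul_eq_mul, one_mul,
      QU.dg_add, QU.dg_smul] at e1 e2 ⊢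
    rw [e2, e1]
    have h2 := F4.add_self (k' * (dg l : Fm F4 E) c d)
    have h3 := F4.add_self ((dg l' : Fm F4 E) c d)
    linear_combination -h2 - h3
  · exact ⟨k, hk, l, hl⟩

theorem unZ {D : E → E → F4} {R : Finset E} {h h' : E → E → Hz}
    (hC : ∀ A : Finset E, (∀ i ∈ R, ∀ j, j ∉ R → D i j ≠ 0 → (i ∈ A ↔ j ∈ A)) → A = ∅ ∨ A = Finset.univ)
    (hun : ∀ T, InVs (tp (rowL D R)) (∅, Finset.univ) T → ∀ T', InV (rowL D R) (WW (rowL D R)) (∅, Finset.univ) T' →
      ∃ k : F4, EqD (rowL D R) (WW (rowL D R)) (∅, Finset.univ) T' (k • T)) (hv : ValZ D h R) (hv' : ValZ D h' R) :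
    ∃ v : E → Hzˣ, ∀ i ∈ R, ∀ j, j ∉ R → h' i j = ↑(v i)⁻¹ * h i j * v j := by
  obtain ⟨T, hT, hR⟩ := form_of_valZ hv
  obtain ⟨T', hT', hR'⟩ := form_of_valZ hv'
  obtain ⟨k, hk, l, hl⟩ := two_forms hun hT hT'
  obtain ⟨u, hu⟩ := gm_scl (L := rowL D R) (T := T) hk l
  obtain ⟨v, hv1⟩ := lift_units u
  have e1 : Gm (rowL D R) T' = scl (Gm (rowL D R) T) u := by rw [gm_congr hl, hu]
  have h2 : Right (scl (rowL h R) v) (Gm (rowL D R) T') := by
    have h3 := right_scl hR v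
    rw [show (fun e => Units.map red.toMonoidHom (v e)) = u from funext hv1] at h3
    rwa [e1]
  have hres := res_gm (L := rowL D R) (T := T') hT'.1
  have hRB : IsB (rowL D R) R := isB_rowL D R
  have hRG : IsB (Gm (rowL D R) T') R := isB_gm.2 hRB
  have hConn : Conn (Gm (rowL D R) T') Finset.univ := by
    refine conn_of_graph (fun v _ e he => absurd (Finset.mem_univ e) he) hRG fun A _ hA => hC A fun i hi j hj hij => ?_
    refine hA i hi j (Finset.mem_univ j) fun h0 => hij ?_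
    have h4 := fv_gm_a (T := T') hRB hi j
    rw [h0, fv_rowL hi hj] at h4
    exact h4.symm
  obtain ⟨s, hs⟩ := uniq (fun v _ e he => absurd (Finset.mem_univ e) he) ⟨R, hRG⟩ (uz_of_res hres) hConn h2 hR'
  refine ⟨fun e => v e * Units.map (Int.castRingHom Hz).toMonoidHom (s e), fun i hi j hj => ?_⟩
  have hΛ := isB_rowL h R
  have e2 : fv (rowL h' R) R i j = ((s i * s j : ℤˣ) : ℤ) * (↑(v i)⁻¹ * h i j * v j) := by
    rw [hs, fv_tw (isB_scl.2 hΛ) hi j, fv_scl hΛ hi j, fv_rowL hi hj]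
  rw [fv_rowL hi hj] at e2
  rw [e2]
  have h5 : ∀ (x y : ℤˣ) (a : Hz), ((x * y : ℤˣ) : ℤ) * a = ((x⁻¹ : ℤˣ) : ℤ) * a * ((y : ℤˣ) : ℤ) := by
    intro x y a
    rw [Int.units_inv_eq_self, Units.val_mul, Int.cast_mul, mul_assoc, mul_assoc, Int.cast_comm (y : ℤ) a]
  rw [h5]
  simp only [mul_inv_rev, Units.val_mul, mul_assoc]
  rfl

end Pool.Agent.QUE
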