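import Pool.Agent.QUE.Int
import Pool.Agent.QUE.Un
import Pool.Agent.QUE.Ho3

/-!
# QUE/Main: (EX) and (UN) (assembly)
-/

set_option autoImplicit false

noncomputable section

namespace Pool.Agent.QUE

open Pool.Agent.FRM Pool.Agent.QUS
open Pool.Agent.QU (Fm InVs InV EqD)

section

open scoped Classical

variable {E : Type} [Fintype E] {t : E → Bool} {g : E → E → F4}

theorem mem_rws {x : E} : x ∈ rws t ↔ t x = true := by
  simp [rws]

theorem chM_sq (hm : QUA.Hm t g) (hU : QUA.U2G t g Finset.univ) : ChM (sqm g) (rws t) := by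
  obtain ⟨A, hA⟩ := det_u2g hm hU
  refine ⟨KU, inferInstance, inferInstance, A, fun m f h hf hh => ?_⟩
  have hRC : QUA.RC t Finset.univ f h := by
    refine ⟨fun a => ⟨Finset.mem_univ _, mem_rws.1 (hf a)⟩, fun b => ⟨Finset.mem_univ _, ?_⟩⟩
    have := hh b
    rw [mem_rws] at this
    exact Bool.eq_false_iff.2 this
  rw [det_sq g f h, pow_eq_zero_iff two_ne_zero]
  exact hA m f h hRC

/-- (EX) -/
theorem ex (hm : QUA.Hm t g) (hU : QUA.U2G t g Finset.univ) : ∃ H : E → E → Hq, QUA.Val t g H Finset.univ := by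
  obtain ⟨h, hh⟩ := exZ (chM_sq hm hU) (exist_form hm hU)
  exact val_of_valZ hm hh

theorem conn_of_cn (hm : QUA.Hm t g) (hc : QUA.Cn g Finset.univ) (A : Finset E)
    (hA : ∀ i ∈ rws t, ∀ j, j ∉ rws t → sqm g i j ≠ 0 → (i ∈ A ↔ j ∈ A)) : A = ∅ ∨ A = Finset.univ := by
  by_contra h
  push Not at h
  obtain ⟨x, hx, y, hy, hxy⟩ := hc A (Finset.subset_univ A) h.1 (by
    rw [Finset.sdiff_nonempty]
    exact fun h1 => h.2 (Finset.univ_subset_iff.1 h1))
  have hyA := (Finset.mem_sdiff.1 hy).2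
  have ht : t x ≠ t y := fun h1 => hxy (hm.bip x y h1)
  cases hx' : t x
  · have hy' : t y = true := by
      rcases Bool.eq_false_or_eq_true (t y) with h1 | h1
      · exact h1
      · exact absurd (hx'.trans h1.symm) ht
    have h2 : sqm g y x ≠ 0 := by
      rw [sqm, hm.inv x y]
      exact pow_ne_zero 2 (inv_ne_zero hxy)
    have h3 : x ∉ rws t := by
      rw [mem_rws, hx']
      exact Bool.false_ne_true
    exact hyA ((hA y (mem_rws.2 hy') x h3 h2).2 hx)
  · have h3 : y ∉ rws t := by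
      rw [mem_rws]
      exact fun h1 => ht (hx'.trans h1.symm)
    exact hyA ((hA x (mem_rws.2 hx') y h3 (pow_ne_zero 2 hxy)).1 hx)

theorem un' {H H' : E → E → Hq} (hm : QUA.Hm t g) (hU : QUA.U2G t g Finset.univ) (hc : QUA.Cn g Finset.univ) (ho : QUA.Ok g Finset.univ)
    (h : QUA.Val t g H Finset.univ) (h' : QUA.Val t g H' Finset.univ) : QUA.Eqv H H' Finset.univ := by
  obtain ⟨k, hk, hk'⟩ := valZ_of_val hm h
  obtain ⟨l, hl, hl'⟩ := valZ_of_val hm h'
  have hC := conn_of_cn hm hc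
  have hCn := cn_of_conn (conn_rowL (sqm g) (rws t) hC)
  have hOk := ok_of_ok (hm_sq hm) (ok_sq ho)
  obtain ⟨v, hv⟩ := unZ hC (fun T hT T' hT' => uniq_form hm hU hCn hOk T hT T' hT') hk hl
  have hstar : ∀ x : Hzˣ, star (emb ((x⁻¹ : Hzˣ) : Hz)) = emb (x : Hz) := by
    intro x
    have hu : IsUnit ((x⁻¹ : Hzˣ) : Hz) := (x⁻¹).isUnit
    have h1 := mul_star_self' ((x⁻¹ : Hzˣ) : Hz)
    rw [hz_unit.1 hu, Int.cast_one] at h1
    rw [star_emb]
    congr 1
    have h2 : (x : Hz) * (((x⁻¹ : Hzˣ) : Hz) * star ((x⁻¹ : Hzˣ) : Hz)) = x := by rw [h1, mul_one]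
    rwa [← mul_assoc, Units.mul_inv, one_mul] at h2
  have key : ∀ x ∈ rws t, ∀ y, y ∉ rws t →
      H' x y = emb ((v x)⁻¹ : Hzˣ) * H x y * star (emb ((v y)⁻¹ : Hzˣ)) := by
    intro x hx y hy
    rw [hl' x hx y hy, hk' x hx y hy, hv x hx y hy, map_mul, map_mul, hstar]
  refine ⟨fun x => emb ((v x)⁻¹ : Hzˣ), fun x => hu_emb ((v x)⁻¹).isUnit, fun x _ y _ => ?_⟩
  cases hx : t x <;> cases hy : t y
  · rw [h.zr x (Finset.mem_univ x) y (Finset.mem_univ y) (hm.bip x y (hx.trans hy.symm)),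
      h'.zr x (Finset.mem_univ x) y (Finset.mem_univ y) (hm.bip x y (hx.trans hy.symm)), mul_zero, zero_mul]
  · rw [h'.sym y x, key y (mem_rws.2 hy) x (by rw [mem_rws, hx]; exact Bool.false_ne_true), h.sym y x]
    simp only [star_mul, star_star, mul_assoc]
  · exact key x (mem_rws.2 hx) y (by rw [mem_rws, hy]; exact Bool.false_ne_true)
  · rw [h.zr x (Finset.mem_univ x) y (Finset.mem_univ y) (hm.bip x y (hx.trans hy.symm)),
      h'.zr x (Finset.mem_univ x) y (Finset.mem_univ y) (hm.bip x y (hx.trans hy.symm)), mul_zero, zero_mul]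

end

/-- (UN) -/
theorem un {E : Type} [Fintype E] [dE : DecidableEq E] {t : E → Bool} {g : E → E → F4} {H H' : E → E → Hq} (hm : QUA.Hm t g)
    (hU : QUA.U2G t g Finset.univ) (hc : QUA.Cn g Finset.univ) (ho : QUA.Ok g Finset.univ) (h : QUA.Val t g H Finset.univ)
    (h' : QUA.Val t g H' Finset.univ) : QUA.Eqv H H' Finset.univ := by
  have e : dE = fun a b => Classical.propDecidable (a = b) := Subsingleton.elim _ _
  subst e
  exact un' hm hU hc ho h h'

end Pool.Agent.QUE
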