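import Pool.Agent.QUE.Bo
import Pool.Agent.QUE.Com
import Pool.Agent.QUE.Rb
import Pool.Agent.QUE.Rc
import Pool.Agent.QUE.Tp

/-!
# QUE/Nc: forms which are not diagonal on the rich minors, and noncommutativity

Over a basis the form is diagonal on the box of a block if and only if the two cross ratios of the block commute
(`box_col`, `box_row`, from `eqD_box` and the linear systems of `QUE/Com`).  The rich minors are the minors given by
the blocks whose entries and subdeterminants do not vanish, so the module of a form is noncommutative if and only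
if the form is diagonal on no rich minor.
-/

set_option autoImplicit false

noncomputable section

open scoped Classical

namespace Pool.Agent.QUE

open Pool.Agent.FRM Pool.Agent.QUS
open Pool.Agent.QU (Fm EqD InV InVs)

variable {E : Type} [Fintype E] {L : Submodule F4 (E → F4)} {T : Fm F4 E} {S : Finset E} {a b c e f : E}

private theorem Nc_sc {x y z w : Rq} (hx : x.a ≠ 0) :
    IsUnit (w - z * Ring.inverse x * y) ↔ x.a * w.a ≠ y.a * z.a := by
  have h1 : (Ring.inverse x).a * x.a = 1 := by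
    have h := Ring.inverse_mul_cancel x (rq_unit.2 hx)
    exact congrArg Rq.a h
  have h2 : (w - z * Ring.inverse x * y).a = w.a + z.a * (Ring.inverse x).a * y.a := by
    rw [sub_eq_add_neg, Rq.add_a, Rq.neg_a, Rq.mul_a, Rq.mul_a]
  have two : (2 : F4) = 0 := by decide
  rw [rq_unit, h2, not_iff_not]
  constructor
  · intro h
    linear_combination x.a * h - (z.a * y.a) * h1 - (y.a * z.a) * two
  · intro h
    have h3 : w.a = (Ring.inverse x).a * (x.a * w.a) := by
      rw [← mul_assoc, h1, one_mul]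
    rw [h3, h]
    linear_combination ((Ring.inverse x).a * (y.a * z.a)) * two

omit [Fintype E] in
private theorem Nc_disj {X : Finset E} (h : ∀ x ∈ X, x ∉ S) : Disjoint X S :=
  Finset.disjoint_left.2 h

theorem box_col (hS : IsB L S) (ha : a ∈ S) (hb : b ∈ S) (hab : a ≠ b) (hc : c ∉ S) (he : e ∉ S) (hf : f ∉ S)
    (h1 : fv L S a c ≠ 0) (h2 : fv L S a e ≠ 0) (h3 : fv L S a f ≠ 0) (h4 : fv L S b c ≠ 0) (h5 : fv L S b e ≠ 0)
    (h6 : fv L S b f ≠ 0) (h7 : fv L S a c * fv L S b e ≠ fv L S a e * fv L S b c)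
    (h8 : fv L S a c * fv L S b f ≠ fv L S a f * fv L S b c) (h9 : fv L S a e * fv L S b f ≠ fv L S a f * fv L S b e) :
    EqD L (WW L) (S \ {a, b}, S ∪ {c, e, f}) T 0 ↔ Commute (cX (Gm L T) S a b c e) (cX (Gm L T) S a b c f) := by
  have hce : c ≠ e := by
    rintro rfl
    exact h7 rfl
  have hcf : c ≠ f := by
    rintro rfl
    exact h8 rfl
  have hef : e ≠ f := by
    rintro rfl
    exact h9 rfl
  have hca : c ≠ a := fun h => hc (h ▸ ha)
  have hcb : c ≠ b := fun h => hc (h ▸ hb)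
  have hea : e ≠ a := fun h => he (h ▸ ha)
  have heb : e ≠ b := fun h => he (h ▸ hb)
  have hfa : f ≠ a := fun h => hf (h ▸ ha)
  have hfb : f ≠ b := fun h => hf (h ▸ hb)
  have hsub : ({a, b} : Finset E) ⊆ S := by
    intro z hz
    simp only [Finset.mem_insert, Finset.mem_singleton] at hz
    rcases hz with rfl | rfl
    · exact ha
    · exact hb
  have hdis : Disjoint ({c, e, f} : Finset E) S := by
    refine Nc_disj fun z hz => ?_
    simp only [Finset.mem_insert, Finset.mem_singleton] at hz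
    rcases hz with rfl | rfl | rfl
    · exact hc
    · exact he
    · exact hf
  rw [eqD_box hS hsub hdis]
  unfold cX
  rw [com_col (by rw [fv_gm_a hS ha]; exact h1) (by rw [fv_gm_a hS ha]; exact h2) (by rw [fv_gm_a hS ha]; exact h3)
    (by rw [fv_gm_a hS hb]; exact h4) (by rw [fv_gm_a hS hb]; exact h5) (by rw [fv_gm_a hS hb]; exact h6)
    (by simp only [fv_gm_a hS ha, fv_gm_a hS hb]; exact h7) (by simp only [fv_gm_a hS ha, fv_gm_a hS hb]; exact h8)
    (by simp only [fv_gm_a hS ha, fv_gm_a hS hb]; exact h9)]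
  simp only [fv_gm_a hS ha, fv_gm_a hS hb, fv_gm_b hS ha hc, fv_gm_b hS ha he, fv_gm_b hS ha hf, fv_gm_b hS hb hc,
    fv_gm_b hS hb he, fv_gm_b hS hb hf]
  constructor
  · rintro ⟨l, hl⟩
    have ma : a ∈ ({a, b} : Finset E) := by simp
    have mb : b ∈ ({a, b} : Finset E) := by simp
    have mc : c ∈ ({c, e, f} : Finset E) := by simp
    have me : e ∈ ({c, e, f} : Finset E) := by simp
    have mf : f ∈ ({c, e, f} : Finset E) := by simp
    exact ⟨l a, l b, l c, l e, l f, hl a ma c mc, hl a ma e me, hl a ma f mf, hl b mb c mc, hl b mb e me, hl b mb f mf⟩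
  · rintro ⟨la, lb, lc, le, lf, e1, e2, e3, e4, e5, e6⟩
    obtain ⟨l, g1, g2, g3, g4, g5⟩ : ∃ l : E → F4, l a = la ∧ l b = lb ∧ l c = lc ∧ l e = le ∧ l f = lf := by
      refine ⟨fun x => if x = a then la else if x = b then lb else if x = c then lc else if x = e then le else lf,
        ?_, ?_, ?_, ?_, ?_⟩
      · simp
      · simp [hab.symm]
      · simp [hca, hcb]
      · simp [hea, heb, hce.symm]
      · simp [hfa, hfb, hcf.symm, hef.symm]
    refine ⟨l, fun i hi j hj => ?_⟩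
    simp only [Finset.mem_insert, Finset.mem_singleton] at hi hj
    rcases hi with rfl | rfl <;> rcases hj with rfl | rfl | rfl
    · rw [g1, g3]; exact e1
    · rw [g1, g4]; exact e2
    · rw [g1, g5]; exact e3
    · rw [g2, g3]; exact e4
    · rw [g2, g4]; exact e5
    · rw [g2, g5]; exact e6

theorem box_row (hS : IsB L S) (ha : a ∈ S) (hb : b ∈ S) (hc : c ∈ S) (hab : a ≠ b) (hac : a ≠ c) (hbc : b ≠ c)
    (he : e ∉ S) (hf : f ∉ S) (h1 : fv L S a e ≠ 0) (h2 : fv L S b e ≠ 0) (h3 : fv L S c e ≠ 0) (h4 : fv L S a f ≠ 0)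
    (h5 : fv L S b f ≠ 0) (h6 : fv L S c f ≠ 0) (h7 : fv L S a e * fv L S b f ≠ fv L S a f * fv L S b e)
    (h8 : fv L S a e * fv L S c f ≠ fv L S a f * fv L S c e) (h9 : fv L S b e * fv L S c f ≠ fv L S b f * fv L S c e) :
    EqD L (WW L) (S \ {a, b, c}, S ∪ {e, f}) T 0 ↔ Commute (rX (Gm L T) S a b e f) (rX (Gm L T) S a c e f) := by
  have hef : e ≠ f := by
    rintro rfl
    exact h7 rfl
  have hea : e ≠ a := fun h => he (h ▸ ha)
  have heb : e ≠ b := fun h => he (h ▸ hb)
  have hec : e ≠ c := fun h => he (h ▸ hc)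
  have hfa : f ≠ a := fun h => hf (h ▸ ha)
  have hfb : f ≠ b := fun h => hf (h ▸ hb)
  have hfc : f ≠ c := fun h => hf (h ▸ hc)
  have hsub : ({a, b, c} : Finset E) ⊆ S := by
    intro z hz
    simp only [Finset.mem_insert, Finset.mem_singleton] at hz
    rcases hz with rfl | rfl | rfl
    · exact ha
    · exact hb
    · exact hc
  have hdis : Disjoint ({e, f} : Finset E) S := by
    refine Nc_disj fun z hz => ?_
    simp only [Finset.mem_insert, Finset.mem_singleton] at hz
    rcases hz with rfl | rfl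
    · exact he
    · exact hf
  rw [eqD_box hS hsub hdis]
  unfold rX
  rw [com_row (by rw [fv_gm_a hS ha]; exact h1) (by rw [fv_gm_a hS ha]; exact h4) (by rw [fv_gm_a hS hb]; exact h2)
    (by rw [fv_gm_a hS hb]; exact h5) (by rw [fv_gm_a hS hc]; exact h3) (by rw [fv_gm_a hS hc]; exact h6)
    (by simp only [fv_gm_a hS ha, fv_gm_a hS hb]; exact h7) (by simp only [fv_gm_a hS ha, fv_gm_a hS hc]; exact h8)
    (by simp only [fv_gm_a hS hb, fv_gm_a hS hc]; exact h9)]
  simp only [fv_gm_a hS ha, fv_gm_a hS hb, fv_gm_a hS hc, fv_gm_b hS ha he, fv_gm_b hS ha hf, fv_gm_b hS hb he,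
    fv_gm_b hS hb hf, fv_gm_b hS hc he, fv_gm_b hS hc hf]
  constructor
  · rintro ⟨l, hl⟩
    have ma : a ∈ ({a, b, c} : Finset E) := by simp
    have mb : b ∈ ({a, b, c} : Finset E) := by simp
    have mc : c ∈ ({a, b, c} : Finset E) := by simp
    have me : e ∈ ({e, f} : Finset E) := by simp
    have mf : f ∈ ({e, f} : Finset E) := by simp
    exact ⟨l a, l b, l c, l e, l f, hl a ma e me, hl a ma f mf, hl b mb e me, hl b mb f mf, hl c mc e me, hl c mc f mf⟩
  · rintro ⟨la, lb, lc, le, lf, e1, e2, e3, e4, e5, e6⟩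
    obtain ⟨l, g1, g2, g3, g4, g5⟩ : ∃ l : E → F4, l a = la ∧ l b = lb ∧ l c = lc ∧ l e = le ∧ l f = lf := by
      refine ⟨fun x => if x = a then la else if x = b then lb else if x = c then lc else if x = e then le else lf,
        ?_, ?_, ?_, ?_, ?_⟩
      · simp
      · simp [hab.symm]
      · simp [hac.symm, hbc.symm]
      · simp [hea, heb, hec]
      · simp [hfa, hfb, hfc, hef.symm]
    refine ⟨l, fun i hi j hj => ?_⟩
    simp only [Finset.mem_insert, Finset.mem_singleton] at hi hj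
    rcases hi with rfl | rfl | rfl <;> rcases hj with rfl | rfl
    · rw [g1, g4]; exact e1
    · rw [g1, g5]; exact e2
    · rw [g2, g4]; exact e3
    · rw [g2, g5]; exact e4
    · rw [g3, g4]; exact e5
    · rw [g3, g5]; exact e6

theorem nc_gm (h : InVs (tp L) (∅, Finset.univ) T) : NC (Gm L T) := by
  constructor
  · intro S hG a ha b hb hab c e f hc he hf u1 u2 u3 u4 u5 u6 v1 v2 v3
    have hS : IsB L S := isB_gm.1 hG
    unfold sc at v1 v2 v3
    have k1 := rq_unit.1 u1
    have k2 := rq_unit.1 u2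
    have k3 := rq_unit.1 u3
    have k4 := rq_unit.1 u4
    have k5 := rq_unit.1 u5
    have k6 := rq_unit.1 u6
    have w1 := (Nc_sc k1).1 v1
    have w2 := (Nc_sc k1).1 v2
    have w3 := (Nc_sc k2).1 v3
    simp only [fv_gm_a hS ha, fv_gm_a hS hb] at k1 k2 k3 k4 k5 k6 w1 w2 w3
    intro hcom
    refine h.2 _ ⟨Finset.empty_subset _, Finset.subset_univ _⟩ (rich_col hS ha hb hab hc he hf k1 k2 k3 k4 k5 k6 w1 w2 w3) ?_
    exact (box_col hS ha hb hab hc he hf k1 k2 k3 k4 k5 k6 w1 w2 w3).2 hcom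
  · intro S hG a ha b hb c hc hab hac hbc e f he hf u1 u2 u3 u4 u5 u6 v1 v2 v3
    have hS : IsB L S := isB_gm.1 hG
    unfold sc at v1 v2 v3
    have k1 := rq_unit.1 u1
    have k2 := rq_unit.1 u2
    have k3 := rq_unit.1 u3
    have k4 := rq_unit.1 u4
    have k5 := rq_unit.1 u5
    have k6 := rq_unit.1 u6
    have w1 := (Nc_sc k1).1 v1
    have w2 := (Nc_sc k1).1 v2
    have w3 := (Nc_sc k2).1 v3
    simp only [fv_gm_a hS ha, fv_gm_a hS hb, fv_gm_a hS hc] at k1 k2 k3 k4 k5 k6 w1 w2 w3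
    intro hcom
    refine h.2 _ ⟨Finset.empty_subset _, Finset.subset_univ _⟩
      (rich_row hS ha hb hc hab hac hbc he hf k1 k2 k3 k4 k5 k6 w1 w2 w3) ?_
    exact (box_row hS ha hb hc hab hac hbc he hf k1 k2 k3 k4 k5 k6 w1 w2 w3).2 hcom

theorem invs_of_nc (hT : InV L (WW L) (∅, Finset.univ) T) (h : NC (Gm L T)) : InVs (tp L) (∅, Finset.univ) T := by
  refine ⟨hT, fun q _ hr hd => ?_⟩
  obtain ⟨S, hS, hc | hc⟩ := block_of_rich hr
  · obtain ⟨a, ha, b, hb, hab, c, hc, e, he, f, hf, k1, k2, k3, k4, k5, k6, w1, w2, w3, hall⟩ := hc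
    have hcom := (box_col hS ha hb hab hc he hf k1 k2 k3 k4 k5 k6 w1 w2 w3).1 (hall T hd)
    have u : ∀ {i j : E}, i ∈ S → fv L S i j ≠ 0 → (fv (Gm L T) S i j).a ≠ 0 := fun {i j} hi hij => by
      rw [fv_gm_a hS hi]
      exact hij
    refine h.col S (isB_gm.2 hS) a ha b hb hab c e f hc he hf (rq_unit.2 (u ha k1)) (rq_unit.2 (u ha k2))
      (rq_unit.2 (u ha k3)) (rq_unit.2 (u hb k4)) (rq_unit.2 (u hb k5)) (rq_unit.2 (u hb k6)) ?_ ?_ ?_ hcom
    · refine (Nc_sc (u ha k1)).2 ?_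
      simp only [fv_gm_a hS ha, fv_gm_a hS hb]
      exact w1
    · refine (Nc_sc (u ha k1)).2 ?_
      simp only [fv_gm_a hS ha, fv_gm_a hS hb]
      exact w2
    · refine (Nc_sc (u ha k2)).2 ?_
      simp only [fv_gm_a hS ha, fv_gm_a hS hb]
      exact w3
  · obtain ⟨a, ha, b, hb, c, hc, hab, hac, hbc, e, he, f, hf, k1, k2, k3, k4, k5, k6, w1, w2, w3, hall⟩ := hc
    have hcom := (box_row hS ha hb hc hab hac hbc he hf k1 k2 k3 k4 k5 k6 w1 w2 w3).1 (hall T hd)
    have u : ∀ {i j : E}, i ∈ S → fv L S i j ≠ 0 → (fv (Gm L T) S i j).a ≠ 0 := fun {i j} hi hij => by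
      rw [fv_gm_a hS hi]
      exact hij
    refine h.row S (isB_gm.2 hS) a ha b hb c hc hab hac hbc e f he hf (rq_unit.2 (u ha k1)) (rq_unit.2 (u hb k2))
      (rq_unit.2 (u hc k3)) (rq_unit.2 (u ha k4)) (rq_unit.2 (u hb k5)) (rq_unit.2 (u hc k6)) ?_ ?_ ?_ hcom
    · refine (Nc_sc (u ha k1)).2 ?_
      simp only [fv_gm_a hS ha, fv_gm_a hS hb]
      exact w1
    · refine (Nc_sc (u ha k1)).2 ?_
      simp only [fv_gm_a hS ha, fv_gm_a hS hc]
      exact w2
    · refine (Nc_sc (u hb k2)).2 ?_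
      simp only [fv_gm_a hS hb, fv_gm_a hS hc]
      exact w3

end Pool.Agent.QUE
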