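import Pool.Agent.QUE.Fld

/-!
# QUE/Rk: the rank function `rk L` and bases

`finrank_eq`: the linear equivalence `L ≃ (S → K)`, `v ↦ v` on `S` (injective by `hS.1`, surjective: `∑ c b • fv L S b`).
`rk_eq`: `van L A` has the coordinates in `S \ A` (`v ∈ van L A` is zero on `S ∩ A`; conversely every combination of the `fv L S b`, `b ∈ S \ A`, vanishes on `A`), so
`finrank (van L A) = (S \ A).card`.  `rk_le`: `van L A` embeds into the functions on `S \ A`.  `van_of_rk`: `van L B ≤ van L A` with the same `finrank`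
(`Submodule.eq_of_le_of_finrank_eq`).
`isRk`: `empty`: `van L ∅` is everything; `mono`: `van L B ≤ van L A`; `unit`: take `S` adapted to `A` (`isB_adapt`), the coordinates of `van L (insert x A)` in `S \ A` form the kernel of one
functional in the space of all of them; or by `exists_chain` for `A ⊆ insert x A` and `rk_eq` twice; `sub`: `van L (A ∪ B) = van L A ⊓ van L B`, `van L A ⊔ van L B ≤ van L (A ∩ B)` and
`Submodule.finrank_sup_add_finrank_inf_eq`.
-/

set_option autoImplicit false

noncomputable section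

open scoped Classical

namespace Pool.Agent.QUE

open Pool.Agent.QUS
open Pool.Agent.QU (van)

variable {K : Type} [Field K] {E : Type} [Fintype E] {L : Submodule K (E → K)} {S A B : Finset E} {b e : E}

omit [Fintype E] in
/-- the restriction of the vectors of `L` to `T` -/
private def rk_res (L : Submodule K (E → K)) (T : Finset E) : L →ₗ[K] (T → K) where
  toFun v s := (v : E → K) s
  map_add' _ _ := rfl
  map_smul' _ _ := rfl

theorem finrank_eq (hS : IsB L S) : Module.finrank K L = S.card := by
  have hinj : Function.Injective (rk_res L S) := by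
    intro v w hvw
    apply Subtype.ext
    refine eq_of_on hS v.2 w.2 fun s hs => ?_
    exact congrFun hvw ⟨s, hs⟩
  have hsurj : Function.Surjective (rk_res L S) := by
    intro c
    refine ⟨⟨∑ b ∈ S.attach, c b • fv L S b,
      Submodule.sum_mem _ fun b _ => Submodule.smul_mem _ _ (fv_mem hS b.2)⟩, ?_⟩
    funext s
    show (∑ b ∈ S.attach, c b • fv L S b) (s : E) = c s
    rw [Finset.sum_apply, Finset.sum_eq_single s]
    · rw [Pi.smul_apply, smul_eq_mul, fv_self hS s.2, mul_one]
    · intro b _ hbs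
      rw [Pi.smul_apply, smul_eq_mul, fv_oth hS b.2 s.2 (fun h => hbs (Subtype.ext h.symm)), mul_zero]
    · intro h
      exact absurd (Finset.mem_attach S s) h
  have h1 := LinearEquiv.finrank_eq (LinearEquiv.ofBijective (rk_res L S) ⟨hinj, hsurj⟩)
  rw [h1, Module.finrank_fintype_fun_eq_card, Fintype.card_coe]

private theorem rk_isB_van (hS : IsB L S) (h : ∀ b ∈ S, b ∉ A → ∀ e ∈ A, fv L S b e = 0) :
    IsB (van L A) (S \ A) := by
  refine ⟨fun v hv h0 => hS.1 v hv.1 fun s hs => ?_, fun b hb => ?_⟩
  · by_cases hsA : s ∈ A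
    · exact hv.2 s hsA
    · exact h0 s (Finset.mem_sdiff.2 ⟨hs, hsA⟩)
  · obtain ⟨hb1, hb2⟩ := Finset.mem_sdiff.1 hb
    exact ⟨fv L S b, ⟨fv_mem hS hb1, h b hb1 hb2⟩, fv_self hS hb1,
      fun s hs hsb => fv_oth hS hb1 (Finset.mem_sdiff.1 hs).1 hsb⟩

theorem rk_eq (hS : IsB L S) (h : ∀ b ∈ S, b ∉ A → ∀ e ∈ A, fv L S b e = 0) : rk L A = (S ∩ A).card := by
  unfold rk
  rw [finrank_eq hS, finrank_eq (rk_isB_van hS h)]
  have h1 := Finset.card_sdiff_add_card_inter S A
  omega

theorem rk_le (hS : IsB L S) : ((S ∩ A).card : ℤ) ≤ rk L A := by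
  have hinj : Function.Injective (rk_res (van L A) (S \ A)) := by
    intro v w hvw
    apply Subtype.ext
    refine eq_of_on hS v.2.1 w.2.1 fun s hs => ?_
    by_cases hsA : s ∈ A
    · rw [v.2.2 s hsA, w.2.2 s hsA]
    · exact congrFun hvw ⟨s, Finset.mem_sdiff.2 ⟨hs, hsA⟩⟩
  have h1 := LinearMap.finrank_le_finrank_of_injective hinj
  rw [Module.finrank_fintype_fun_eq_card, Fintype.card_coe] at h1
  unfold rk
  rw [finrank_eq hS]
  have h2 := Finset.card_sdiff_add_card_inter S A
  omega

private theorem rk_van_le (h : A ⊆ B) : van L B ≤ van L A := fun _ hv => ⟨hv.1, fun x hx => hv.2 x (h hx)⟩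

theorem van_of_rk (h : A ⊆ B) (hr : rk L A = rk L B) {v : E → K} (hv : v ∈ L) (h0 : ∀ e ∈ A, v e = 0) :
    ∀ e ∈ B, v e = 0 := by
  have h1 : van L B ≤ van L A := rk_van_le h
  have h2 : Module.finrank K (van L B) = Module.finrank K (van L A) := by
    unfold rk at hr
    omega
  have h3 := Submodule.eq_of_le_of_finrank_eq h1 h2
  have h4 : v ∈ van L A := ⟨hv, h0⟩
  rw [← h3] at h4
  exact h4.2

theorem rk_sub_basis (hS : IsB L S) (h : A ⊆ S) : rk L A = A.card := by
  rw [rk_eq hS fun b hb hbA e he => fv_oth hS hb (h he) fun h1 => hbA (h1 ▸ he), Finset.inter_eq_right.2 h]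

theorem isRk (L : Submodule K (E → K)) : QUB.Rk (rk L) := by
  refine ⟨?_, fun A B h => ?_, fun A x => ?_, fun A B => ?_⟩
  · have h1 : van L ∅ = L := by
      apply le_antisymm
      · exact fun v hv => hv.1
      · exact fun v hv => ⟨hv, fun x hx => absurd hx (Finset.notMem_empty x)⟩
    unfold rk
    rw [h1, sub_self]
  · have h1 := Submodule.finrank_mono (rk_van_le (L := L) h)
    unfold rk
    omega
  · obtain ⟨S, hS, h1, h2⟩ := exists_chain L (Finset.subset_insert x A)
    rw [rk_eq hS h1, rk_eq hS h2]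
    have h3 : S ∩ insert x A ⊆ insert x (S ∩ A) := by
      intro y hy
      obtain ⟨hy1, hy2⟩ := Finset.mem_inter.1 hy
      rcases Finset.mem_insert.1 hy2 with h4 | h4
      · rw [h4]
        exact Finset.mem_insert_self _ _
      · exact Finset.mem_insert_of_mem (Finset.mem_inter.2 ⟨hy1, h4⟩)
    have h4 := Finset.card_le_card h3
    have h5 := Finset.card_insert_le x (S ∩ A)
    omega
  · have h1 : van L (A ∪ B) = van L A ⊓ van L B := by
      ext v
      rw [Submodule.mem_inf]
      constructor
      · intro hv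
        exact ⟨⟨hv.1, fun x hx => hv.2 x (Finset.mem_union_left _ hx)⟩,
          ⟨hv.1, fun x hx => hv.2 x (Finset.mem_union_right _ hx)⟩⟩
      · rintro ⟨hv1, hv2⟩
        refine ⟨hv1.1, fun x hx => ?_⟩
        rcases Finset.mem_union.1 hx with h | h
        · exact hv1.2 x h
        · exact hv2.2 x h
    have h2 : van L A ⊔ van L B ≤ van L (A ∩ B) :=
      sup_le (rk_van_le Finset.inter_subset_left) (rk_van_le Finset.inter_subset_right)
    have h3 := Submodule.finrank_mono h2
    have h4 := Submodule.finrank_sup_add_finrank_inf_eq (van L A) (van L B)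
    unfold rk
    rw [h1]
    omega

/-- conversely: if the rank of `A` is the number of elements of `S` in `A` then `S` is adapted to `A` -/
theorem adapt_of_rk (hS : IsB L S) (h : rk L A = (S ∩ A).card) : ∀ b ∈ S, b ∉ A → ∀ e ∈ A, fv L S b e = 0 := by
  intro b hb hbA
  refine van_of_rk (A := S ∩ A) Finset.inter_subset_right ?_ (fv_mem hS hb) fun e he => ?_
  · rw [rk_sub_basis hS Finset.inter_subset_left, h]
  · exact fv_oth hS hb (Finset.mem_inter.1 he).1 fun h1 => hbA (h1 ▸ (Finset.mem_inter.1 he).2)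

end Pool.Agent.QUE
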